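import Pool.Agent.ThL.Sqf

/-! # The field with three elements: isotypic matrices with an irreducible cubic minimal polynomial -/

namespace ThL
open Polynomial Module Matrix

variable {K : Type*} [Field K]

-- BEGIN za
/-- MODULE za. Block factorisation: `Z1 = [A1, 0; C A2⁻¹, S1]`, `Z2 = [A2, A1⁻¹ B; 0, S2]`; `Matrix.charpoly_fromBlocks_zero₁₂`, `Matrix.charpoly_fromBlocks_zero₂₁`. -/
theorem glue {ι κ : Type*} [Fintype ι] [DecidableEq ι] [Fintype κ] [DecidableEq κ]
    {A1 A2 : Matrix ι ι K} {S1 S2 : Matrix κ κ K} (B : Matrix ι κ K) (C' : Matrix κ ι K)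
    (hA1 : A1.det ≠ 0) (hA2 : A2.det ≠ 0) :
    ∃ Z1 Z2 : Matrix (ι ⊕ κ) (ι ⊕ κ) K, Z1.charpoly = A1.charpoly * S1.charpoly ∧
      Z2.charpoly = A2.charpoly * S2.charpoly ∧
      fromBlocks (A1 * A2) B C' (C' * (A1 * A2)⁻¹ * B + S1 * S2) = Z1 * Z2 := by
  have h1 : IsUnit A1.det := isUnit_iff_ne_zero.mpr hA1
  have h2 : IsUnit A2.det := isUnit_iff_ne_zero.mpr hA2
  refine ⟨fromBlocks A1 0 (C' * A2⁻¹) S1, fromBlocks A2 (A1⁻¹ * B) 0 S2, ?_, ?_, ?_⟩
  · rw [Matrix.charpoly_fromBlocks_zero₁₂]
  · rw [Matrix.charpoly_fromBlocks_zero₂₁]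
  · rw [fromBlocks_multiply]
    congr 1
    · simp
    · rw [Matrix.zero_mul, add_zero, Matrix.mul_nonsing_inv_cancel_left A1 B h1]
    · rw [Matrix.mul_zero, add_zero, Matrix.nonsing_inv_mul_cancel_right A2 C' h2]
    · rw [Matrix.mul_inv_rev]
      simp only [Matrix.mul_assoc]
-- END za

-- BEGIN zb
private theorem zb_three (hK : Nat.card K = 3) : (3 : K) = 0 := by
  have hf : Finite K := Nat.finite_of_card_ne_zero (by rw [hK]; norm_num)
  have := Fintype.ofFinite K
  have h : (Fintype.card K : K) = 0 := Nat.cast_card_eq_zero K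
  rw [← Nat.card_eq_fintype_card, hK] at h
  exact_mod_cast h

/-- MODULE zb. `|K| = 3`. `[0, -1; 1, 0]` is a product of two matrices with characteristic polynomial `X ^ 2 + 1`, `[1, 1; 1, -1] * [-1, 1; 1, 1]`, and `[1, 1; -1, 1] * [1, 1; -1, 1]` has
factors with characteristic polynomial `X ^ 2 + X - 1` (`3 = 0`). -/
theorem two_fac (hK : Nat.card K = 3) {p : K[X]} (hp : p = X ^ 2 + 1 ∨ p = X ^ 2 + X - 1) :
    ∃ A1 A2 : Matrix (Fin 2) (Fin 2) K, A1.charpoly = p ∧ A2.charpoly = p ∧ A1 * A2 = !![0, -1; 1, 0] := by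
  have h3 := zb_three hK
  have e1 : (1 : K) + 1 = -1 := by linear_combination h3
  have e2 : (-1 : K) - 1 = 1 := by linear_combination -h3
  rcases hp with hp | hp
  · refine ⟨!![1, 1; 1, -1], !![-1, 1; 1, 1], ?_, ?_, ?_⟩
    · rw [Matrix.charpoly_fin_two, hp, Matrix.trace_fin_two, Matrix.det_fin_two]
      have : (1 : K) * -1 - 1 * 1 = 1 := by linear_combination -h3
      simp only [Matrix.of_apply, Matrix.cons_val', Matrix.cons_val_zero, Matrix.cons_val_one,
        Matrix.cons_val_fin_one]
      rw [this]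
      simp
    · rw [Matrix.charpoly_fin_two, hp, Matrix.trace_fin_two, Matrix.det_fin_two]
      have : (-1 : K) * 1 - 1 * 1 = 1 := by linear_combination -h3
      simp only [Matrix.of_apply, Matrix.cons_val', Matrix.cons_val_zero, Matrix.cons_val_one,
        Matrix.cons_val_fin_one]
      rw [this]
      simp
    · ext i j
      fin_cases i <;> fin_cases j <;> simp [Matrix.mul_apply, Fin.sum_univ_two]
      · exact e1
      · linear_combination -h3
  · have hc : (!![1, 1; -1, 1] : Matrix (Fin 2) (Fin 2) K).charpoly = p := by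
      rw [Matrix.charpoly_fin_two, hp, Matrix.trace_fin_two, Matrix.det_fin_two]
      have h5 : (1 : K) * 1 - 1 * -1 = -1 := by linear_combination h3
      simp only [Matrix.of_apply, Matrix.cons_val', Matrix.cons_val_zero, Matrix.cons_val_one,
        Matrix.cons_val_fin_one]
      rw [h5, e1]
      simp only [map_neg, map_one]
      ring
    refine ⟨!![1, 1; -1, 1], !![1, 1; -1, 1], hc, hc, ?_⟩
    ext i j
    fin_cases i <;> fin_cases j <;> simp [Matrix.mul_apply, Fin.sum_univ_two]
    · exact e1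
    · linear_combination -h3
-- END zb

-- BEGIN zc
private theorem zc_aeval {V : Type*} [AddCommGroup V] [Module K V] (N : Module.End K V) {k : ℕ}
    (u : Fin k → V) (M' : Matrix (Fin k) (Fin k) K) (h : ∀ j, N (u j) = ∑ i, M' i j • u i) (g : K[X]) :
    ∀ j, aeval N g (u j) = ∑ i, (aeval M' g) i j • u i := by
  have hpow : ∀ (n : ℕ) (j : Fin k), (N ^ n) (u j) = ∑ i, (M' ^ n) i j • u i := by
    intro n
    induction n with
    | zero =>
      intro j
      rw [pow_zero, pow_zero, Module.End.one_apply, Finset.sum_eq_single j]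
      · rw [Matrix.one_apply_eq, one_smul]
      · intro i _ hi
        rw [Matrix.one_apply_ne hi, zero_smul]
      · intro hj
        exact absurd (Finset.mem_univ j) hj
    | succ n ih =>
      intro j
      rw [pow_succ', Module.End.mul_apply, ih, map_sum, pow_succ']
      have h1 : ∀ l, N ((M' ^ n) l j • u l) = ∑ i, (M' i l * (M' ^ n) l j) • u i := by
        intro l
        rw [map_smul, h, Finset.smul_sum]
        exact Finset.sum_congr rfl (fun i _ => by rw [smul_smul, mul_comm])
      rw [Finset.sum_congr rfl (fun l _ => h1 l), Finset.sum_comm]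
      refine Finset.sum_congr rfl (fun i _ => ?_)
      rw [Matrix.mul_apply, Finset.sum_smul]
  intro j
  induction g using Polynomial.induction_on' with
  | add p q hp hq =>
    rw [map_add, map_add, LinearMap.add_apply, hp, hq, ← Finset.sum_add_distrib]
    exact Finset.sum_congr rfl (fun i _ => by rw [Matrix.add_apply, add_smul])
  | monomial n a =>
    rw [aeval_monomial, aeval_monomial, Algebra.algebraMap_eq_smul_one, Algebra.algebraMap_eq_smul_one,
      smul_mul_assoc, one_mul, smul_mul_assoc, one_mul, LinearMap.smul_apply, hpow, Finset.smul_sum]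
    exact Finset.sum_congr rfl (fun i _ => by rw [Matrix.smul_apply, smul_smul, smul_eq_mul])

private noncomputable def zc_g (K : Type*) [Field K] : Fin 2 ⊕ Fin 1 → K[X]
  | Sum.inl 0 => 1
  | Sum.inl 1 => X
  | Sum.inr _ => X ^ 2 + 1

private theorem zc_deg (K : Type*) [Field K] : (X ^ 2 + 1 : K[X]).natDegree = 2 ∧ (X ^ 2 + 1 : K[X]).Monic := by
  have h1 : (X ^ 2 + 1 : K[X]) = X ^ 2 + C 1 := by rw [C_1]
  rw [h1]
  exact ⟨natDegree_X_pow_add_C, monic_X_pow_add_C 1 two_ne_zero⟩

/-- MODULE zc. `M` with irreducible minimal polynomial `X ^ 3 + p2 X ^ 2 + p1 X + p0`. `ThPL.max_vec`, `ThPL.cyc_of_max` (for `toLin' M`), `ThPL.cyc_basis` with the polynomials `1, X, X ^ 2 + 1`: basis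
`v, M v, w = M² v + v` of the cyclic part and a basis of the invariant complement `V'` (dimension `k`); `M v = v1`, `M v1 = - v + w`, `M w = (p2 - p0) v + (1 - p1) v1 - p2 w`. -/
theorem exc_form {n : ℕ} (M : Matrix (Fin n) (Fin n) K) (hd : (minpoly K M).natDegree = 3) :
    ∃ (k : ℕ) (e : Fin 2 ⊕ (Fin 1 ⊕ Fin k) ≃ Fin n) (P : Matrix (Fin n) (Fin n) K) (M' : Matrix (Fin k) (Fin k) K),
      P.det ≠ 0 ∧ (∀ g : K[X], aeval M g = 0 → aeval M' g = 0) ∧
      M * P = P * reindex e e (fromBlocks !![0, -1; 1, 0]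
        (fromCols !![(minpoly K M).coeff 2 - (minpoly K M).coeff 0; 1 - (minpoly K M).coeff 1] 0)
        (fromRows !![0, 1] 0)
        (fromBlocks !![-(minpoly K M).coeff 2] 0 0 M')) := by
  classical
  obtain ⟨N, hN⟩ : ∃ N : Module.End K (Fin n → K), N = Matrix.toLin' M := ⟨_, rfl⟩
  have hmin : minpoly K N = minpoly K M := by rw [hN]; exact Matrix.minpoly_toLin' M
  obtain ⟨v, hv⟩ := ThPL.max_vec N
  obtain ⟨V', hV'⟩ := ThPL.cyc_of_max N hv
  rw [hmin, hd] at hV'
  obtain ⟨k, ⟨u⟩⟩ : ∃ k, Nonempty (Basis (Fin k) K V') := ⟨_, ⟨finBasis K V'⟩⟩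
  obtain ⟨d2, m2⟩ := zc_deg K
  obtain ⟨e0, h1, h2⟩ := ThPL.cyc_basis hV' u (zc_g K)
    (by
      rintro (i | i)
      · fin_cases i
        · exact monic_one
        · exact monic_X
      · exact m2)
    (by
      rintro (i | i)
      · fin_cases i
        · show (1 : K[X]).natDegree < 3
          rw [natDegree_one]
          omega
        · show (X : K[X]).natDegree < 3
          rw [natDegree_X]
          omega
      · show (X ^ 2 + 1 : K[X]).natDegree < 3
        rw [d2]
        omega)
    (by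
      have a0 : (zc_g K (Sum.inl 0)).natDegree = 0 := natDegree_one
      have a1 : (zc_g K (Sum.inl 1)).natDegree = 1 := natDegree_X
      have a2 : (zc_g K (Sum.inr 0)).natDegree = 2 := d2
      rintro (i | i) (j | j) h
      · fin_cases i <;> fin_cases j
        · rfl
        · exact absurd (a0.symm.trans (h.trans a1)) (by omega)
        · exact absurd (a1.symm.trans (h.trans a0)) (by omega)
        · rfl
      · fin_cases i <;> fin_cases j
        · exact absurd (a0.symm.trans (h.trans a2)) (by omega)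
        · exact absurd (a1.symm.trans (h.trans a2)) (by omega)
      · fin_cases i
        fin_cases j
        · exact absurd (a2.symm.trans (h.trans a0)) (by omega)
        · exact absurd (a2.symm.trans (h.trans a1)) (by omega)
      · fin_cases i
        fin_cases j
        rfl)
    (by rw [Fintype.card_sum, Fintype.card_fin, Fintype.card_fin])
  obtain ⟨b, hb0, hb1, hb2, hb3⟩ : ∃ b : Basis (Fin 2 ⊕ (Fin 1 ⊕ Fin k)) K (Fin n → K),
      b (Sum.inl 0) = v ∧ b (Sum.inl 1) = N v ∧ b (Sum.inr (Sum.inl 0)) = N (N v) + v ∧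
        ∀ i, b (Sum.inr (Sum.inr i)) = (u i : Fin n → K) := by
    refine ⟨e0.reindex ((Equiv.sumComm _ _).trans (Equiv.sumAssoc _ _ _)), ?_, ?_, ?_, fun i => ?_⟩
    · rw [Basis.reindex_apply]
      refine (h2 (Sum.inl 0)).trans ?_
      show aeval N (1 : K[X]) v = v
      rw [map_one, Module.End.one_apply]
    · rw [Basis.reindex_apply]
      refine (h2 (Sum.inl 1)).trans ?_
      show aeval N (X : K[X]) v = N v
      rw [aeval_X]
    · rw [Basis.reindex_apply]
      refine (h2 (Sum.inr 0)).trans ?_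
      show aeval N (X ^ 2 + 1 : K[X]) v = N (N v) + v
      rw [map_add, map_pow, aeval_X, map_one, LinearMap.add_apply, Module.End.one_apply, pow_two,
        Module.End.mul_apply]
    · rw [Basis.reindex_apply]
      exact h1 i
  obtain ⟨M', hM'⟩ : ∃ M' : Matrix (Fin k) (Fin k) K, ∀ j, N (u j : Fin n → K) = ∑ i, M' i j • (u i : Fin n → K) := by
    refine ⟨Matrix.of fun i j => u.repr ⟨N (u j), hV'.inv _ (u j).2⟩ i, fun j => ?_⟩
    have h3 := congrArg Subtype.val (u.sum_repr ⟨N (u j), hV'.inv _ (u j).2⟩)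
    rw [Submodule.coe_sum] at h3
    exact h3.symm
  have hcub : N (N (N v)) = -((minpoly K M).coeff 2) • N (N v) - (minpoly K M).coeff 1 • N v - (minpoly K M).coeff 0 • v := by
    have hmon : (minpoly K M).Monic := minpoly.monic (Algebra.IsIntegral.isIntegral M)
    have h3 := minpoly.aeval K N
    rw [hmin, aeval_eq_sum_range, hd, Finset.sum_range_succ, Finset.sum_range_succ, Finset.sum_range_succ,
      Finset.sum_range_one] at h3
    have h4 : (minpoly K M).coeff 3 = 1 := by
      rw [← hd]
      exact hmon.coeff_natDegree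
    have h5 := congrArg (fun f : Module.End K (Fin n → K) => f v) h3
    simp only [LinearMap.add_apply, LinearMap.smul_apply, h4, one_smul, pow_zero, Module.End.one_apply, pow_one,
      LinearMap.zero_apply] at h5
    have h6 : (N ^ 2) v = N (N v) := by rw [pow_two, Module.End.mul_apply]
    have h7 : (N ^ 3) v = N (N (N v)) := by rw [pow_succ, pow_two, Module.End.mul_apply, Module.End.mul_apply]
    rw [h6, h7] at h5
    rw [neg_smul]
    have h8 := eq_neg_of_add_eq_zero_right h5
    rw [h8]
    abel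
  obtain ⟨e⟩ : Nonempty (Fin 2 ⊕ (Fin 1 ⊕ Fin k) ≃ Fin n) := ⟨b.indexEquiv (Pi.basisFun K (Fin n))⟩
  refine ⟨k, e, Matrix.of fun i j => b (e.symm j) i, M', ?_, fun g hg => ?_, ?_⟩
  · have h3 : (Matrix.of fun i j => b (e.symm j) i) = (Pi.basisFun K (Fin n)).toMatrix (b.reindex e) := by
      ext i j
      rw [Basis.toMatrix_apply, Basis.reindex_apply, Pi.basisFun_repr]
      rfl
    have h4 := Basis.toMatrix_mul_toMatrix_flip (Pi.basisFun K (Fin n)) (b.reindex e)
    intro h0
    have h5 := congrArg Matrix.det h4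
    rw [Matrix.det_mul, ← h3, h0, zero_mul, Matrix.det_one] at h5
    exact zero_ne_one h5
  · have h3 : aeval N g = 0 := by
      rw [hN]
      have h4 : aeval (Matrix.toLin' M) g = Matrix.toLin' (aeval M g) :=
        Polynomial.aeval_algHom_apply (Matrix.toLinAlgEquiv' (R := K) (n := Fin n)).toAlgHom M g
      rw [h4, hg, map_zero]
    ext i j
    have h4 := zc_aeval N (fun i => (u i : Fin n → K)) M' hM' g j
    rw [h3, LinearMap.zero_apply] at h4
    have h5 : ∑ i, (aeval M' g) i j • u i = 0 := by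
      apply Subtype.ext
      rw [Submodule.coe_sum]
      exact h4.symm
    exact Fintype.linearIndependent_iff.1 u.linearIndependent _ h5 i
  · ext i j
    obtain ⟨j, rfl⟩ := e.surjective j
    have hL : (M * Matrix.of fun i j => b (e.symm j) i) i (e j) = N (b j) i := by
      rw [hN, Matrix.toLin'_apply, Matrix.mul_apply]
      refine Finset.sum_congr rfl (fun l _ => ?_)
      rw [Matrix.of_apply, Equiv.symm_apply_apply]
    rw [hL]
    have hR : ∀ W : Matrix (Fin 2 ⊕ (Fin 1 ⊕ Fin k)) (Fin 2 ⊕ (Fin 1 ⊕ Fin k)) K,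
        ((Matrix.of fun i j => b (e.symm j) i) * reindex e e W) i (e j) = (∑ l, W l j • b l) i := by
      intro W
      rw [Matrix.mul_apply, Finset.sum_apply, ← Equiv.sum_comp e]
      refine Finset.sum_congr rfl (fun l _ => ?_)
      rw [Matrix.of_apply, Matrix.reindex_apply, Matrix.submatrix_apply, Equiv.symm_apply_apply,
        Equiv.symm_apply_apply, Pi.smul_apply, smul_eq_mul, mul_comm]
    rw [hR]
    refine congrFun ?_ i
    rw [Fintype.sum_sum_type, Fintype.sum_sum_type, Fin.sum_univ_two, Fin.sum_univ_one, hb0, hb1, hb2]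
    rcases j with j | j | j
    · fin_cases j
      · show N (b (Sum.inl 0)) = _
        rw [hb0]
        simp
      · show N (b (Sum.inl 1)) = _
        rw [hb1]
        simp
    · fin_cases j
      show N (b (Sum.inr (Sum.inl 0))) = _
      rw [hb2, map_add, hcub]
      simp
      module
    · rw [hb3, hM' j]
      simp [hb3]
-- END zc

-- BEGIN zd
private theorem zd_conj {n : ℕ} {P A : Matrix (Fin n) (Fin n) K} (hP : IsUnit P.det) :
    (P * A * P⁻¹).charpoly = A.charpoly := by
  rw [Matrix.charpoly_mul_comm, ← Matrix.mul_assoc, Matrix.nonsing_inv_mul P hP, Matrix.one_mul]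

private theorem zd_scalar {k : ℕ} (hk : 0 < k) {g : K[X]} (hi : Irreducible g) (hd : g.natDegree = 3) {M' : Matrix (Fin k) (Fin k) K}
    (hM : aeval M' g = 0) (c : K) : M' ≠ c • 1 := by
  intro h
  have h1 : M' = algebraMap K (Matrix (Fin k) (Fin k) K) c := by
    rw [h, Algebra.algebraMap_eq_smul_one]
  rw [h1, aeval_algebraMap_apply, Algebra.algebraMap_eq_smul_one] at hM
  have h2 : aeval c g = (0 : K) := by
    have := congrFun (congrFun hM ⟨0, hk⟩) ⟨0, hk⟩
    simpa using this
  have h3 : g.IsRoot c := by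
    rw [IsRoot.def, ← coe_aeval_eq_eval]
    exact h2
  have h4 := degree_eq_one_of_irreducible_of_root hi h3
  rw [degree_eq_natDegree hi.ne_zero, hd] at h4
  exact absurd h4 (by decide)

private theorem zd_schur (a b p : K) {k : ℕ} (M' : Matrix (Fin k) (Fin k) K) :
    (fromBlocks !![-a] 0 0 M' : Matrix (Fin 1 ⊕ Fin k) (Fin 1 ⊕ Fin k) K) =
      (fromRows !![0, 1] 0 : Matrix (Fin 1 ⊕ Fin k) (Fin 2) K) * (!![0, -1; 1, 0] : Matrix (Fin 2) (Fin 2) K)⁻¹ *
        (fromCols !![a - b; 1 - p] 0 : Matrix (Fin 2) (Fin 1 ⊕ Fin k) K) + fromBlocks !![-b] 0 0 M' := by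
  have h : (!![0, -1; 1, 0] : Matrix (Fin 2) (Fin 2) K)⁻¹ = !![0, 1; -1, 0] := by
    apply Matrix.inv_eq_right_inv
    ext i j
    fin_cases i <;> fin_cases j <;> simp
  rw [h, fromRows_mul, fromRows_mul_fromCols, fromBlocks_add]
  simp only [Matrix.zero_mul, Matrix.mul_zero, zero_add]
  congr 1
  ext i j
  fin_cases i
  fin_cases j
  simp
  ring

/-- MODULE zd. `exc_form`; the Schur complement of the block `[0, -1; 1, 0]` is `fromBlocks !![-p0] 0 0 M'` (`p0 = (minpoly K M).coeff 0`), of determinant `1`. If `k = 0` it is `1 = 1 * 1` (`n = 3`, `f' = 1`). If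
`k > 0` it is not scalar (`M'` is killed by the irreducible polynomial of degree 3, so it has no eigenvalue), its size is `n - 2`, not divisible by `3`: `ThPL.prodM` (after reindexing to `Fin (n - 2)`) with `l1 = l2 = 1`,
`f1 = f2 = f'` gives `S1 S2`. Then `glue` with `two_fac`, reindex, conjugate by `P`. -/
theorem exc3 (hK : Nat.card K = 3) {n : ℕ} (h3 : 3 ∣ n) (M : Matrix (Fin n) (Fin n) K)
    (hi : Irreducible (minpoly K M)) (hd : (minpoly K M).natDegree = 3) (hdet : M.det = 1) {p f' : K[X]}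
    (hp : p = X ^ 2 + 1 ∨ p = X ^ 2 + X - 1) (hm : f'.Monic) (hf : f'.natDegree + 3 = n)
    (h0 : f'.coeff 0 * f'.coeff 0 = 1) :
    ∃ Z1 Z2 : Matrix (Fin n) (Fin n) K, Z1.charpoly = (X - C 1) * (p * f') ∧
      Z2.charpoly = (X - C 1) * (p * f') ∧ M = Z1 * Z2 := by
  obtain ⟨k, e, P, M', hP, hM', hMP⟩ := exc_form M hd
  have hPu : IsUnit P.det := isUnit_iff_ne_zero.2 hP
  have hkn : 2 + (1 + k) = n := by
    have := Fintype.card_congr e
    simpa using this
  generalize ha : (minpoly K M).coeff 2 = a at hMP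
  generalize hb : (minpoly K M).coeff 0 = b at hMP
  generalize hc : (minpoly K M).coeff 1 = c at hMP
  obtain ⟨A1, A2, hA1, hA2, hA⟩ := two_fac hK hp
  have hAdet : A1.det * A2.det = 1 := by
    rw [← det_mul, hA, det_fin_two_of]
    ring
  have hA1' : A1.det ≠ 0 := left_ne_zero_of_mul (by rw [hAdet]; exact one_ne_zero)
  have hA2' : A2.det ≠ 0 := right_ne_zero_of_mul (by rw [hAdet]; exact one_ne_zero)
  -- the Schur complement
  let S : Matrix (Fin 1 ⊕ Fin k) (Fin 1 ⊕ Fin k) K := fromBlocks !![-b] 0 0 M'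
  rw [zd_schur a b c M', ← hA] at hMP
  -- it is a product
  have hS : ∃ S1 S2 : Matrix (Fin 1 ⊕ Fin k) (Fin 1 ⊕ Fin k) K, S1.charpoly = (X - C 1) * f' ∧
      S2.charpoly = (X - C 1) * f' ∧ S = S1 * S2 := by
    have hSdet : S.det = 1 := by
      have hAd : (A1 * A2).det = 1 := by rw [det_mul, hAdet]
      let _ : Invertible (A1 * A2) := invertibleOfIsUnitDet _ (by rw [hAd]; exact isUnit_one)
      have h1 := congrArg Matrix.det hMP
      rw [det_mul, det_mul, hdet, one_mul, det_reindex_self, det_fromBlocks₁₁, invOf_eq_nonsing_inv, add_sub_cancel_left, hAd, one_mul] at h1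
      exact (mul_left_cancel₀ hP (by rw [← h1, mul_one])).symm
    rcases Nat.eq_zero_or_pos k with hk | hk
    · subst hk
      have hf1 : f' = 1 := hm.natDegree_eq_zero.1 (by omega)
      have hS1 : S = 1 := by
        have h1 : -b = 1 := by
          have h2 : S.det = -b := by
            show (fromBlocks !![-b] 0 0 M').det = -b
            rw [det_fromBlocks_zero₂₁, det_isEmpty (A := M'), mul_one, det_fin_one]
            rfl
          rw [← h2, hSdet]
        show fromBlocks !![-b] 0 0 M' = 1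
        rw [h1, ← fromBlocks_one]
        congr 1
        · ext i j
          fin_cases i
          fin_cases j
          rfl
        · exact Subsingleton.elim _ _
      refine ⟨1, 1, ?_, ?_, ?_⟩
      · rw [charpoly_one, hf1, mul_one, C_1]
        simp
      · rw [charpoly_one, hf1, mul_one, C_1]
        simp
      · rw [hS1, mul_one]
    · have hKd : ∃ d : K, d ≠ 0 ∧ d ≠ 1 := by
        by_contra hcon
        push Not at hcon
        have hfin : Finite K := (Nat.card_pos_iff.1 (by omega)).2
        have := Fintype.ofFinite K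
        classical
        have h1 : (Finset.univ : Finset K) ⊆ {0, 1} := by
          intro x _
          by_cases hx : x = 0
          · simp [hx]
          · simp [hcon x hx]
        have h2 := Finset.card_le_card h1
        rw [Finset.card_univ, ← Nat.card_eq_fintype_card, hK] at h2
        have h3 : ({0, 1} : Finset K).card ≤ 2 := Finset.card_le_two
        omega
      have hMs := zd_scalar hk hi hd (hM' _ (minpoly.aeval K M))
      let eS : Fin 1 ⊕ Fin k ≃ Fin (1 + k) := finSumFinEquiv
      obtain ⟨T1, T2, hT1, hT2, hT⟩ := ThPL.prodM (n := 1 + k) hKd (Or.inl (by omega)) (reindex eS eS S) (by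
        intro x hx
        apply hMs x
        have h1 : S = x • 1 := by
          have h2 : (reindex eS eS) S = (reindex eS eS) (x • 1) := by
            rw [hx]
            ext i j
            simp [Matrix.one_apply]
          exact (reindex eS eS).injective h2
        ext i j
        have h3 := congrFun (congrFun h1 (Sum.inr i)) (Sum.inr j)
        simpa [S, Matrix.one_apply] using h3) hm hm (by omega) (by omega) (l1 := 1) (l2 := 1)
        (by rw [det_reindex_self, hSdet, h0, mul_one, mul_one]) (by rw [det_reindex_self, hSdet]; exact one_ne_zero)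
      refine ⟨reindex eS.symm eS.symm T1, reindex eS.symm eS.symm T2, ?_, ?_, ?_⟩
      · rw [charpoly_reindex, hT1]
      · rw [charpoly_reindex, hT2]
      · rw [reindex_apply, reindex_apply, submatrix_mul_equiv, ← hT]
        ext i j
        simp
  obtain ⟨S1, S2, hS1, hS2, hS⟩ := hS
  obtain ⟨Z1, Z2, hZ1, hZ2, hZ⟩ := glue (S1 := S1) (S2 := S2) (fromCols !![a - b; 1 - c] 0 : Matrix (Fin 2) (Fin 1 ⊕ Fin k) K)
    (fromRows !![0, 1] 0 : Matrix (Fin 1 ⊕ Fin k) (Fin 2) K) hA1' hA2'
  refine ⟨P * reindex e e Z1 * P⁻¹, P * reindex e e Z2 * P⁻¹, ?_, ?_, ?_⟩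
  · rw [zd_conj hPu, charpoly_reindex, hZ1, hA1, hS1]
    ring
  · rw [zd_conj hPu, charpoly_reindex, hZ2, hA2, hS2]
    ring
  · have h1 : M * P = P * (reindex e e Z1 * reindex e e Z2) := by
      rw [hMP, reindex_apply, reindex_apply, reindex_apply, submatrix_mul_equiv, ← hZ, ← hS]
    have h2 : P * reindex e e Z1 * P⁻¹ * (P * reindex e e Z2 * P⁻¹) = P * (reindex e e Z1 * reindex e e Z2) * P⁻¹ := by
      simp only [Matrix.mul_assoc]
      rw [← Matrix.mul_assoc P⁻¹ P, Matrix.nonsing_inv_mul P hPu, Matrix.one_mul]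
    rw [h2, ← h1, Matrix.mul_assoc, Matrix.mul_nonsing_inv P hPu, Matrix.mul_one]
-- END zd

end ThL
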