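import Pool.Agent.ThL.Bl
import Pool.Agent.ThL.Exc

/-! # `PSL_n(K)`, at least three elements -/

namespace ThL
open Polynomial Module Matrix

variable {K : Type*} [Field K]

-- BEGIN wa
private theorem wa_mk {ι : Type*} [Fintype ι] [DecidableEq ι] {n : ℕ} (hc : Fintype.card ι = n) {W : Matrix ι ι K} (hd : W.det = 1) {c : K}
    (hr : Rv c W) {l : K} {f : K[X]} (hm : f.Monic) (hch : W.charpoly = (X - C l) * f) (hs : Squarefree ((X - C l) * f)) :
    ∃ w : SpecialLinearGroup (Fin n) K, WOK w l f := by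
  have e : ι ≃ Fin n := Fintype.equivFinOfCardEq hc
  refine ⟨⟨Matrix.reindex e e W, by rw [Matrix.det_reindex_self, hd]⟩, hm, ?_, ?_, c, hr.reindex e⟩
  · show (Matrix.reindex e e W).charpoly = _
    rw [Matrix.charpoly_reindex, hch]
  · show Squarefree (Matrix.reindex e e W).charpoly
    rw [Matrix.charpoly_reindex, hch]
    exact hs

private theorem wa_sq1 (a : K) {g : K[X]} (hi : Irreducible g) (hdeg : g.natDegree ≠ 1) : Squarefree ((X - C a) * g) := by
  rw [squarefree_mul_iff]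
  refine ⟨?_, (irreducible_X_sub_C a).squarefree, hi.squarefree⟩
  rw [(irreducible_X_sub_C a).isRelPrime_iff_not_dvd, dvd_iff_isRoot]
  exact hi.not_isRoot_of_natDegree_ne_one hdeg

private theorem wa_sq2 {a b : K} (hab : a ≠ b) {g : K[X]} (hi : Irreducible g) (hdeg : g.natDegree ≠ 1) :
    Squarefree ((X - C a) * ((X - C b) * g)) := by
  rw [squarefree_mul_iff]
  refine ⟨?_, (irreducible_X_sub_C a).squarefree, wa_sq1 b hi hdeg⟩
  rw [(irreducible_X_sub_C a).isRelPrime_iff_not_dvd, dvd_iff_isRoot]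
  intro h
  rcases root_mul.1 h with h | h
  · rw [root_X_sub_C] at h
    exact hab h.symm
  · exact hi.not_isRoot_of_natDegree_ne_one hdeg h

private theorem wa_deg {m : ℕ} (_ : 0 < m) (B : Matrix (Fin (2 * m)) (Fin (2 * m)) K) : B.charpoly.natDegree ≠ 1 := by
  rw [Matrix.charpoly_natDegree_eq_dim, Fintype.card_fin]
  omega

/-- MODULE wa. `w = reindex (fromBlocks 1 0 0 B)`, `B` from `ex_B` (`2 m = n - 1`); `l = 1`, `f = B.charpoly`, irreducible of degree `≥ 2`, so `(X - 1) f` is squarefree (coprime squarefree factors: `f` has no root). -/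
theorem w_odd [Finite K] {n : ℕ} (hn : 3 ≤ n) (ho : ¬ 2 ∣ n) :
    ∃ (w : SpecialLinearGroup (Fin n) K) (l : K) (f : K[X]), WOK w l f := by
  obtain ⟨m, hm, rfl⟩ : ∃ m, 0 < m ∧ n = 1 + 2 * m := ⟨(n - 1) / 2, by omega, by omega⟩
  obtain ⟨B, hi, hd, hr⟩ := ex_B (K := K) hm
  have h1 : Rv (1 : K) (1 : Matrix (Fin 1) (Fin 1) K) := ⟨1, by simp, by simp⟩
  obtain ⟨w, hw⟩ := wa_mk (K := K) (ι := Fin 1 ⊕ Fin (2 * m)) (n := 1 + 2 * m) (by simp) (W := fromBlocks 1 0 0 B)
    (by rw [Matrix.det_fromBlocks_zero₁₂, Matrix.det_one, hd, one_mul]) (h1.sum hr) (l := 1) (f := B.charpoly) (Matrix.charpoly_monic B)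
    (by rw [Matrix.charpoly_fromBlocks_zero₁₂, Matrix.charpoly_one, Fintype.card_fin, pow_one, C_1]) (wa_sq1 1 hi (wa_deg hm B))
  exact ⟨w, 1, B.charpoly, hw⟩
-- END wa

-- BEGIN wb
private theorem wb_r [Finite K] (hK : 4 ≤ Nat.card K) : ∃ r : K, r ≠ 0 ∧ r ≠ r⁻¹ := by
  classical
  have := Fintype.ofFinite K
  by_contra h
  push Not at h
  have h1 : (Finset.univ : Finset K) ⊆ {0, 1, -1} := by
    intro x _
    by_cases hx : x = 0
    · simp [hx]
    · have h2 := h x hx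
      have h3 : x * x = 1 := by
        nth_rewrite 2 [h2]
        exact mul_inv_cancel₀ hx
      rcases mul_self_eq_one_iff.1 h3 with h4 | h4
      · simp [h4]
      · simp [h4]
  have h2 := Finset.card_le_card h1
  rw [Finset.card_univ, ← Nat.card_eq_fintype_card] at h2
  have h3 := Finset.card_le_three (a := (0 : K)) (b := 1) (c := -1)
  omega

/-- MODULE wb. `r ≠ 0, 1, -1`; `w = reindex (fromBlocks !![r, 0; 0, r⁻¹] 0 0 B)`, `B` from `ex_B` (`2 m = n - 2`); `l = r`, `f = (X - r⁻¹) B.charpoly`. -/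
theorem w_even [Finite K] (hK : 4 ≤ Nat.card K) {n : ℕ} (hn : 3 ≤ n) (he : 2 ∣ n) :
    ∃ (w : SpecialLinearGroup (Fin n) K) (l : K) (f : K[X]), WOK w l f := by
  obtain ⟨m, hm, rfl⟩ : ∃ m, 0 < m ∧ n = 2 + 2 * m := ⟨(n - 2) / 2, by omega, by omega⟩
  obtain ⟨B, hi, hd, hB⟩ := ex_B (K := K) hm
  obtain ⟨r, hr, hr1⟩ := wb_r hK
  obtain ⟨c1, c2, c3⟩ := D2_facts hr
  obtain ⟨w, hw⟩ := wa_mk (K := K) (ι := Fin 2 ⊕ Fin (2 * m)) (n := 2 + 2 * m) (by simp) (W := fromBlocks !![r, 0; 0, r⁻¹] 0 0 B)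
    (by rw [Matrix.det_fromBlocks_zero₁₂, c2, hd, one_mul]) (c3.sum hB) (l := r) (f := (X - C r⁻¹) * B.charpoly)
    ((monic_X_sub_C _).mul (Matrix.charpoly_monic B))
    (by rw [Matrix.charpoly_fromBlocks_zero₁₂, c1, mul_assoc]) (wa_sq2 hr1 hi (wa_deg hm B))
  exact ⟨w, r, _, hw⟩
-- END wb

-- BEGIN wc
/-- MODULE wc. `n ≡ 0 mod 4`: `w = reindex (fromBlocks !![1, 0; 0, -1] 0 0 B)`, `B` from `ex_Bm` (`2 m = n - 2`, `m` odd, `det B = -1`); `l = 1`, `f = (X + 1) B.charpoly`, `c = -1`. -/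
theorem w_four [Finite K] (h2 : (2 : K) ≠ 0) {n : ℕ} (hn : 3 ≤ n) (h4 : 4 ∣ n) :
    ∃ (w : SpecialLinearGroup (Fin n) K) (l : K) (f : K[X]), WOK w l f := by
  obtain ⟨m, hm, ho, rfl⟩ : ∃ m, 0 < m ∧ ¬ 2 ∣ m ∧ n = 2 + 2 * m := ⟨(n - 2) / 2, by omega, by omega, by omega⟩
  obtain ⟨B, hi, hd, hB⟩ := ex_Bm h2 hm
  obtain ⟨c1, c2, c3⟩ := E2_facts (K := K)
  have hm1 : (-1 : K) ^ m = -1 := Odd.neg_one_pow (Nat.not_even_iff_odd.1 fun h => ho h.two_dvd)
  have h1 : (1 : K) ≠ -1 := by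
    intro h
    apply h2
    linear_combination h
  have hx : (X : K[X]) + 1 = X - C (-1) := by
    rw [C_neg, C_1, sub_neg_eq_add]
  rw [hx] at c1
  obtain ⟨w, hw⟩ := wa_mk (K := K) (ι := Fin 2 ⊕ Fin (2 * m)) (n := 2 + 2 * m) (by simp) (W := fromBlocks !![1, 0; 0, -1] 0 0 B)
    (by rw [Matrix.det_fromBlocks_zero₁₂, c2, hd, hm1, neg_mul_neg, one_mul]) (c3.sum hB) (l := 1) (f := (X - C (-1)) * B.charpoly)
    ((monic_X_sub_C _).mul (Matrix.charpoly_monic B))
    (by rw [Matrix.charpoly_fromBlocks_zero₁₂, c1, mul_assoc]) (wa_sq2 h1 hi (wa_deg hm B))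
  exact ⟨w, 1, _, hw⟩
-- END wc

-- BEGIN wd
private theorem wd_three [Finite K] (hK : Nat.card K = 3) :
    (∀ x : K, x = 0 ∨ x = 1 ∨ x = -1) ∧ (2 : K) ≠ 0 := by
  have := Fintype.ofFinite K
  have hc : Fintype.card K = 3 := by rw [← Nat.card_eq_fintype_card, hK]
  have h3 : (3 : K) = 0 := by
    have h1 : ((Fintype.card K : ℕ) : K) = 0 := FiniteField.cast_card_eq_zero K
    rw [hc] at h1
    exact_mod_cast h1
  constructor
  · intro x
    have h1 := FiniteField.pow_card x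
    rw [hc] at h1
    have h2 : x * ((x - 1) * (x + 1)) = 0 := by linear_combination h1
    rcases mul_eq_zero.1 h2 with h | h
    · exact Or.inl h
    · rcases mul_eq_zero.1 h with h | h
      · exact Or.inr (Or.inl (sub_eq_zero.1 h))
      · exact Or.inr (Or.inr (eq_neg_of_add_eq_zero_left h))
  · intro h
    have h1 : (1 : K) = 0 := by linear_combination h3 - h
    exact one_ne_zero h1

private theorem wd_cop {p q : K[X]} (hp : Irreducible p) (hq : Irreducible q)
    (h : p.natDegree ≠ q.natDegree) : IsCoprime p q := by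
  rw [Irreducible.coprime_iff_not_dvd hp]
  intro h1
  have h2 := hp.associated_of_dvd hq h1
  exact h (natDegree_eq_of_degree_eq (degree_eq_degree_of_associated h2))

private theorem wd_irr [Finite K] (hK : Nat.card K = 3) : Irreducible (X ^ 2 + 1 : K[X]) := by
  have hd : (X ^ 2 + 1 : K[X]).natDegree = 2 := by compute_degree!
  have hm : (X ^ 2 + 1 : K[X]).Monic := by monicity!
  rw [hm.irreducible_iff_roots_eq_zero_of_degree_le_three (by rw [hd]) (by rw [hd]; norm_num)]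
  refine Multiset.eq_zero_of_forall_notMem fun x hx => ?_
  have h1 := (mem_roots'.1 hx).2
  rw [IsRoot.def, eval_add, eval_pow, eval_X, eval_one] at h1
  rcases (wd_three hK).1 x with h | h | h
  · rw [h] at h1
    exact one_ne_zero (by linear_combination h1 : (1 : K) = 0)
  · rw [h] at h1
    exact (wd_three hK).2 (by linear_combination h1)
  · rw [h] at h1
    exact (wd_three hK).2 (by linear_combination h1)

/-- MODULE wd. `n ≡ 2 mod 4`, `n ≥ 6`: `w = reindex (fromBlocks !![1, 0; 0, -1] 0 0 (fromBlocks (C4 K) 0 0 B))`, `B` from `ex_Bm` (`2 m = n - 4`, `m` odd, `det B = -1`, so `B.charpoly ≠ X ^ 2 + 1`);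
`l = 1`, `p = X ^ 2 + 1`, `f' = (X + 1) B.charpoly`, `c = -1`. `X ^ 2 + 1` is irreducible over the field with three elements. -/
theorem w_two_mod_four [Finite K] (hK : Nat.card K = 3) {n : ℕ} (hn : 3 ≤ n) (h2 : 2 ∣ n) (h4 : ¬ 4 ∣ n) :
    ∃ (w : SpecialLinearGroup (Fin n) K) (f' : K[X]), f'.Monic ∧ WOK w 1 ((X ^ 2 + 1) * f') := by
  obtain ⟨q, hq, rfl⟩ : ∃ q, 1 ≤ q ∧ n = 4 * q + 2 := ⟨n / 4, by omega, by omega⟩
  have h2 := (wd_three hK).2
  obtain ⟨B, hB, hBd, hBr⟩ := ex_Bm (K := K) h2 (m := 2 * q - 1) (by omega)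
  obtain ⟨e⟩ : Nonempty (Fin 2 ⊕ (Fin 2 ⊕ Fin (2 * (2 * q - 1))) ≃ Fin (4 * q + 2)) :=
    ⟨Fintype.equivFinOfCardEq (by
      rw [Fintype.card_sum, Fintype.card_sum, Fintype.card_fin, Fintype.card_fin]
      omega)⟩
  have hBd' : B.det = -1 := by
    rw [hBd]
    have h5 : 2 * q - 1 = 2 * (q - 1) + 1 := by omega
    rw [h5, pow_succ, pow_mul, neg_one_sq, one_pow, one_mul]
  obtain ⟨W, hW⟩ : ∃ W : Matrix (Fin (4 * q + 2)) (Fin (4 * q + 2)) K, W = Matrix.reindex e e
    (fromBlocks (!![1, 0; 0, -1] : Matrix (Fin 2) (Fin 2) K) 0 0 (fromBlocks (C4 K) 0 0 B)) := ⟨_, rfl⟩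
  have hdet : W.det = 1 := by
    rw [hW, det_reindex_self, det_fromBlocks_zero₂₁, det_fromBlocks_zero₂₁, (E2_facts (K := K)).2.1,
      (C4_facts (K := K)).2.1, hBd']
    ring
  have hch : W.charpoly = (X - C 1) * ((X ^ 2 + 1) * ((X + 1) * B.charpoly)) := by
    rw [hW, charpoly_reindex, charpoly_fromBlocks_zero₂₁, charpoly_fromBlocks_zero₂₁, (E2_facts (K := K)).1,
      (C4_facts (K := K)).1]
    ring
  have hBdeg : B.charpoly.natDegree = 2 * (2 * q - 1) := by
    rw [charpoly_natDegree_eq_dim, Fintype.card_fin]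
  have hp := wd_irr hK
  have hpd : (X ^ 2 + 1 : K[X]).natDegree = 2 := by compute_degree!
  have hm2 : (X ^ 2 + 1 : K[X]).Monic := by monicity!
  have i1 : Irreducible (X - C 1 : K[X]) := irreducible_X_sub_C 1
  have i2 : Irreducible (X + 1 : K[X]) := by
    have h5 : (X + 1 : K[X]) = X - C (-1) := by
      rw [C_neg, C_1, sub_neg_eq_add]
    rw [h5]
    exact irreducible_X_sub_C (-1)
  have d1 : (X - C 1 : K[X]).natDegree = 1 := natDegree_X_sub_C 1
  have d2 : (X + 1 : K[X]).natDegree = 1 := by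
    have h5 : (X + 1 : K[X]) = X + C 1 := by rw [C_1]
    rw [h5]
    exact natDegree_X_add_C 1
  have c12 : IsCoprime (X - C 1 : K[X]) (X + 1) := by
    have h5 : (X + 1 : K[X]) = X - C (-1) := by
      rw [C_neg, C_1, sub_neg_eq_add]
    rw [h5]
    refine isCoprime_X_sub_C_of_isUnit_sub ?_
    rw [sub_neg_eq_add, one_add_one_eq_two]
    exact h2.isUnit
  have c1p : IsCoprime (X - C 1 : K[X]) (X ^ 2 + 1) := wd_cop i1 hp (by rw [d1, hpd]; norm_num)
  have c1B : IsCoprime (X - C 1 : K[X]) B.charpoly := wd_cop i1 hB (by rw [d1, hBdeg]; omega)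
  have cp2 : IsCoprime (X ^ 2 + 1 : K[X]) (X + 1) := wd_cop hp i2 (by rw [d2, hpd]; norm_num)
  have cpB : IsCoprime (X ^ 2 + 1 : K[X]) B.charpoly := by
    rw [Irreducible.coprime_iff_not_dvd hp]
    intro h6
    have h7 : (X ^ 2 + 1 : K[X]) = B.charpoly :=
      eq_of_monic_of_associated hm2 (charpoly_monic B) (hp.associated_of_dvd hB h6)
    have h8 := Matrix.det_eq_sign_charpoly_coeff B
    rw [hBd', ← h7, Fintype.card_fin, pow_mul, neg_one_sq, one_pow, one_mul] at h8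
    have h9 : (X ^ 2 + 1 : K[X]).coeff 0 = 1 := by simp
    rw [h9] at h8
    exact h2 (by linear_combination -h8)
  have c2B : IsCoprime (X + 1 : K[X]) B.charpoly := wd_cop i2 hB (by rw [d2, hBdeg]; omega)
  have hsq : Squarefree ((X - C 1) * ((X ^ 2 + 1) * ((X + 1) * B.charpoly)) : K[X]) := by
    rw [squarefree_mul_iff, squarefree_mul_iff, squarefree_mul_iff]
    exact ⟨(c1p.mul_right (c12.mul_right c1B)).isRelPrime, i1.squarefree,
      (cp2.mul_right cpB).isRelPrime, hp.squarefree, c2B.isRelPrime, i2.squarefree, hB.squarefree⟩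
  have hm1 : (X + 1 : K[X]).Monic := by monicity!
  have hf : ((X + 1) * B.charpoly : K[X]).Monic := hm1.mul (charpoly_monic B)
  refine ⟨⟨W, hdet⟩, (X + 1) * B.charpoly, hf, hm2.mul hf, ?_, ?_, -1, ?_⟩
  · exact hch
  · show Squarefree W.charpoly
    rw [hch]
    exact hsq
  · show Rv (-1) W
    rw [hW]
    exact Rv.reindex e (Rv.sum (E2_facts (K := K)).2.2 (Rv.sum (C4_facts (K := K)).2.2.2 hBr))
-- END wd

-- BEGIN we
private theorem we_three (hK : Nat.card K = 3) : (3 : K) = 0 := by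
  have hf : Finite K := Nat.finite_of_card_ne_zero (by rw [hK]; norm_num)
  have := Fintype.ofFinite K
  have h : (Fintype.card K : K) = 0 := Nat.cast_card_eq_zero K
  rw [← Nat.card_eq_fintype_card, hK] at h
  exact_mod_cast h

private theorem we_two (hK : Nat.card K = 3) : (2 : K) ≠ 0 := by
  intro h2
  have h3 := we_three hK
  exact one_ne_zero (α := K) (by linear_combination h3 - h2)

private theorem we_nd : (X ^ 2 + 1 : K[X]).natDegree = 2 := by
  compute_degree!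

private theorem we_irr (hK : Nat.card K = 3) : Irreducible (X ^ 2 + 1 : K[X]) := by
  apply irreducible_of_degree_le_three_of_not_isRoot
  · rw [we_nd]; simp
  · intro x hx
    have hf : Finite K := Nat.finite_of_card_ne_zero (by rw [hK]; norm_num)
    have := Fintype.ofFinite K
    have hc : x ^ 3 = x := by
      have := FiniteField.pow_card x
      rwa [← Nat.card_eq_fintype_card, hK] at this
    have hx' : x ^ 2 + 1 = 0 := by simpa [IsRoot.def] using hx
    have h2x : 2 * x = 0 := by linear_combination x * hx' - hc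
    have hx0 : x = 0 := (mul_eq_zero.1 h2x).resolve_left (we_two hK)
    rw [hx0] at hx'
    simp at hx'

private theorem we_mk {ι : Type*} [Fintype ι] [DecidableEq ι] {n : ℕ} (e : ι ≃ Fin n) (W : Matrix ι ι K)
    (hd : W.det = 1) {f' : K[X]} (hm : f'.Monic) (hc : W.charpoly = (X - C 1) * ((X ^ 2 + 1) * f'))
    (hs : Squarefree ((X - C 1) * ((X ^ 2 + 1) * f'))) (hR : Rv 1 W) :
    ∃ (w : SpecialLinearGroup (Fin n) K) (f' : K[X]), f'.Monic ∧ WOK w 1 ((X ^ 2 + 1) * f') := by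
  have hm2 : (X ^ 2 + 1 : K[X]).Monic := by
    have := Polynomial.monic_X_pow_add_C (1 : K) (n := 2) (by norm_num)
    simpa using this
  refine ⟨⟨Matrix.reindex e e W, by rw [Matrix.det_reindex_self, hd]⟩, f', hm, hm2.mul hm, ?_, ?_, 1, hR.reindex e⟩
  · change (Matrix.reindex e e W).charpoly = _
    rw [Matrix.charpoly_reindex, hc]
  · change Squarefree (Matrix.reindex e e W).charpoly
    rw [Matrix.charpoly_reindex, hc]
    exact hs

private theorem we_lin : Irreducible (X - C 1 : K[X]) := irreducible_X_sub_C 1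

private theorem we_one : ((1 : Matrix (Fin 1) (Fin 1) K)).charpoly = X - C 1 := by
  rw [Matrix.charpoly_one]; simp

private theorem we_rv : Rv 1 (1 : Matrix (Fin 1) (Fin 1) K) := ⟨1, by simp, by simp⟩

private theorem we_nroot (hK : Nat.card K = 3) : ¬ (X - C 1 : K[X]) ∣ X ^ 2 + 1 := by
  rw [dvd_iff_isRoot]
  intro h
  have : (1 : K) ^ 2 + 1 = 0 := by simpa [IsRoot.def] using h
  exact we_two hK (by linear_combination this)

/-- MODULE we. `n` odd, `3 ∣ n`: `n = 3`: `w = reindex (fromBlocks 1 0 0 (C4 K))`, `f' = 1`; `n ≥ 9`: `w = reindex (fromBlocks 1 0 0 (fromBlocks (C4 K) 0 0 B))`, `B` from `ex_B` (`2 m = n - 3 ≥ 6`), `f' = B.charpoly`; `c = 1`. -/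
theorem w_exc_odd [Finite K] (hK : Nat.card K = 3) {n : ℕ} (hn : 3 ≤ n) (h3 : 3 ∣ n) (h2 : ¬ 2 ∣ n) :
    ∃ (w : SpecialLinearGroup (Fin n) K) (f' : K[X]), f'.Monic ∧ WOK w 1 ((X ^ 2 + 1) * f') := by
  obtain ⟨hC1, hC2, hC3, -⟩ := C4_facts (K := K)
  by_cases h9 : n = 3
  · subst h9
    refine we_mk (finSumFinEquiv (m := 1) (n := 2)) (fromBlocks (1 : Matrix (Fin 1) (Fin 1) K) 0 0 (C4 K)) ?_
      (f' := 1) monic_one ?_ ?_ (we_rv.sum hC3)
    · rw [Matrix.det_fromBlocks_zero₂₁, hC2]; simp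
    · rw [Matrix.charpoly_fromBlocks_zero₂₁, hC1, we_one, mul_one]
    · rw [mul_one]
      exact squarefree_mul_iff.mpr ⟨we_lin.isRelPrime_iff_not_dvd.mpr (we_nroot hK), we_lin.squarefree,
        (we_irr hK).squarefree⟩
  · obtain ⟨m, hm⟩ : ∃ m, n = 1 + (2 + 2 * m) := ⟨(n - 3) / 2, by omega⟩
    have hm3 : 3 ≤ m := by omega
    subst hm
    obtain ⟨B, hB1, hB2, hB3⟩ := ex_B (K := K) (m := m) (by omega)
    have hBd : B.charpoly.natDegree = 2 * m := by rw [Matrix.charpoly_natDegree_eq_dim, Fintype.card_fin]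
    have hnl : ¬ (X - C 1 : K[X]) ∣ B.charpoly := by
      rw [dvd_iff_isRoot]
      intro h
      have h1 := degree_eq_one_of_irreducible_of_root hB1 h
      have h5 : B.charpoly.natDegree = 1 := natDegree_eq_of_degree_eq_some h1
      omega
    have hn2 : ¬ (X ^ 2 + 1 : K[X]) ∣ B.charpoly := by
      intro h
      have h1 := ((we_irr hK).associated_of_dvd hB1 h)
      have h5 := natDegree_eq_of_degree_eq (degree_eq_degree_of_associated h1)
      rw [we_nd] at h5
      omega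
    refine we_mk ((Equiv.sumCongr (Equiv.refl (Fin 1)) (finSumFinEquiv (m := 2) (n := 2 * m))).trans
        (finSumFinEquiv (m := 1) (n := 2 + 2 * m)))
      (fromBlocks (1 : Matrix (Fin 1) (Fin 1) K) 0 0 (fromBlocks (C4 K) 0 0 B)) ?_
      (f' := B.charpoly) (Matrix.charpoly_monic B) ?_ ?_ (we_rv.sum (hC3.sum hB3))
    · rw [Matrix.det_fromBlocks_zero₂₁, Matrix.det_fromBlocks_zero₂₁, hC2, hB2]; simp
    · rw [Matrix.charpoly_fromBlocks_zero₂₁, Matrix.charpoly_fromBlocks_zero₂₁, hC1, we_one]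
    · refine squarefree_mul_iff.mpr ⟨we_lin.isRelPrime_iff_not_dvd.mpr ?_, we_lin.squarefree,
        squarefree_mul_iff.mpr ⟨(we_irr hK).isRelPrime_iff_not_dvd.mpr hn2, (we_irr hK).squarefree, hB1.squarefree⟩⟩
      intro h
      rcases we_lin.prime.dvd_or_dvd h with h | h
      · exact we_nroot hK h
      · exact hnl h
-- END we

-- BEGIN wf
private theorem wf_three [Finite K] (hK : Nat.card K = 3) :
    (∀ x : K, x = 0 ∨ x = 1 ∨ x = -1) ∧ (2 : K) ≠ 0 := by
  have := Fintype.ofFinite K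
  have hc : Fintype.card K = 3 := by rw [← Nat.card_eq_fintype_card, hK]
  have h3 : (3 : K) = 0 := by
    have h1 : ((Fintype.card K : ℕ) : K) = 0 := FiniteField.cast_card_eq_zero K
    rw [hc] at h1
    exact_mod_cast h1
  constructor
  · intro x
    have h1 := FiniteField.pow_card x
    rw [hc] at h1
    have h2 : x * ((x - 1) * (x + 1)) = 0 := by linear_combination h1
    rcases mul_eq_zero.1 h2 with h | h
    · exact Or.inl h
    · rcases mul_eq_zero.1 h with h | h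
      · exact Or.inr (Or.inl (sub_eq_zero.1 h))
      · exact Or.inr (Or.inr (eq_neg_of_add_eq_zero_left h))
  · intro h
    have h1 : (1 : K) = 0 := by linear_combination h3 - h
    exact one_ne_zero h1

private theorem wf_cop {p q : K[X]} (hp : Irreducible p) (hq : Irreducible q)
    (h : p.natDegree ≠ q.natDegree) : IsCoprime p q := by
  rw [Irreducible.coprime_iff_not_dvd hp]
  intro h1
  have h2 := hp.associated_of_dvd hq h1
  exact h (natDegree_eq_of_degree_eq (degree_eq_degree_of_associated h2))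

private theorem wf_irr [Finite K] (hK : Nat.card K = 3) : Irreducible (X ^ 2 + X - 1 : K[X]) := by
  have hd : (X ^ 2 + X - 1 : K[X]).natDegree = 2 := by compute_degree!
  have hm : (X ^ 2 + X - 1 : K[X]).Monic := by monicity!
  rw [hm.irreducible_iff_roots_eq_zero_of_degree_le_three (by rw [hd]) (by rw [hd]; norm_num)]
  refine Multiset.eq_zero_of_forall_notMem fun x hx => ?_
  have h1 := (mem_roots'.1 hx).2
  rw [IsRoot.def, eval_sub, eval_add, eval_pow, eval_X, eval_one] at h1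
  rcases (wf_three hK).1 x with h | h | h
  · rw [h] at h1
    exact one_ne_zero (by linear_combination -h1 : (1 : K) = 0)
  · rw [h] at h1
    exact one_ne_zero (by linear_combination h1 : (1 : K) = 0)
  · rw [h] at h1
    exact one_ne_zero (by linear_combination -h1 : (1 : K) = 0)

/-- MODULE wf. `12 ∣ n`: `w = reindex (fromBlocks !![1, 0; 0, -1] 0 0 (fromBlocks (C8 K) 0 0 B))`, `B` from `ex_Bm` (`2 m = n - 4 ≥ 8`, `m` even, `det B = 1`); `f' = (X + 1) B.charpoly`, `c = -1`. -/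
theorem w_exc_four [Finite K] (hK : Nat.card K = 3) {n : ℕ} (hn : 3 ≤ n) (h3 : 3 ∣ n) (h4 : 4 ∣ n) :
    ∃ (w : SpecialLinearGroup (Fin n) K) (f' : K[X]), f'.Monic ∧ WOK w 1 ((X ^ 2 + X - 1) * f') := by
  obtain ⟨q, rfl⟩ := h4
  have hq : 3 ≤ q := by omega
  have h2 := (wf_three hK).2
  obtain ⟨B, hB, hBd, hBr⟩ := ex_Bm (K := K) h2 (m := 2 * q - 2) (by omega)
  obtain ⟨e⟩ : Nonempty (Fin 2 ⊕ (Fin 2 ⊕ Fin (2 * (2 * q - 2))) ≃ Fin (4 * q)) :=
    ⟨Fintype.equivFinOfCardEq (by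
      rw [Fintype.card_sum, Fintype.card_sum, Fintype.card_fin, Fintype.card_fin]
      omega)⟩
  obtain ⟨W, hW⟩ : ∃ W : Matrix (Fin (4 * q)) (Fin (4 * q)) K, W = Matrix.reindex e e
    (fromBlocks (!![1, 0; 0, -1] : Matrix (Fin 2) (Fin 2) K) 0 0 (fromBlocks (C8 K) 0 0 B)) := ⟨_, rfl⟩
  have hdet : W.det = 1 := by
    rw [hW, det_reindex_self, det_fromBlocks_zero₂₁, det_fromBlocks_zero₂₁, (E2_facts (K := K)).2.1,
      (C8_facts (K := K)).2.1, hBd]
    have h5 : 2 * q - 2 = 2 * (q - 1) := by omega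
    rw [h5, pow_mul, neg_one_sq, one_pow]
    ring
  have hch : W.charpoly = (X - C 1) * ((X ^ 2 + X - 1) * ((X + 1) * B.charpoly)) := by
    rw [hW, charpoly_reindex, charpoly_fromBlocks_zero₂₁, charpoly_fromBlocks_zero₂₁, (E2_facts (K := K)).1,
      (C8_facts (K := K)).1]
    ring
  have hBdeg : B.charpoly.natDegree = 2 * (2 * q - 2) := by
    rw [charpoly_natDegree_eq_dim, Fintype.card_fin]
  have hp := wf_irr hK
  have hpd : (X ^ 2 + X - 1 : K[X]).natDegree = 2 := by compute_degree!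
  have i1 : Irreducible (X - C 1 : K[X]) := irreducible_X_sub_C 1
  have i2 : Irreducible (X + 1 : K[X]) := by
    have h5 : (X + 1 : K[X]) = X - C (-1) := by
      rw [C_neg, C_1, sub_neg_eq_add]
    rw [h5]
    exact irreducible_X_sub_C (-1)
  have d1 : (X - C 1 : K[X]).natDegree = 1 := natDegree_X_sub_C 1
  have d2 : (X + 1 : K[X]).natDegree = 1 := by
    have h5 : (X + 1 : K[X]) = X + C 1 := by rw [C_1]
    rw [h5]
    exact natDegree_X_add_C 1
  have c12 : IsCoprime (X - C 1 : K[X]) (X + 1) := by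
    have h5 : (X + 1 : K[X]) = X - C (-1) := by
      rw [C_neg, C_1, sub_neg_eq_add]
    rw [h5]
    refine isCoprime_X_sub_C_of_isUnit_sub ?_
    rw [sub_neg_eq_add, one_add_one_eq_two]
    exact h2.isUnit
  have c1p : IsCoprime (X - C 1 : K[X]) (X ^ 2 + X - 1) := wf_cop i1 hp (by rw [d1, hpd]; norm_num)
  have c1B : IsCoprime (X - C 1 : K[X]) B.charpoly := wf_cop i1 hB (by rw [d1, hBdeg]; omega)
  have cp2 : IsCoprime (X ^ 2 + X - 1 : K[X]) (X + 1) := wf_cop hp i2 (by rw [d2, hpd]; norm_num)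
  have cpB : IsCoprime (X ^ 2 + X - 1 : K[X]) B.charpoly := wf_cop hp hB (by rw [hpd, hBdeg]; omega)
  have c2B : IsCoprime (X + 1 : K[X]) B.charpoly := wf_cop i2 hB (by rw [d2, hBdeg]; omega)
  have hsq : Squarefree ((X - C 1) * ((X ^ 2 + X - 1) * ((X + 1) * B.charpoly)) : K[X]) := by
    rw [squarefree_mul_iff, squarefree_mul_iff, squarefree_mul_iff]
    exact ⟨(c1p.mul_right (c12.mul_right c1B)).isRelPrime, i1.squarefree,
      (cp2.mul_right cpB).isRelPrime, hp.squarefree, c2B.isRelPrime, i2.squarefree, hB.squarefree⟩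
  have hm1 : (X + 1 : K[X]).Monic := by monicity!
  have hm2 : (X ^ 2 + X - 1 : K[X]).Monic := by monicity!
  have hf : ((X + 1) * B.charpoly : K[X]).Monic := hm1.mul (charpoly_monic B)
  refine ⟨⟨W, hdet⟩, (X + 1) * B.charpoly, hf, hm2.mul hf, ?_, ?_, -1, ?_⟩
  · exact hch
  · show Squarefree W.charpoly
    rw [hch]
    exact hsq
  · show Rv (-1) W
    rw [hW]
    exact Rv.reindex e (Rv.sum (E2_facts (K := K)).2.2 (Rv.sum (C8_facts (K := K)).2.2 hBr))
-- END wf

/-- the constant term of `f` -/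
theorem WOK.det {n : ℕ} {w : SpecialLinearGroup (Fin n) K} {l : K} {f : K[X]} (h : WOK w l f) :
    f.natDegree + 1 = n ∧ l * l * (f.coeff 0 * f.coeff 0) = 1 := by
  obtain ⟨hm, hw, -, -⟩ := h
  have hn : f.natDegree + 1 = n := by
    have h1 : w.1.charpoly.natDegree = Fintype.card (Fin n) := Matrix.charpoly_natDegree_eq_dim w.1
    rw [hw, Polynomial.natDegree_mul (Polynomial.X_sub_C_ne_zero l) hm.ne_zero, Polynomial.natDegree_X_sub_C,
      Fintype.card_fin] at h1
    omega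
  refine ⟨hn, ?_⟩
  have h1 := Matrix.det_eq_sign_charpoly_coeff w.1
  rw [w.2, hw, Polynomial.mul_coeff_zero, Polynomial.coeff_sub, Polynomial.coeff_X_zero, Polynomial.coeff_C_zero,
    zero_sub] at h1
  have h2 : ((-1 : K) ^ Fintype.card (Fin n)) * (-1 : K) ^ Fintype.card (Fin n) = 1 := by
    rw [← mul_pow]
    simp
  calc l * l * (f.coeff 0 * f.coeff 0)
      = (((-1 : K) ^ Fintype.card (Fin n)) * (-1 : K) ^ Fintype.card (Fin n)) * (-l * f.coeff 0) * (-l * f.coeff 0) := by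
        rw [h2]; ring
    _ = ((-1 : K) ^ Fintype.card (Fin n) * (-l * f.coeff 0)) * ((-1 : K) ^ Fintype.card (Fin n) * (-l * f.coeff 0)) := by ring
    _ = 1 := by rw [← h1, mul_one]

theorem ex_d (hK : 3 ≤ Nat.card K) [Finite K] : ∃ d : K, d ≠ 0 ∧ d ≠ 1 := by
  classical
  have := Fintype.ofFinite K
  by_contra h
  push Not at h
  have h1 : (Finset.univ : Finset K) ⊆ {0, 1} := by
    intro x _
    by_cases hx : x = 0
    · simp [hx]
    · simp [h x hx]
  have h2 := Finset.card_le_card h1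
  rw [Finset.card_univ, ← Nat.card_eq_fintype_card] at h2
  have h3 := Finset.card_le_two (a := (0 : K)) (b := 1)
  omega

/-- the generic case -/
theorem csq_gen [Finite K] (hK : 3 ≤ Nat.card K) {n : ℕ} (h3 : ¬ 3 ∣ n ∨ 4 ≤ Nat.card K)
    {w : SpecialLinearGroup (Fin n) K} {l : K} {f : K[X]} (hw : WOK w l f) :
    ThC.CSq (SpecialLinearGroup (Fin n) K ⧸ Subgroup.center (SpecialLinearGroup (Fin n) K)) := by
  obtain ⟨hn, hdet⟩ := hw.det
  refine csq_of hw fun M hM hs => ?_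
  obtain ⟨Z1, Z2, c1, c2, h⟩ := ThPL.prodM (ex_d hK) h3 M hs hw.1 hw.1 hn hn (by rw [hM]; exact hdet)
    (by rw [hM]; exact one_ne_zero)
  exact ⟨Z1, Z2, by rw [c1, hw.2.1], by rw [c2, hw.2.1], h⟩

/-- the exceptional case `|K| = 3`, `3 ∣ n` -/
theorem csq_exc [Finite K] (hK : Nat.card K = 3) {n : ℕ} (h3 : 3 ∣ n) {p f' : K[X]}
    (hp : p = X ^ 2 + 1 ∨ p = X ^ 2 + X - 1) (hm : f'.Monic)
    {w : SpecialLinearGroup (Fin n) K} (hw : WOK w 1 (p * f')) :
    ThC.CSq (SpecialLinearGroup (Fin n) K ⧸ Subgroup.center (SpecialLinearGroup (Fin n) K)) := by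
  obtain ⟨hn, hdet⟩ := hw.det
  have hpm : p.natDegree = 2 ∧ p.Monic ∧ p.coeff 0 * p.coeff 0 = 1 := by
    rcases hp with rfl | rfl
    · refine ⟨by compute_degree!, by monicity!, by simp⟩
    · refine ⟨by compute_degree!, by monicity!, by simp⟩
  have hdeg : f'.natDegree + 3 = n := by
    rw [hpm.2.1.natDegree_mul hm, hpm.1] at hn
    omega
  have h0 : f'.coeff 0 * f'.coeff 0 = 1 := by
    rw [Polynomial.mul_coeff_zero] at hdet
    linear_combination hdet - f'.coeff 0 * f'.coeff 0 * hpm.2.2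
  refine csq_of hw fun M hM hs => ?_
  by_cases hx : Irreducible (minpoly K M) ∧ (minpoly K M).natDegree = 3
  · obtain ⟨Z1, Z2, c1, c2, h⟩ := exc3 hK h3 M hx.1 hx.2 hM hp hm hdeg h0
    exact ⟨Z1, Z2, by rw [c1, hw.2.1], by rw [c2, hw.2.1], h⟩
  · obtain ⟨Z1, Z2, c1, c2, h⟩ := prodM_exc (ex_d (by omega)) M hx hs hw.1 hw.1 hn hn (by rw [hM]; exact hdet)
      (by rw [hM]; exact one_ne_zero)
    exact ⟨Z1, Z2, by rw [c1, hw.2.1], by rw [c2, hw.2.1], h⟩

theorem two_ne (hK : Nat.card K = 3) [Finite K] : (2 : K) ≠ 0 := by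
  intro h
  have h3 : (3 : K) = 0 := by
    have := Fintype.ofFinite K
    have h1 : ((Fintype.card K : ℕ) : K) = 0 := FiniteField.cast_card_eq_zero K
    rw [← Nat.card_eq_fintype_card, hK] at h1
    exact_mod_cast h1
  have : (1 : K) = 0 := by linear_combination h3 - h
  exact one_ne_zero this

/-- Thompson's conjecture for `PSL_n(K)`, `n ≥ 3`, at least three elements -/
theorem sl_three [Finite K] (hK : 3 ≤ Nat.card K) {n : ℕ} (hn : 3 ≤ n) :
    ThC.CSq (SpecialLinearGroup (Fin n) K ⧸ Subgroup.center (SpecialLinearGroup (Fin n) K)) := by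
  by_cases h4 : 4 ≤ Nat.card K
  · by_cases he : 2 ∣ n
    · obtain ⟨w, l, f, hw⟩ := w_even h4 hn he
      exact csq_gen hK (Or.inr h4) hw
    · obtain ⟨w, l, f, hw⟩ := w_odd (K := K) hn he
      exact csq_gen hK (Or.inr h4) hw
  · have hK3 : Nat.card K = 3 := by omega
    by_cases h3 : 3 ∣ n
    · by_cases he : 2 ∣ n
      · by_cases h4 : 4 ∣ n
        · obtain ⟨w, f', hm, hw⟩ := w_exc_four hK3 hn h3 h4
          exact csq_exc hK3 h3 (Or.inr rfl) hm hw
        · obtain ⟨w, f', hm, hw⟩ := w_two_mod_four hK3 hn he h4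
          exact csq_exc hK3 h3 (Or.inl rfl) hm hw
      · obtain ⟨w, f', hm, hw⟩ := w_exc_odd hK3 hn h3 he
        exact csq_exc hK3 h3 (Or.inl rfl) hm hw
    · by_cases he : 2 ∣ n
      · by_cases h4 : 4 ∣ n
        · obtain ⟨w, l, f, hw⟩ := w_four (two_ne hK3) hn h4
          exact csq_gen hK (Or.inl h3) hw
        · obtain ⟨w, f', hm, hw⟩ := w_two_mod_four hK3 hn he h4
          exact csq_gen hK (Or.inl h3) hw
      · obtain ⟨w, l, f, hw⟩ := w_odd (K := K) hn he
        exact csq_gen hK (Or.inl h3) hw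

end ThL
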