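import Pool.Agent.ThL.Sqf

/-! # Blocks similar to a multiple of their inverse -/

namespace ThL
open Polynomial Module Matrix

variable {K : Type*} [Field K]

-- BEGIN ya
/-- MODULE ya. `P = fromBlocks P1 0 0 P2`. -/
theorem Rv.sum {ι κ : Type*} [Fintype ι] [DecidableEq ι] [Fintype κ] [DecidableEq κ] {c : K}
    {W1 : Matrix ι ι K} {W2 : Matrix κ κ K} (h1 : Rv c W1) (h2 : Rv c W2) :
    Rv c (fromBlocks W1 0 0 W2) := by
  obtain ⟨P1, hP1, e1⟩ := h1
  obtain ⟨P2, hP2, e2⟩ := h2
  refine ⟨fromBlocks P1 0 0 P2, ?_, ?_⟩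
  · rw [det_fromBlocks_zero₂₁]
    exact mul_ne_zero hP1 hP2
  · rw [fromBlocks_multiply, fromBlocks_multiply, fromBlocks_smul]
    simp only [Matrix.mul_zero, Matrix.zero_mul, add_zero, zero_add, smul_zero, e1, e2]

theorem Rv.reindex {ι κ : Type*} [Fintype ι] [DecidableEq ι] [Fintype κ] [DecidableEq κ] {c : K}
    {W : Matrix ι ι K} (e : ι ≃ κ) (h : Rv c W) : Rv c (Matrix.reindex e e W) := by
  obtain ⟨P, hP, e1⟩ := h
  refine ⟨Matrix.reindex e e P, ?_, ?_⟩
  · rw [det_reindex_self]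
    exact hP
  · rw [reindex_apply, reindex_apply, submatrix_mul_equiv, submatrix_mul_equiv, e1]
    rfl

/-- the companion matrix of `X ^ 2 + 1` -/
def C4 (K : Type*) [Field K] : Matrix (Fin 2) (Fin 2) K := !![0, -1; 1, 0]

/-- the companion matrix of `X ^ 2 + X - 1` -/
def C8 (K : Type*) [Field K] : Matrix (Fin 2) (Fin 2) K := !![0, 1; 1, -1]

/-- `P = diag (1, -1)` for `c = 1`, `P = 1` for `c = -1`. -/
theorem C4_facts : (C4 K).charpoly = X ^ 2 + 1 ∧ (C4 K).det = 1 ∧ Rv 1 (C4 K) ∧ Rv (-1) (C4 K) := by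
  refine ⟨?_, ?_, ⟨!![1, 0; 0, -1], ?_, ?_⟩, ⟨1, ?_, ?_⟩⟩
  · rw [charpoly_fin_two, C4, trace_fin_two_of, det_fin_two_of]
    simp
  · rw [C4, det_fin_two_of]
    ring
  · rw [det_fin_two_of]
    simp
  · ext i j
    fin_cases i <;> fin_cases j <;> simp [C4]
  · simp
  · ext i j
    fin_cases i <;> fin_cases j <;> simp [C4]

/-- `P = [1, 0; -1, -1]`. -/
theorem C8_facts : (C8 K).charpoly = X ^ 2 + X - 1 ∧ (C8 K).det = -1 ∧ Rv (-1) (C8 K) := by
  refine ⟨?_, ?_, ⟨!![1, 0; -1, -1], ?_, ?_⟩⟩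
  · rw [charpoly_fin_two, C8, trace_fin_two_of, det_fin_two_of]
    simp
    ring
  · rw [C8, det_fin_two_of]
    ring
  · rw [det_fin_two_of]
    simp
  · ext i j
    fin_cases i <;> fin_cases j <;> simp [C8]

/-- `diag (r, r⁻¹)`, `P = [0, 1; 1, 0]`. -/
theorem D2_facts {r : K} (hr : r ≠ 0) : (!![r, 0; 0, r⁻¹] : Matrix (Fin 2) (Fin 2) K).charpoly = (X - C r) * (X - C r⁻¹) ∧
    (!![r, 0; 0, r⁻¹] : Matrix (Fin 2) (Fin 2) K).det = 1 ∧ Rv 1 (!![r, 0; 0, r⁻¹] : Matrix (Fin 2) (Fin 2) K) := by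
  refine ⟨?_, ?_, ⟨!![0, 1; 1, 0], ?_, ?_⟩⟩
  · rw [charpoly_fin_two, trace_fin_two_of, det_fin_two_of, mul_inv_cancel₀ hr, C_add, mul_zero, sub_zero]
    have : C r * C r⁻¹ = (1 : K[X]) := by rw [← C_mul, mul_inv_cancel₀ hr, C_1]
    rw [C_1]
    linear_combination (-1 : K[X]) * this
  · rw [det_fin_two_of, mul_inv_cancel₀ hr]
    ring
  · rw [det_fin_two_of]
    simp
  · ext i j
    fin_cases i <;> fin_cases j <;> simp [hr]

/-- `diag (1, -1)`, `P = [0, 1; 1, 0]`. -/
theorem E2_facts : (!![1, 0; 0, -1] : Matrix (Fin 2) (Fin 2) K).charpoly = (X - C 1) * (X + 1) ∧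
    (!![1, 0; 0, -1] : Matrix (Fin 2) (Fin 2) K).det = -1 ∧ Rv (-1) (!![1, 0; 0, -1] : Matrix (Fin 2) (Fin 2) K) := by
  refine ⟨?_, ?_, ⟨!![0, 1; 1, 0], ?_, ?_⟩⟩
  · rw [charpoly_fin_two, trace_fin_two_of, det_fin_two_of]
    simp
    ring
  · rw [det_fin_two_of]
    ring
  · rw [det_fin_two_of]
    simp
  · ext i j
    fin_cases i <;> fin_cases j <;> simp
-- END ya

-- BEGIN yc
private theorem yc_core (K : Type*) [Field K] [Finite K] {m : ℕ} (hm : 0 < m) (E : Type) [Field E]
    [Algebra K E] [Finite E] (hE : finrank K E = 2 * m) (θ : E) (hθ : θ ≠ 0)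
    (ho : Nat.card K ^ m ≤ orderOf θ) (c : K) (hc : θ ^ (Nat.card K ^ m + 1) = algebraMap K E c) :
    ∃ B : Matrix (Fin (2 * m)) (Fin (2 * m)) K, Irreducible B.charpoly ∧
      B.det = c ^ (∑ i ∈ Finset.range m, Nat.card K ^ i) ∧ Rv c B := by
  have : Fintype K := Fintype.ofFinite K
  have : Fintype E := Fintype.ofFinite E
  have : Module.Finite K E := Module.Finite.of_finite
  obtain ⟨q, hq⟩ : ∃ q, q = Nat.card K := ⟨_, rfl⟩
  have hq2 : 2 ≤ q := by
    rw [hq]
    exact Finite.one_lt_card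
  rw [← hq] at ho hc ⊢
  have hqf : Fintype.card K = q := by rw [hq, Nat.card_eq_fintype_card]
  obtain ⟨b⟩ : Nonempty (Basis (Fin (2 * m)) K E) := ⟨(finBasis K E).reindex (finCongr hE)⟩
  obtain ⟨σ, hσ⟩ : ∃ σ : E ≃ₐ[K] E, ∀ x, σ x = x ^ (q ^ m) := by
    refine ⟨FiniteField.frobeniusAlgEquivOfAlgebraic K E ^ m, fun x => ?_⟩
    rw [AlgEquiv.coe_pow, FiniteField.coe_frobeniusAlgEquivOfAlgebraic_iterate, hqf]
  have hint : IsIntegral K θ := Algebra.IsIntegral.isIntegral θ
  obtain ⟨f, hf⟩ : ∃ f, f = minpoly K θ := ⟨_, rfl⟩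
  have hfm : f.Monic := by rw [hf]; exact minpoly.monic hint
  have hfi : Irreducible f := by rw [hf]; exact minpoly.irreducible hint
  have hdeg : f.natDegree = 2 * m := by
    have hfin : finrank K (IntermediateField.adjoin K {θ}) = f.natDegree := by
      rw [hf]; exact IntermediateField.adjoin.finrank hint
    have hd0 : 0 < f.natDegree := by rw [hf]; exact minpoly.natDegree_pos hint
    have hdv : f.natDegree ∣ 2 * m := by
      rw [← hE, ← hfin]
      exact ⟨_, (Module.finrank_mul_finrank K (IntermediateField.adjoin K {θ}) E).symm⟩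
    by_contra hne
    have hdm : f.natDegree ≤ m := by
      obtain ⟨t, ht⟩ := hdv
      have h1 : t ≠ 0 := by
        rintro rfl
        omega
      have h2 : t ≠ 1 := by
        rintro rfl
        apply hne
        rw [ht, mul_one]
      have h3 : f.natDegree * 2 ≤ f.natDegree * t := Nat.mul_le_mul_left _ (by omega)
      omega
    have : Fintype (IntermediateField.adjoin K {θ}) := Fintype.ofFinite _
    have hcc : Fintype.card (IntermediateField.adjoin K {θ}) = q ^ f.natDegree := by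
      rw [Module.card_eq_pow_finrank (K := K), hqf, hfin]
    have h1 := FiniteField.pow_card (⟨θ, IntermediateField.mem_adjoin_simple_self K θ⟩ :
      IntermediateField.adjoin K {θ})
    rw [hcc] at h1
    have h2 : θ ^ (q ^ f.natDegree) = θ := congrArg Subtype.val h1
    have hpos : 0 < q ^ f.natDegree := pow_pos (by omega) _
    have h3 : orderOf θ ∣ q ^ f.natDegree - 1 := by
      rw [orderOf_dvd_iff_pow_eq_one]
      apply mul_left_cancel₀ hθ
      rw [← pow_succ', Nat.sub_add_cancel hpos, h2, mul_one]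
    have h4 : q ^ f.natDegree ≤ q ^ m := Nat.pow_le_pow_right (by omega) hdm
    have h5 : 2 ≤ q ^ f.natDegree := by
      calc 2 ≤ q := hq2
        _ = q ^ 1 := (pow_one q).symm
        _ ≤ q ^ f.natDegree := Nat.pow_le_pow_right (by omega) (by omega)
    have h6 := Nat.le_of_dvd (by omega) h3
    omega
  have hcp : (Algebra.leftMulMatrix b θ).charpoly = f := by
    have h1 : minpoly K (Algebra.leftMulMatrix b θ) = f := by
      rw [hf]
      exact minpoly.algHom_eq (Algebra.leftMulMatrix b) (Algebra.leftMulMatrix_injective b) θ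
    have h2 : f ∣ (Algebra.leftMulMatrix b θ).charpoly := by
      rw [← h1]
      exact Matrix.minpoly_dvd_charpoly _
    refine (Polynomial.eq_of_monic_of_dvd_of_natDegree_le hfm (Matrix.charpoly_monic _) h2 ?_)
    rw [Matrix.charpoly_natDegree_eq_dim, Fintype.card_fin, hdeg]
  refine ⟨Algebra.leftMulMatrix b θ, by rw [hcp]; exact hfi, ?_, ?_⟩
  · rw [← Algebra.norm_eq_matrix_det b]
    apply (algebraMap K E).injective
    rw [FiniteField.algebraMap_norm_eq_pow_sum, hE, ← hq, map_pow, ← hc, ← pow_mul]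
    congr 1
    rw [two_mul, Finset.sum_range_add, add_mul, one_mul, add_comm, Finset.mul_sum]
    congr 1
    exact Finset.sum_congr rfl (fun i _ => pow_add q m i)
  · refine ⟨LinearMap.toMatrix b b σ.toLinearMap, ?_, ?_⟩
    · have h1 : LinearMap.toMatrix b b σ.toLinearMap * LinearMap.toMatrix b b σ.symm.toLinearMap = 1 := by
        rw [← LinearMap.toMatrix_mul, ← LinearMap.toMatrix_one b]
        congr 1
        apply LinearMap.ext
        intro x
        exact σ.apply_symm_apply x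
      intro h0
      have h2 := congrArg Matrix.det h1
      rw [Matrix.det_mul, h0, zero_mul, Matrix.det_one] at h2
      exact zero_ne_one h2
    · rw [Algebra.leftMulMatrix_apply, ← LinearMap.toMatrix_mul, ← LinearMap.toMatrix_mul,
        ← map_smul]
      congr 1
      apply LinearMap.ext
      intro x
      show θ * σ (θ * x) = c • σ x
      rw [map_mul, hσ θ, ← mul_assoc, ← pow_succ', hc, Algebra.smul_def]

/-- MODULE yc. The same with `θ = g ^ ((q ^ m - 1) / 2)`, of order `2 (q ^ m + 1)`, `θ ^ (q ^ m + 1) = -1`; `det B = θ ^ ((q ^ (2 m) - 1) / (q - 1)) = (-1) ^ (1 + q + .. + q ^ (m - 1)) = (-1) ^ m`. -/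
theorem ex_Bm [Finite K] (h2 : (2 : K) ≠ 0) {m : ℕ} (hm : 0 < m) : ∃ B : Matrix (Fin (2 * m)) (Fin (2 * m)) K,
    Irreducible B.charpoly ∧ B.det = (-1) ^ m ∧ Rv (-1) B := by
  obtain ⟨p, hp⟩ := CharP.exists K
  have hpp : Fact p.Prime := ⟨CharP.char_is_prime K p⟩
  have : NeZero (2 * m) := ⟨by omega⟩
  have hE := FiniteField.finrank_extension K p (2 * m)
  obtain ⟨q, hq⟩ : ∃ q, q = Nat.card K := ⟨_, rfl⟩
  have hq2 : 2 ≤ q := by
    rw [hq]
    exact Finite.one_lt_card
  have hodd : Odd q := by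
    rw [hq]
    have : Fintype K := Fintype.ofFinite K
    rw [Nat.card_eq_fintype_card, Nat.odd_iff]
    apply FiniteField.odd_card_of_char_ne_two
    intro h
    apply h2
    have h3 : ((ringChar K : ℕ) : K) = 0 := ringChar.Nat.cast_ringChar
    rw [h] at h3
    exact_mod_cast h3
  obtain ⟨r, hr⟩ := hodd.pow (n := m)
  have hqm : 2 ≤ q ^ m := by
    calc 2 ≤ q := hq2
      _ = q ^ 1 := (pow_one q).symm
      _ ≤ q ^ m := Nat.pow_le_pow_right (by omega) (by omega)
  obtain ⟨g, hg⟩ := IsCyclic.exists_generator (α := (FiniteField.Extension K p (2 * m))ˣ)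
  have : Module.Finite K (FiniteField.Extension K p (2 * m)) := Module.Finite.of_finite
  have hog : orderOf g = 2 * (q ^ m + 1) * r := by
    rw [orderOf_eq_card_of_forall_mem_zpowers hg, Nat.card_units,
      Module.natCard_eq_pow_finrank (K := K), hE, ← hq, mul_comm 2 m, pow_mul, hr]
    have h3 : (2 * r + 1) ^ 2 = 2 * (2 * r + 1 + 1) * r + 1 := by ring
    rw [h3]
    rfl
  have hr0 : 0 < r := by omega
  have hoθ : orderOf (g ^ r) = 2 * (q ^ m + 1) := by
    rw [orderOf_pow_of_dvd (by omega) (by rw [hog]; exact Dvd.intro_left _ rfl), hog,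
      Nat.mul_div_cancel _ hr0]
  obtain ⟨θ, hθ⟩ : ∃ θ : FiniteField.Extension K p (2 * m), θ = ((g ^ r : (FiniteField.Extension K p (2 * m))ˣ) : FiniteField.Extension K p (2 * m)) := ⟨_, rfl⟩
  have hθ0 : θ ≠ 0 := by rw [hθ]; exact Units.ne_zero _
  have hθo : orderOf θ = 2 * (q ^ m + 1) := by rw [hθ, orderOf_units, hoθ]
  have hθm : θ ^ (q ^ m + 1) = -1 := by
    have h3 : θ ^ (q ^ m + 1) * θ ^ (q ^ m + 1) = 1 := by
      have h7 : q ^ m + 1 + (q ^ m + 1) = orderOf θ := by
        rw [hθo]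
        omega
      rw [← pow_add, h7]
      exact pow_orderOf_eq_one θ
    rcases mul_self_eq_one_iff.1 h3 with h4 | h4
    · exfalso
      have h5 := Nat.le_of_dvd (by omega) (orderOf_dvd_of_pow_eq_one h4)
      omega
    · exact h4
  obtain ⟨B, h3, h4, h5⟩ := yc_core K hm (FiniteField.Extension K p (2 * m)) hE θ hθ0
    (by rw [hθo, ← hq]; omega) (-1) (by rw [← hq, hθm, map_neg, map_one])
  refine ⟨B, h3, ?_, h5⟩
  rw [h4, ← hq]
  have h6 : ∀ k : ℕ, ((-1 : K)) ^ (∑ i ∈ Finset.range k, q ^ i) = (-1) ^ k := by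
    intro k
    induction k with
    | zero => rw [Finset.sum_range_zero]
    | succ k ih => rw [Finset.sum_range_succ, pow_add, ih, pow_succ, (hodd.pow (n := k)).neg_one_pow]
  exact h6 m
-- END yc

-- BEGIN yb
private theorem yb_core (K : Type*) [Field K] [Finite K] {m : ℕ} (hm : 0 < m)
    (E : Type) [Field E] [Algebra K E] [Finite E] (hE : finrank K E = 2 * m) {q : ℕ}
    (hq : q = Nat.card K) {θ : E} (hθ : θ ≠ 0) (hord : q ^ m - 1 < orderOf θ) {c : K}
    (hc : θ ^ (q ^ m + 1) = algebraMap K E c) :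
    ∃ B : Matrix (Fin (2 * m)) (Fin (2 * m)) K, Irreducible B.charpoly ∧
      algebraMap K E B.det = θ ^ ((q ^ (2 * m) - 1) / (q - 1)) ∧ Rv c B := by
  have : Fintype K := Fintype.ofFinite K
  have : Fintype E := Fintype.ofFinite E
  have : Module.Finite K E := Module.Finite.of_finite
  have hq' : q = Fintype.card K := by rw [hq, Nat.card_eq_fintype_card]
  have hq2 : 2 ≤ q := by
    rw [hq']
    exact Fintype.one_lt_card
  have hcE : Nat.card E = q ^ (2 * m) := by
    rw [Nat.card_eq_fintype_card, Module.card_eq_pow_finrank (K := K) (V := E), ← hq', hE]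
  let b : Basis (Fin (2 * m)) K E := Module.finBasisOfFinrankEq K E hE
  have hint : IsIntegral K θ := Algebra.IsIntegral.isIntegral θ
  have hfm : (minpoly K θ).Monic := minpoly.monic hint
  have hfi : Irreducible (minpoly K θ) := minpoly.irreducible hint
  -- the degree of `θ`
  have hdeg : (minpoly K θ).natDegree = 2 * m := by
    have hfin : finrank K (IntermediateField.adjoin K {θ}) = (minpoly K θ).natDegree :=
      IntermediateField.adjoin.finrank hint
    have hdvd : (minpoly K θ).natDegree ∣ 2 * m := by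
      rw [← hfin, ← hE]
      exact ⟨_, (Module.finrank_mul_finrank K (IntermediateField.adjoin K {θ}) E).symm⟩
    have hdpos : 0 < (minpoly K θ).natDegree := minpoly.natDegree_pos hint
    by_contra hne
    have hle : (minpoly K θ).natDegree ≤ m := by
      obtain ⟨k, hk⟩ := hdvd
      have hk2 : 2 ≤ k := by
        rcases Nat.lt_or_ge k 2 with h | h
        · exfalso
          interval_cases k
          · omega
          · exact hne (by omega)
        · exact h
      have h3 : (minpoly K θ).natDegree * 2 ≤ (minpoly K θ).natDegree * k :=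
        Nat.mul_le_mul_left _ hk2
      omega
    have : Fintype (IntermediateField.adjoin K {θ}) := Fintype.ofFinite _
    have hcF : Fintype.card (IntermediateField.adjoin K {θ}) = q ^ (minpoly K θ).natDegree := by
      rw [Module.card_eq_pow_finrank (K := K), ← hq', hfin]
    have h1 := FiniteField.pow_card (⟨θ, IntermediateField.mem_adjoin_simple_self K θ⟩ :
      IntermediateField.adjoin K {θ})
    rw [hcF] at h1
    have h2 : θ ^ (q ^ (minpoly K θ).natDegree) = θ := congrArg Subtype.val h1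
    have hpos : 0 < q ^ (minpoly K θ).natDegree := pow_pos (by omega) _
    have h3 : orderOf θ ∣ q ^ (minpoly K θ).natDegree - 1 := by
      rw [orderOf_dvd_iff_pow_eq_one]
      apply mul_left_cancel₀ hθ
      rw [← pow_succ', Nat.sub_add_cancel hpos, h2, mul_one]
    have h4 : 2 ≤ q ^ (minpoly K θ).natDegree := by
      calc 2 ≤ q := hq2
        _ = q ^ 1 := (pow_one q).symm
        _ ≤ q ^ (minpoly K θ).natDegree := Nat.pow_le_pow_right (by omega) hdpos
    have h5 := Nat.le_of_dvd (by omega) h3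
    have h6 : q ^ (minpoly K θ).natDegree ≤ q ^ m := Nat.pow_le_pow_right (by omega) hle
    omega
  -- the characteristic polynomial
  have hchar : (Algebra.leftMulMatrix b θ).charpoly = minpoly K θ := by
    have h1 : aeval θ (Algebra.leftMulMatrix b θ).charpoly = 0 := by
      apply Algebra.leftMulMatrix_injective b
      rw [← aeval_algHom_apply, Matrix.aeval_self_charpoly, map_zero]
    refine Polynomial.eq_of_monic_of_dvd_of_natDegree_le hfm (Matrix.charpoly_monic _)
      (minpoly.dvd K θ h1) ?_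
    rw [hdeg, Matrix.charpoly_natDegree_eq_dim, Fintype.card_fin]
  refine ⟨Algebra.leftMulMatrix b θ, by rw [hchar]; exact hfi, ?_, ?_⟩
  · rw [← Algebra.norm_eq_matrix_det b θ, FiniteField.algebraMap_norm_eq_pow, hcE, ← hq]
  · -- the Frobenius
    let φ : E ≃ₐ[K] E := FiniteField.frobeniusAlgEquivOfAlgebraic K E ^ m
    have hφ : ∀ x, φ x = x ^ (q ^ m) := by
      intro x
      show (FiniteField.frobeniusAlgEquivOfAlgebraic K E ^ m) x = _
      rw [AlgEquiv.coe_pow, FiniteField.coe_frobeniusAlgEquivOfAlgebraic_iterate, ← hq']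
    refine ⟨LinearMap.toMatrix b b φ.toLinearMap, ?_, ?_⟩
    · have h1 : LinearMap.toMatrix b b φ.toLinearMap * LinearMap.toMatrix b b φ.symm.toLinearMap
          = 1 := by
        rw [← LinearMap.toMatrix_comp b b b]
        have h2 : φ.toLinearMap ∘ₗ φ.symm.toLinearMap = LinearMap.id := by
          apply LinearMap.ext
          intro x
          exact φ.apply_symm_apply x
        rw [h2, LinearMap.toMatrix_id]
      intro h0
      have h3 := congrArg Matrix.det h1
      rw [Matrix.det_mul, h0, zero_mul, Matrix.det_one] at h3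
      exact zero_ne_one h3
    · have h1 : Algebra.leftMulMatrix b θ = LinearMap.toMatrix b b (Algebra.lmul K E θ) := rfl
      rw [h1, ← LinearMap.toMatrix_comp b b b, ← LinearMap.toMatrix_comp b b b]
      have h2 : (Algebra.lmul K E θ ∘ₗ φ.toLinearMap) ∘ₗ Algebra.lmul K E θ =
          c • φ.toLinearMap := by
        apply LinearMap.ext
        intro x
        show θ * φ (θ * x) = c • φ x
        rw [map_mul, hφ θ, ← mul_assoc, ← pow_succ', hc, Algebra.smul_def]
      rw [h2, map_smul]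

private theorem yb_fin (K : Type*) [Field K] [Finite K] {m : ℕ} (hm : 0 < m)
    (E : Type) [Field E] [Algebra K E] [Finite E] (hE : finrank K E = 2 * m)
    (hcE : Nat.card E = Nat.card K ^ (2 * m)) :
    ∃ B : Matrix (Fin (2 * m)) (Fin (2 * m)) K,
      Irreducible B.charpoly ∧ B.det = 1 ∧ Rv 1 B := by
  obtain ⟨q, hq⟩ : ∃ q, q = Nat.card K := ⟨_, rfl⟩
  rw [← hq] at hcE
  have hq2 : 2 ≤ q := by
    rw [hq]
    exact Finite.one_lt_card
  obtain ⟨g, hg⟩ := IsCyclic.exists_generator (α := Eˣ)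
  obtain ⟨Q, hQ⟩ : ∃ Q, Q = q ^ m := ⟨_, rfl⟩
  have hQ2 : 2 ≤ Q := by
    calc 2 ≤ q := hq2
      _ = q ^ 1 := (pow_one q).symm
      _ ≤ q ^ m := Nat.pow_le_pow_right (by omega) hm
      _ = Q := hQ.symm
  have hQQ : q ^ (2 * m) - 1 = (Q + 1) * (Q - 1) := by
    rw [hQ, Nat.mul_comm 2 m, pow_mul, pow_two]
    obtain ⟨r, hr⟩ : ∃ r, q ^ m = r + 1 := ⟨q ^ m - 1, by omega⟩
    rw [hr]
    show (r + 1) * (r + 1) - 1 = (r + 1 + 1) * r
    have : (r + 1) * (r + 1) = (r + 1 + 1) * r + 1 := by ring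
    omega
  have hog : orderOf g = (Q + 1) * (Q - 1) := by
    rw [orderOf_eq_card_of_forall_mem_zpowers hg, Nat.card_units, hcE, hQQ]
  have hoθ : orderOf (g ^ (Q - 1)) = Q + 1 := by
    rw [orderOf_pow' g (by omega), hog, Nat.gcd_eq_right (Dvd.intro_left _ rfl),
      Nat.mul_div_cancel _ (by omega)]
  have hoθ' : orderOf ((g ^ (Q - 1) : Eˣ) : E) = Q + 1 := by
    rw [orderOf_units, hoθ]
  have h1 : ((g ^ (Q - 1) : Eˣ) : E) ^ (Q + 1) = 1 := by
    rw [← hoθ']
    exact pow_orderOf_eq_one _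
  obtain ⟨B, hB1, hB2, hB3⟩ := yb_core K hm E hE hq (θ := ((g ^ (Q - 1) : Eˣ) : E))
    (Units.ne_zero _) (by rw [hoθ', ← hQ]; omega) (c := 1) (by rw [← hQ, h1, map_one])
  refine ⟨B, hB1, ?_, hB3⟩
  apply (algebraMap K E).injective
  have hdiv : (q ^ (2 * m) - 1) / (q - 1) = (Q + 1) * ((Q - 1) / (q - 1)) := by
    rw [hQQ]
    refine Nat.mul_div_assoc _ ?_
    rw [hQ]
    exact Nat.sub_one_dvd_pow_sub_one q m
  rw [hB2, hdiv, pow_mul, h1, one_pow, map_one]

/-- MODULE yb. `E` an extension of `K` of degree `2 m`, `q = |K|` (as in ThQ/Seed.lean, `Seed_core`). `g` a generator of `Eˣ`; `θ = g ^ (q ^ m - 1)` has order `q ^ m + 1`, its degree over `K` is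
the order of `q` modulo `q ^ m + 1`, that is `2 m` (`d < 2 m`, `q ^ m + 1 ∣ q ^ d - 1`: impossible for `d ≤ m` by size, for `m < d < 2 m` since `q ^ d ≡ - q ^ (d - m)`). `φ x = x ^ (q ^ m)` is `K`-linear,
`θ φ (θ x) = θ ^ (q ^ m + 1) φ x = φ x`. `B` = matrix of the multiplication by `θ` in the power basis (`charpoly_leftMulMatrix`), `det B = Norm θ = θ ^ ((q ^ (2 m) - 1) / (q - 1)) = 1`
(`FiniteField.algebraMap_norm_eq_pow` or similar). -/
theorem ex_B [Finite K] {m : ℕ} (hm : 0 < m) : ∃ B : Matrix (Fin (2 * m)) (Fin (2 * m)) K,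
    Irreducible B.charpoly ∧ B.det = 1 ∧ Rv 1 B := by
  obtain ⟨p, hp⟩ := CharP.exists K
  have hpp : Fact p.Prime := ⟨CharP.char_is_prime K p⟩
  have : NeZero (2 * m) := ⟨by omega⟩
  exact yb_fin K hm (FiniteField.Extension K p (2 * m))
    (FiniteField.finrank_extension K p (2 * m)) (FiniteField.natCard_extension K p (2 * m))
-- END yb

end ThL
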