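import Pool.Agent.ThL.Defs

/-! # Block triangular products -/

namespace ThL
open Module

variable {K : Type*} [Field K] {V V' V1 V2 : Type*} [AddCommGroup V] [Module K V]
  [AddCommGroup V'] [Module K V'] [AddCommGroup V1] [Module K V1] [AddCommGroup V2] [Module K V2]

-- BEGIN ba
private theorem ba_sub (A : Module.End K V1) (E : V2 →ₗ[K] V1) (B : Module.End K V2) (v : V1 × V2) :
    (blk A E B - 1) v = ((A - 1) v.1 + E v.2, (B - 1) v.2) := by
  show (A v.1 + E v.2, B v.2) - v = (A v.1 - v.1 + E v.2, B v.2 - v.2)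
  apply Prod.ext
  · show A v.1 + E v.2 - v.1 = A v.1 - v.1 + E v.2
    abel
  · rfl

private theorem ba_fst (A : Module.End K V1) (E : V2 →ₗ[K] V1) (B : Module.End K V2) (k : ℕ) (p : V1) :
    ((blk A E B - 1) ^ k) (p, 0) = (((A - 1) ^ k) p, 0) := by
  induction k with
  | zero => rfl
  | succ k ih =>
    rw [pow_succ', Module.End.mul_apply, ih, ba_sub, pow_succ', Module.End.mul_apply]
    show ((A - 1) (((A - 1) ^ k) p) + E 0, (B - 1) 0) = _
    rw [map_zero, map_zero, add_zero]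

private theorem ba_snd (A : Module.End K V1) (E : V2 →ₗ[K] V1) (B : Module.End K V2) (k : ℕ) (v : V1 × V2) :
    (((blk A E B - 1) ^ k) v).2 = ((B - 1) ^ k) v.2 := by
  induction k with
  | zero => rfl
  | succ k ih =>
    rw [pow_succ', Module.End.mul_apply, ba_sub, pow_succ', Module.End.mul_apply]
    show (B - 1) (((blk A E B - 1) ^ k) v).2 = _
    rw [ih]

private theorem ba_pos [FiniteDimensional K V] {X : Module.End K V} (h : RU X) : 0 < finrank K V := by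
  rcases Nat.eq_zero_or_pos (finrank K V) with h0 | h0
  · exfalso
    apply h.2
    have : Subsingleton V := finrank_zero_iff.1 h0
    apply LinearMap.ext
    intro x
    exact Subsingleton.elim _ _
  · exact h0

/-- MODULE ba. `N = blk X1 E X2 - 1 = blk N1 E N2`; `N ^ k = blk (N1 ^ k) (Σ_(i+j=k-1) N1^i E N2^j) (N2 ^ k)`, and with `a = finrank V1`,
`b = finrank V2` (both positive because of `RU`): for `k = a + b - 1` only `N1^(a-1) E N2^(b-1)` survives, for `k = a + b` nothing. (Easier: show `N ^ b`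
maps `V1 × V2` to `V1 × 0`, .. or prove the power formula by induction.) -/
theorem ru_blk [FiniteDimensional K V1] [FiniteDimensional K V2] {X1 : Module.End K V1}
    {X2 : Module.End K V2} {E : V2 →ₗ[K] V1} (h1 : RU X1) (h2 : RU X2)
    (h : ∃ y, ((X1 - 1) ^ (finrank K V1 - 1)) (E (((X2 - 1) ^ (finrank K V2 - 1)) y)) ≠ 0) :
    RU (blk X1 E X2) := by
  have ha := ba_pos h1
  have hb := ba_pos h2
  have hf : finrank K (V1 × V2) = finrank K V1 + finrank K V2 := finrank_prod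
  obtain ⟨a, ea⟩ : ∃ a, finrank K V1 = a + 1 := ⟨finrank K V1 - 1, by omega⟩
  obtain ⟨b, eb⟩ : ∃ b, finrank K V2 = b + 1 := ⟨finrank K V2 - 1, by omega⟩
  obtain ⟨h10, -⟩ := h1
  obtain ⟨h20, -⟩ := h2
  rw [ea] at h10
  rw [eb] at h20
  rw [ea, eb, Nat.add_sub_cancel, Nat.add_sub_cancel] at h
  -- the power `b + 1` maps into `V1 × 0`
  have hz : ∀ v : V1 × V2, ((blk X1 E X2 - 1) ^ (b + 1)) v = ((((blk X1 E X2 - 1) ^ (b + 1)) v).1, 0) := by
    intro v
    apply Prod.ext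
    · rfl
    · show (((blk X1 E X2 - 1) ^ (b + 1)) v).2 = 0
      rw [ba_snd, h20]
      rfl
  have hk : ∀ (k : ℕ) (y : V2), ((X1 - 1) ^ a) ((((blk X1 E X2 - 1) ^ (k + 1)) ((0 : V1), y)).1) = ((X1 - 1) ^ a) (E (((X2 - 1) ^ k) y)) := by
    intro k
    induction k with
    | zero =>
      intro y
      rw [zero_add, pow_one, ba_sub]
      show ((X1 - 1) ^ a) ((X1 - 1) 0 + E y) = ((X1 - 1) ^ a) (E y)
      rw [map_zero, zero_add]
    | succ k _ =>
      intro y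
      rw [pow_succ', Module.End.mul_apply, ba_sub]
      show ((X1 - 1) ^ a) ((X1 - 1) (((blk X1 E X2 - 1) ^ (k + 1)) ((0 : V1), y)).1 + E (((blk X1 E X2 - 1) ^ (k + 1)) ((0 : V1), y)).2) = _
      rw [map_add, ba_snd]
      have e : ((X1 - 1) ^ a) ((X1 - 1) (((blk X1 E X2 - 1) ^ (k + 1)) ((0 : V1), y)).1) = 0 := by
        rw [← Module.End.mul_apply, ← pow_succ, h10]
        rfl
      rw [e, zero_add]
  constructor
  · rw [hf, ea, eb, pow_add]
    apply LinearMap.ext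
    intro v
    rw [Module.End.mul_apply, hz, ba_fst, h10]
    rfl
  · rw [hf, ea, eb, show a + 1 + (b + 1) - 1 = a + (b + 1) by omega, pow_add]
    intro h0
    obtain ⟨y, hy⟩ := h
    apply hy
    rw [← hk b y]
    have e := congrArg (fun f : Module.End K (V1 × V2) => (f ((0 : V1), y)).1) h0
    have e2 : (((blk X1 E X2 - 1) ^ a) (((blk X1 E X2 - 1) ^ (b + 1)) ((0 : V1), y))).1 = 0 := e
    rw [hz, ba_fst] at e2
    exact e2
-- END ba

-- BEGIN bb
private theorem bb_two {H P Q : Type*} [AddCommGroup H] [AddCommGroup P] [AddCommGroup Q] (f : H →+ P) (g : H →+ Q)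
    {a b : H} (ha : f a ≠ 0) (hb : g b ≠ 0) : ∃ c, f c ≠ 0 ∧ g c ≠ 0 := by
  by_cases h1 : g a = 0
  · by_cases h2 : f b = 0
    · refine ⟨a + b, ?_, ?_⟩
      · rw [map_add, h2, add_zero]; exact ha
      · rw [map_add, h1, zero_add]; exact hb
    · exact ⟨b, h2, hb⟩
  · exact ⟨a, ha, h1⟩

private theorem bb_pos {X : Module.End K V1} (h : RU X) : 0 < finrank K V1 := by
  rcases Nat.eq_zero_or_pos (finrank K V1) with h0 | h0
  · exfalso
    obtain ⟨h1, h2⟩ := h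
    rw [h0] at h1 h2
    exact h2 h1
  · exact h0

private theorem bb_ne {X : Module.End K V1} (h : RU X) : ∃ y, ((X - 1) ^ (finrank K V1 - 1)) y ≠ 0 := by
  by_contra hc
  push Not at hc
  exact h.2 (LinearMap.ext hc)

private theorem bb_map {A : Module.End K V1} {B : Module.End K V2} {x : V1} {y : V2} (hA : A x ≠ 0) (hB : B y ≠ 0) :
    ∃ E : V2 →ₗ[K] V1, A ∘ₗ E ∘ₗ B ≠ 0 := by
  obtain ⟨f, hf⟩ : ∃ f : Module.Dual K V2, f (B y) ≠ 0 := by
    by_contra hc
    push Not at hc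
    exact hB ((Module.forall_dual_apply_eq_zero_iff K (B y)).1 hc)
  refine ⟨(LinearMap.toSpanSingleton K V1 x) ∘ₗ f, fun h => ?_⟩
  have h1 : A (f (B y) • x) = 0 := by
    have := LinearMap.congr_fun h y
    exact this
  rw [map_smul] at h1
  rcases smul_eq_zero.1 h1 with h2 | h2
  · exact hf h2
  · exact hA h2

private def bb_phi (A : Module.End K V1) (B : Module.End K V2) : (V2 →ₗ[K] V1) →+ (V2 →ₗ[K] V1) where
  toFun E := A ∘ₗ E ∘ₗ B
  map_zero' := by rw [LinearMap.zero_comp, LinearMap.comp_zero]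
  map_add' E F := by rw [LinearMap.add_comp, LinearMap.comp_add]

/-- MODULE bb. `X1` is invertible (`(X1 - 1)^a = 0`, `IsNilpotent.isUnit_one_add`). Two nonzero linear maps `φ, φ' : Hom(V2, V1) → End`:
`φ E = (X1-1)^(a-1) E (X2-1)^(b-1)` and `φ' E = (Y1-1)^(a-1) X1⁻¹ E (Y2-1)^(b-1)`; there is `E` with `φ E ≠ 0`, `φ' E ≠ 0` (if `φ E1 ≠ 0`, `φ' E2 ≠ 0` take `E1`, `E2` or
`E1 + E2`). `F = X1⁻¹ (R - E Y2)`; `(Y1-1)^(a-1) F (Y2-1)^(b-1) = 0 - φ' E` by `hR` and `Y2 (Y2-1)^(b-1) = (Y2-1)^(b-1)`. Then `ru_blk` twice, `blk_mul`. -/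
theorem good_ext [FiniteDimensional K V1] [FiniteDimensional K V2] {X1 Y1 : Module.End K V1}
    {X2 Y2 : Module.End K V2} (hX1 : RU X1) (hY1 : RU Y1) (hX2 : RU X2) (hY2 : RU Y2)
    (R : V2 →ₗ[K] V1) (hR : ∀ y, R (((Y2 - 1) ^ (finrank K V2 - 1)) y) = 0) :
    ∃ E F : V2 →ₗ[K] V1, RU (blk X1 E X2) ∧ RU (blk Y1 F Y2) ∧
      blk (X1 * Y1) R (X2 * Y2) = blk X1 E X2 * blk Y1 F Y2 := by
  obtain ⟨u, hu⟩ : IsUnit X1 := by
    have h1 : IsNilpotent (X1 - 1) := ⟨_, hX1.1⟩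
    have := h1.isUnit_one_add
    rwa [add_sub_cancel] at this
  have hui : ∀ x, X1 ((↑u⁻¹ : Module.End K V1) x) = x := by
    intro x
    have h1 : X1 * (↑u⁻¹ : Module.End K V1) = 1 := by rw [← hu]; exact u.mul_inv
    exact LinearMap.congr_fun h1 x
  have hiu : ∀ x, (↑u⁻¹ : Module.End K V1) (X1 x) = x := by
    intro x
    have h1 : (↑u⁻¹ : Module.End K V1) * X1 = 1 := by rw [← hu]; exact u.inv_mul
    exact LinearMap.congr_fun h1 x
  obtain ⟨x1, hx1⟩ := bb_ne hX1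
  obtain ⟨x2, hx2⟩ := bb_ne hX2
  obtain ⟨y1, hy1⟩ := bb_ne hY1
  obtain ⟨y2, hy2⟩ := bb_ne hY2
  obtain ⟨E1, hE1⟩ := bb_map hx1 hx2
  have hy1' : (((Y1 - 1) ^ (finrank K V1 - 1)) * (↑u⁻¹ : Module.End K V1)) (X1 y1) ≠ 0 := by
    show ((Y1 - 1) ^ (finrank K V1 - 1)) ((↑u⁻¹ : Module.End K V1) (X1 y1)) ≠ 0
    rw [hiu]
    exact hy1
  obtain ⟨E2, hE2⟩ := bb_map hy1' hy2
  obtain ⟨E, hE, hE'⟩ := bb_two (bb_phi ((X1 - 1) ^ (finrank K V1 - 1)) ((X2 - 1) ^ (finrank K V2 - 1)))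
    (bb_phi (((Y1 - 1) ^ (finrank K V1 - 1)) * (↑u⁻¹ : Module.End K V1)) ((Y2 - 1) ^ (finrank K V2 - 1))) hE1 hE2
  have hYY : ∀ y, Y2 (((Y2 - 1) ^ (finrank K V2 - 1)) y) = ((Y2 - 1) ^ (finrank K V2 - 1)) y := by
    intro y
    have h1 : (Y2 - 1) * (Y2 - 1) ^ (finrank K V2 - 1) = 0 := by
      rw [← pow_succ', Nat.sub_add_cancel (bb_pos hY2)]
      exact hY2.1
    have h2 := LinearMap.congr_fun h1 y
    have h3 : Y2 (((Y2 - 1) ^ (finrank K V2 - 1)) y) - ((Y2 - 1) ^ (finrank K V2 - 1)) y = 0 := h2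
    exact sub_eq_zero.1 h3
  refine ⟨E, (↑u⁻¹ : Module.End K V1) ∘ₗ (R - E ∘ₗ Y2), ru_blk hX1 hX2 ?_, ru_blk hY1 hY2 ?_, ?_⟩
  · by_contra hc
    push Not at hc
    exact hE (LinearMap.ext hc)
  · by_contra hc
    push Not at hc
    apply hE'
    apply LinearMap.ext
    intro y
    have h1 := hc y
    have h2 : ((↑u⁻¹ : Module.End K V1) ∘ₗ (R - E ∘ₗ Y2)) (((Y2 - 1) ^ (finrank K V2 - 1)) y) =
        - (↑u⁻¹ : Module.End K V1) (E (((Y2 - 1) ^ (finrank K V2 - 1)) y)) := by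
      show (↑u⁻¹ : Module.End K V1) (R (((Y2 - 1) ^ (finrank K V2 - 1)) y) - E (Y2 (((Y2 - 1) ^ (finrank K V2 - 1)) y))) = _
      rw [hR, hYY, zero_sub, map_neg]
    rw [h2, map_neg, neg_eq_zero] at h1
    exact h1
  · rw [blk_mul]
    have h1 : X1 ∘ₗ ((↑u⁻¹ : Module.End K V1) ∘ₗ (R - E ∘ₗ Y2)) + E ∘ₗ Y2 = R := by
      apply LinearMap.ext
      intro y
      show X1 ((↑u⁻¹ : Module.End K V1) (R y - E (Y2 y))) + E (Y2 y) = R y
      rw [hui, sub_add_cancel]
    rw [h1]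
-- END bb

-- BEGIN bc
/-- MODULE bc. `good_ext` with `R = 0`. -/
theorem good_prod [FiniteDimensional K V1] [FiniteDimensional K V2] {M1 : Module.End K V1}
    {M2 : Module.End K V2} (h1 : Good M1) (h2 : Good M2) : Good (blk M1 0 M2) := by
  obtain ⟨X1, Y1, hX1, hY1, rfl⟩ := h1
  obtain ⟨X2, Y2, hX2, hY2, rfl⟩ := h2
  obtain ⟨E, F, hE, hF, e⟩ := good_ext hX1 hY1 hX2 hY2 0 (fun y => rfl)
  exact ⟨_, _, hE, hF, e⟩

private theorem bc_ru : RU (1 : Module.End K K) := by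
  constructor
  · rw [finrank_self, sub_self, pow_one]
  · rw [finrank_self, sub_self, Nat.sub_self, pow_zero]
    exact one_ne_zero

/-- `good_ext` for `V1 = V`, `V2 = K`, `R = 0` gives `blk G 0 1 = (blk X E 1) (blk Y F 1)` on `V × K`; the second component of
`(blk Y F 1 - 1)^(finrank V)` is `0` (`0 < finrank V` by `RU`), so `good_ext` applies again to `V1 = K` (`RU 1` on `K`), `V2 = V × K`, `R = snd`. -/
theorem good_snd [FiniteDimensional K V] {G : Module.End K V} (hG : Good G) :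
    Good (blk (1 : Module.End K K) (LinearMap.snd K V K) (blk G 0 (1 : Module.End K K))) := by
  obtain ⟨X, Y, hX, hY, rfl⟩ := hG
  obtain ⟨E, F, hE, hF, e⟩ := good_ext hX hY (bc_ru (K := K)) (bc_ru (K := K)) 0 (fun y => rfl)
  have hp := ba_pos hY
  have hR : ∀ y, LinearMap.snd K V K (((blk Y F (1 : Module.End K K) - 1) ^ (finrank K (V × K) - 1)) y) = 0 := by
    intro y
    show (((blk Y F (1 : Module.End K K) - 1) ^ (finrank K (V × K) - 1)) y).2 = 0
    rw [ba_snd, finrank_prod, finrank_self, Nat.add_sub_cancel, sub_self, zero_pow (by omega)]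
    rfl
  obtain ⟨E', F', hE', hF', e'⟩ := good_ext (bc_ru (K := K)) (bc_ru (K := K)) hE hF (LinearMap.snd K V K) hR
  refine ⟨_, _, hE', hF', ?_⟩
  rw [← e', ← e, one_mul]
-- END bc

-- BEGIN bd
private theorem bd_pow (e : V ≃ₗ[K] V') {M : Module.End K V} {M' : Module.End K V'}
    (h : ∀ x, e (M x) = M' (e x)) (k : ℕ) (x : V) : e (((M - 1) ^ k) x) = ((M' - 1) ^ k) (e x) := by
  induction k generalizing x with
  | zero => rfl
  | succ k ih =>
    rw [pow_succ, Module.End.mul_apply, ih, pow_succ, Module.End.mul_apply]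
    congr 1
    show e (M x - x) = M' (e x) - e x
    rw [map_sub, h]

private theorem bd_zero (e : V ≃ₗ[K] V') {M : Module.End K V} {M' : Module.End K V'}
    (h : ∀ x, e (M x) = M' (e x)) (k : ℕ) : (M - 1) ^ k = 0 ↔ (M' - 1) ^ k = 0 := by
  constructor
  · intro h0
    apply LinearMap.ext
    intro y
    obtain ⟨x, rfl⟩ := e.surjective y
    rw [← bd_pow e h, h0]
    exact map_zero e
  · intro h0
    apply LinearMap.ext
    intro x
    apply e.injective
    rw [bd_pow e h, h0]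
    exact (map_zero e).symm

private theorem bd_RU (e : V ≃ₗ[K] V') {M : Module.End K V} {M' : Module.End K V'}
    (h : ∀ x, e (M x) = M' (e x)) (hM : RU M) : RU M' := by
  unfold RU at hM ⊢
  rw [← e.finrank_eq, ← bd_zero e h, Ne, ← bd_zero e h]
  exact hM

/-- MODULE bd. Transport along a linear equivalence (`LinearEquiv.conj`, `LinearEquiv.finrank_eq`). -/
theorem Good.map (e : V ≃ₗ[K] V') {M : Module.End K V} {M' : Module.End K V'}
    (h : ∀ x, e (M x) = M' (e x)) (hM : Good M) : Good M' := by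
  obtain ⟨X, Y, hX, hY, rfl⟩ := hM
  have hc : ∀ (Z : Module.End K V) (x : V), e (Z x) = e.conj Z (e x) := by
    intro Z x
    rw [LinearEquiv.conj_apply_apply, e.symm_apply_apply]
  refine ⟨e.conj X, e.conj Y, bd_RU e (hc X) hX, bd_RU e (hc Y) hY, ?_⟩
  apply LinearMap.ext
  intro y
  obtain ⟨x, rfl⟩ := e.surjective y
  rw [← h, Module.End.mul_apply, Module.End.mul_apply, ← hc, ← hc]

theorem IsJ2.map (e : V ≃ₗ[K] V') {M : Module.End K V} {M' : Module.End K V'}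
    (h : ∀ x, e (M x) = M' (e x)) (hM : IsJ2 M) : IsJ2 M' := by
  obtain ⟨h1, h2, h3⟩ := hM
  refine ⟨by rw [← e.finrank_eq, h1], ?_, (bd_zero e h 2).1 h3⟩
  rintro rfl
  apply h2
  have h4 := (bd_zero e h 1).2 (by rw [pow_one, sub_self])
  rw [pow_one] at h4
  exact sub_eq_zero.1 h4
-- END bd

end ThL
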