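import Mathlib

/-!
# `GL_n(2)`: products of two regular unipotent elements

The group `GL_n(K)`, `K` the field with two elements, `n ≥ 3`: every element is a product of two regular unipotent elements.
-/

namespace ThL
open Module

variable {K : Type*} [Field K] {V V1 V2 : Type*} [AddCommGroup V] [Module K V]
  [AddCommGroup V1] [Module K V1] [AddCommGroup V2] [Module K V2]

/-- regular unipotent -/
def RU (X : Module.End K V) : Prop :=
  (X - 1) ^ finrank K V = 0 ∧ (X - 1) ^ (finrank K V - 1) ≠ 0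

/-- product of two regular unipotent endomorphisms -/
def Good (M : Module.End K V) : Prop := ∃ X Y : Module.End K V, RU X ∧ RU Y ∧ M = X * Y

/-- a Jordan block of size two for the eigenvalue `1` -/
def IsJ2 (M : Module.End K V) : Prop := finrank K V = 2 ∧ M ≠ 1 ∧ (M - 1) ^ 2 = 0

/-- block triangular endomorphism of `V1 × V2` -/
def blk (X1 : Module.End K V1) (E : V2 →ₗ[K] V1) (X2 : Module.End K V2) : Module.End K (V1 × V2) :=
  LinearMap.prod (X1 ∘ₗ LinearMap.fst K V1 V2 + E ∘ₗ LinearMap.snd K V1 V2)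
    (X2 ∘ₗ LinearMap.snd K V1 V2)

theorem blk_apply (X1 : Module.End K V1) (E : V2 →ₗ[K] V1) (X2 : Module.End K V2) (v : V1 × V2) :
    blk X1 E X2 v = (X1 v.1 + E v.2, X2 v.2) := rfl

theorem blk_mul (X1 Y1 : Module.End K V1) (E F : V2 →ₗ[K] V1) (X2 Y2 : Module.End K V2) :
    blk X1 E X2 * blk Y1 F Y2 = blk (X1 * Y1) (X1 ∘ₗ F + E ∘ₗ Y2) (X2 * Y2) := by
  apply LinearMap.ext
  intro v
  show (X1 (Y1 v.1 + F v.2) + E (Y2 v.2), X2 (Y2 v.2)) = (X1 (Y1 v.1) + (X1 (F v.2) + E (Y2 v.2)), X2 (Y2 v.2))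
  rw [map_add, add_assoc]

theorem blk_one : blk (1 : Module.End K V1) 0 (1 : Module.End K V2) = 1 := by
  apply LinearMap.ext
  intro v
  show (v.1 + 0, v.2) = v
  rw [add_zero]

theorem el2 (hK : Nat.card K = 2) (x : K) : x = 0 ∨ x = 1 := by
  by_contra h
  push Not at h
  have : Finite K := (Nat.card_pos_iff.1 (by omega)).2
  have := Fintype.ofFinite K
  classical
  have h1 : ({0, 1, x} : Finset K).card ≤ Fintype.card K := Finset.card_le_univ _
  rw [Finset.card_insert_of_notMem (by simp [h.1.symm]),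
    Finset.card_insert_of_notMem (by simp [h.2.symm]), Finset.card_singleton,
    ← Nat.card_eq_fintype_card, hK] at h1
  omega

theorem two2 (hK : Nat.card K = 2) : (2 : K) = 0 := by
  rcases el2 hK (2 : K) with h | h
  · exact h
  · exfalso
    have : (1 : K) = 0 := by linear_combination h
    exact one_ne_zero this

end ThL
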