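import Pool.Agent.ThL.Small
import Pool.Agent.ThC.Grp

/-! # The main theorem for the field with two elements -/

namespace ThL
open Module Polynomial

variable {K : Type*} [Field K] {V : Type*} [AddCommGroup V] [Module K V]

theorem cyc_good [FiniteDimensional K V] (hK : Nat.card K = 2) {M : Module.End K V} {v : V} {n : ℕ}
    (hn : 0 < n) (h : ThPL.Cyc M ⊥ v n) (hM : ∀ x, M x = 0 → x = 0) : Good M ∨ IsJ2 M := by
  have hfr : n = finrank K V := by
    have := ThPL.cyc_finrank h
    rwa [finrank_bot, zero_add] at this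
  rcases (by omega : n = 1 ∨ n = 2 ∨ n = 3 ∨ 4 ≤ n) with rfl | rfl | rfl | h4
  · exact Or.inl (good_one hK hfr.symm M hM)
  · rcases el2 hK (LinearMap.trace K V M) with ht | ht
    · exact Or.inr (j2_of_tr hK h hM ht)
    · obtain ⟨e, ee, hee, h0, h1⟩ := ex_bas1 h le_rfl
      exact Or.inl (good_tr1 hK le_rfl e ee hee M hM h0 (fun j _ => h1 j) ht)
  · rcases el2 hK (LinearMap.trace K V M) with ht | ht
    · exact Or.inl (good_three hK h hM ht)
    · obtain ⟨e, ee, hee, h0, h1⟩ := ex_bas1 h (by omega)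
      exact Or.inl (good_tr1 hK (by omega) e ee hee M hM h0 (fun j _ => h1 j) ht)
  · rcases el2 hK (LinearMap.trace K V M) with ht | ht
    · obtain ⟨e, ee, hee, h1, h0, h2, h3⟩ := ex_bas0 h (by omega)
      exact Or.inl (good_tr0 hK h4 e ee hee M hM h1 h0 h2 (fun j _ => h3 j) ht)
    · obtain ⟨e, ee, hee, h0, h1⟩ := ex_bas1 h (by omega)
      exact Or.inl (good_tr1 hK (by omega) e ee hee M hM h0 (fun j _ => h1 j) ht)

-- BEGIN ma
private theorem ma_split (W1 W2 : Submodule K V) (hW : IsCompl W1 W2) (M : Module.End K V)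
    (h1 : ∀ x ∈ W1, M x ∈ W1) (h2 : ∀ x ∈ W2, M x ∈ W2) (x : W1 × W2) :
    Submodule.prodEquivOfIsCompl W1 W2 hW (blk (M.restrict h1) 0 (M.restrict h2) x) =
      M (Submodule.prodEquivOfIsCompl W1 W2 hW x) := by
  rw [blk_apply, LinearMap.zero_apply, add_zero, Submodule.coe_prodEquivOfIsCompl',
    Submodule.coe_prodEquivOfIsCompl', map_add]
  rfl

private theorem ma_inj {W : Submodule K V} {M : Module.End K V} (h1 : ∀ x ∈ W, M x ∈ W)
    (hM : ∀ x, M x = 0 → x = 0) (x : W) (hx : M.restrict h1 x = 0) : x = 0 :=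
  Subtype.ext (hM x (congrArg Subtype.val hx))

/-- MODULE ma. Strong induction on `finrank K V`: `V` is the direct sum of `V'` and of `W`, the set of all `g(M) v`. -/
theorem all_good (hK : Nat.card K = 2) (n : ℕ) : ∀ (V : Type*) [AddCommGroup V] [Module K V] [FiniteDimensional K V]
    (M : Module.End K V), finrank K V = n → 0 < n → (∀ x, M x = 0 → x = 0) → Good M ∨ IsJ2 M := by
  induction n using Nat.strong_induction_on with
  | _ n ih =>
  intro V _ _ _ M hfr hn hM
  haveI : Nontrivial V := Module.nontrivial_of_finrank_pos (R := K) (by omega)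
  obtain ⟨v, hv⟩ := ThPL.max_vec M
  obtain ⟨V', hc⟩ := ThPL.cyc_of_max M hv
  have hl : 0 < (minpoly K M).natDegree := minpoly.natDegree_pos (Algebra.IsIntegral.isIntegral M)
  generalize (minpoly K M).natDegree = l at hc hl
  by_cases hb : V' = ⊥
  · subst hb
    exact cyc_good hK hl hc hM
  · obtain ⟨q, hq, hql, hqv⟩ := hc.rel
    let W : Submodule K V := LinearMap.range ((LinearMap.applyₗ v) ∘ₗ (aeval M).toLinearMap)
    have hW : ∀ y, y ∈ W ↔ ∃ g : K[X], aeval M g v = y := fun y => Iff.rfl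
    have hWinv : ∀ x ∈ W, M x ∈ W := by
      intro x hx
      obtain ⟨g, rfl⟩ := (hW x).1 hx
      refine (hW _).2 ⟨X * g, ?_⟩
      rw [map_mul, aeval_X]
      rfl
    have hcomp : IsCompl V' W := by
      refine ⟨Submodule.disjoint_def.2 fun x hx hx' => ?_,
        codisjoint_iff.2 (eq_top_iff.2 fun y _ => ?_)⟩
      · obtain ⟨g, hg⟩ := (hW x).1 hx'
        have h1 : aeval M g v = aeval M (g %ₘ q) v := by
          conv_lhs => rw [← modByMonic_add_div g q, mul_comm q, map_add, map_mul]
          rw [LinearMap.add_apply, Module.End.mul_apply, hqv, map_zero, add_zero]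
        have h2 : (-(g %ₘ q)).degree < l := by
          rw [degree_neg]
          have h3 := degree_modByMonic_lt g hq
          rwa [degree_eq_natDegree hq.ne_zero, hql] at h3
        exact (hc.uniq x hx (-(g %ₘ q)) h2 (by
          rw [map_neg, LinearMap.neg_apply, ← h1, hg, add_neg_cancel])).1
      · obtain ⟨x, hx, g, -, hy⟩ := hc.gen y
        rw [hy]
        exact Submodule.mem_sup.2 ⟨x, hx, _, (hW _).2 ⟨g, rfl⟩, rfl⟩
    have hf1 := ThPL.cyc_finrank hc
    have hf2 := Submodule.finrank_add_eq_of_isCompl hcomp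
    have hf3 : 0 < finrank K V' := by
      rw [Nat.pos_iff_ne_zero]
      intro h0
      exact hb (Submodule.finrank_eq_zero.1 h0)
    have hA := ih (finrank K V') (by omega) V' (M.restrict hc.inv) rfl hf3 (ma_inj hc.inv hM)
    have hB := ih (finrank K W) (by omega) W (M.restrict hWinv) rfl (by omega) (ma_inj hWinv hM)
    left
    rcases hA with hA | hA
    · rcases hB with hB | hB
      · exact (good_prod hA hB).map _ (ma_split V' W hcomp M hc.inv hWinv)
      · exact (j2_good hB hA).map _ (ma_split W V' hcomp.symm M hWinv hc.inv)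
    · rcases hB with hB | hB
      · exact (j2_good hA hB).map _ (ma_split V' W hcomp M hc.inv hWinv)
      · exact (j2_j2 hK hA hB).map _ (ma_split V' W hcomp M hc.inv hWinv)
-- END ma

-- BEGIN mb
private theorem mb_indep {n : ℕ} {N : Module.End K V} {e : V} (h0 : N ^ n = 0)
    (h1 : (N ^ (n - 1)) e ≠ 0) : LinearIndependent K (fun i : Fin n => (N ^ (i : ℕ)) e) := by
  rw [Fintype.linearIndependent_iff]
  intro c hc
  have key : ∀ k : ℕ, ∀ i : Fin n, (i : ℕ) = k → c i = 0 := by
    intro k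
    induction k using Nat.strong_induction_on with
    | _ k ih =>
      intro i hi
      have h2 := congrArg (N ^ (n - 1 - k)) hc
      rw [map_zero, map_sum, Finset.sum_eq_single i] at h2
      · rw [map_smul, ← Module.End.mul_apply, ← pow_add, hi] at h2
        have h3 : n - 1 - k + k = n - 1 := by omega
        rw [h3] at h2
        exact (smul_eq_zero.mp h2).resolve_right h1
      · intro j _ hj
        have hne : (j : ℕ) ≠ i := fun h => hj (Fin.ext h)
        rcases lt_or_gt_of_ne hne with h | h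
        · rw [ih j (by omega) j rfl, zero_smul, map_zero]
        · have h4 : N ^ (n - 1 - k + (j : ℕ)) = 0 := pow_eq_zero_of_le (by omega) h0
          rw [map_smul, ← Module.End.mul_apply, ← pow_add, h4, LinearMap.zero_apply, smul_zero]
      · intro h
        exact absurd (Finset.mem_univ i) h
  exact fun i => key i i rfl

/-- MODULE mb. `e` with `(X-1)^(n-1) e ≠ 0`: `e, N e, .., N^(n-1) e` is a basis (`N = X - 1`, `N^n = 0`); map the basis of `X` to the one of `Y`. -/
theorem RU.conj [FiniteDimensional K V] {X Y : Module.End K V} (hX : RU X) (hY : RU Y) :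
    ∃ P : V ≃ₗ[K] V, ∀ x, P (X x) = Y (P x) := by
  obtain ⟨hX0, hX1⟩ := hX
  obtain ⟨hY0, hY1⟩ := hY
  obtain ⟨e, he⟩ : ∃ e, ((X - 1) ^ (finrank K V - 1)) e ≠ 0 := by
    by_contra h
    push Not at h
    exact hX1 (LinearMap.ext h)
  obtain ⟨f, hf⟩ : ∃ f, ((Y - 1) ^ (finrank K V - 1)) f ≠ 0 := by
    by_contra h
    push Not at h
    exact hY1 (LinearMap.ext h)
  have hpos : 0 < finrank K V := by
    rcases Nat.eq_zero_or_pos (finrank K V) with h | h
    · exfalso
      have : Subsingleton V := finrank_zero_iff.mp h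
      exact he (Subsingleton.elim _ _)
    · exact h
  have : Nonempty (Fin (finrank K V)) := ⟨⟨0, hpos⟩⟩
  let bX := basisOfLinearIndependentOfCardEqFinrank (mb_indep hX0 he) (Fintype.card_fin _)
  let bY := basisOfLinearIndependentOfCardEqFinrank (mb_indep hY0 hf) (Fintype.card_fin _)
  let P : V ≃ₗ[K] V := bX.equiv bY (Equiv.refl _)
  have hP : ∀ i : ℕ, P (((X - 1) ^ i) e) = ((Y - 1) ^ i) f := by
    intro i
    rcases lt_or_ge i (finrank K V) with h | h
    · have h1 : bX ⟨i, h⟩ = ((X - 1) ^ i) e := by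
        rw [coe_basisOfLinearIndependentOfCardEqFinrank]
      have h2 : bY ⟨i, h⟩ = ((Y - 1) ^ i) f := by
        rw [coe_basisOfLinearIndependentOfCardEqFinrank]
      rw [← h1, ← h2]
      exact Module.Basis.equiv_apply _ _ _ _
    · rw [pow_eq_zero_of_le h hX0, pow_eq_zero_of_le h hY0, LinearMap.zero_apply,
        LinearMap.zero_apply, map_zero]
  refine ⟨P, fun x => ?_⟩
  have h1 : P.toLinearMap ∘ₗ (X - 1) = (Y - 1) ∘ₗ P.toLinearMap := by
    refine bX.ext fun i => ?_
    have h2 : bX i = ((X - 1) ^ (i : ℕ)) e := by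
      rw [coe_basisOfLinearIndependentOfCardEqFinrank]
    rw [h2]
    show P ((X - 1) (((X - 1) ^ (i : ℕ)) e)) = (Y - 1) (P (((X - 1) ^ (i : ℕ)) e))
    rw [hP, ← Module.End.mul_apply, ← pow_succ', hP, ← Module.End.mul_apply, ← pow_succ']
  have h2 := LinearMap.congr_fun h1 x
  have h3 : P (X x - x) = Y (P x) - P x := h2
  rw [map_sub] at h3
  exact sub_left_injective h3
-- END mb

-- BEGIN mc
private theorem mc_unit {X : Module.End K V} (h : RU X) : IsUnit X := by
  have h1 : IsNilpotent (X - 1) := ⟨_, h.1⟩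
  have := h1.isUnit_one_add
  rwa [add_sub_cancel] at this

private theorem mc_det (hK : Nat.card K = 2) {n : ℕ} {X : Module.End K (Fin n → K)} (h : IsUnit X) :
    (LinearMap.toMatrix' X).det = 1 := by
  rw [LinearMap.det_toMatrix']
  rcases el2 hK (LinearMap.det X) with h0 | h1
  · exact absurd h0 (LinearMap.isUnit_det X h).ne_zero
  · exact h1

private def mc_sl {n : ℕ} (X : Module.End K (Fin n → K)) (h : (LinearMap.toMatrix' X).det = 1) :
    Matrix.SpecialLinearGroup (Fin n) K := ⟨LinearMap.toMatrix' X, h⟩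

private theorem mc_conj (hK : Nat.card K = 2) {n : ℕ} {X Y : Module.End K (Fin n → K)} (hX : RU X) (hY : RU Y)
    (a b : Matrix.SpecialLinearGroup (Fin n) K) (ha : a.1 = LinearMap.toMatrix' X) (hb : b.1 = LinearMap.toMatrix' Y) :
    IsConj a b := by
  obtain ⟨P, hP⟩ := RU.conj hX hY
  have hu : IsUnit (P : Module.End K (Fin n → K)) :=
    (Module.End.isUnit_iff _).2 P.bijective
  let c : Matrix.SpecialLinearGroup (Fin n) K := ⟨LinearMap.toMatrix' (P : Module.End K (Fin n → K)), mc_det hK hu⟩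
  have h1 : c * a = b * c := by
    apply Subtype.ext
    show LinearMap.toMatrix' (P : Module.End K (Fin n → K)) * a.1 = b.1 * LinearMap.toMatrix' (P : Module.End K (Fin n → K))
    rw [ha, hb, ← LinearMap.toMatrix'_comp, ← LinearMap.toMatrix'_comp]
    congr 1
    exact LinearMap.ext hP
  refine isConj_iff.2 ⟨c, ?_⟩
  rw [h1, mul_inv_cancel_right]

/-- MODULE mc. `V = Fin n → K`, `n ≥ 3`. `X0` regular unipotent in `GL_n = SL_n` (`exists`: `Good` for `M = 1`). Every `M ∈ SL_n(K)` is `X Y` (`all_good`; `IsJ2` is impossible as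
`n ≥ 3`), `X = P X0 P⁻¹`, `Y = Q X0 Q⁻¹` (`RU.conj`), all determinants are `1` (`el2`). Then pass to the quotient (`QuotientGroup.mk_surjective`). -/
theorem sl_two (hK : Nat.card K = 2) {n : ℕ} (hn : 3 ≤ n) :
    ThC.CSq (Matrix.SpecialLinearGroup (Fin n) K ⧸
      Subgroup.center (Matrix.SpecialLinearGroup (Fin n) K)) := by
  have hfr : finrank K (Fin n → K) = n := by rw [Module.finrank_fintype_fun_eq_card, Fintype.card_fin]
  have hgood : ∀ M : Module.End K (Fin n → K), (∀ x, M x = 0 → x = 0) → Good M := by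
    intro M hM
    rcases all_good hK n (Fin n → K) M hfr (by omega) hM with h | h
    · exact h
    · exfalso
      have := h.1
      omega
  obtain ⟨X0, -, hX0, -, -⟩ := hgood 1 (fun x hx => hx)
  refine ⟨QuotientGroup.mk (mc_sl X0 (mc_det hK (mc_unit hX0))), fun z => ?_⟩
  obtain ⟨M, rfl⟩ := QuotientGroup.mk_surjective z
  have hMi : ∀ x, (Matrix.toLin' M.1 : Module.End K (Fin n → K)) x = 0 → x = 0 := by
    intro x hx
    have h1 : M⁻¹.1.mulVec (M.1.mulVec x) = x := by
      rw [Matrix.mulVec_mulVec, ← Matrix.SpecialLinearGroup.coe_mul, inv_mul_cancel, Matrix.SpecialLinearGroup.coe_one, Matrix.one_mulVec]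
    have h2 : M.1.mulVec x = 0 := hx
    rw [← h1, h2, Matrix.mulVec_zero]
  obtain ⟨X, Y, hX, hY, hXY⟩ := hgood (Matrix.toLin' M.1) hMi
  have hm : M = mc_sl X (mc_det hK (mc_unit hX)) * mc_sl Y (mc_det hK (mc_unit hY)) := by
    apply Subtype.ext
    show M.1 = LinearMap.toMatrix' X * LinearMap.toMatrix' Y
    rw [← LinearMap.toMatrix'_comp]
    have h1 : LinearMap.toMatrix' (Matrix.toLin' M.1) = LinearMap.toMatrix' (X ∘ₗ Y) := congrArg _ hXY
    rw [← h1, LinearMap.toMatrix'_toLin']
  refine ⟨QuotientGroup.mk (mc_sl X (mc_det hK (mc_unit hX))),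
    QuotientGroup.mk (mc_sl Y (mc_det hK (mc_unit hY))), ?_, ?_, ?_⟩
  · exact MonoidHom.map_isConj (QuotientGroup.mk' (Subgroup.center (Matrix.SpecialLinearGroup (Fin n) K)))
      (mc_conj hK hX0 hX _ _ rfl rfl)
  · exact MonoidHom.map_isConj (QuotientGroup.mk' (Subgroup.center (Matrix.SpecialLinearGroup (Fin n) K)))
      (mc_conj hK hX0 hY _ _ rfl rfl)
  · rw [← QuotientGroup.mk_mul, ← hm]
-- END mc

end ThL
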