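import Pool.Agent.ThL.Defs
import Pool.Agent.ThPL.Cyc

/-! # Triangular matrices and cyclic endomorphisms -/

namespace ThL
open Module Polynomial

variable {K : Type*} [Field K] {V : Type*} [AddCommGroup V] [Module K V]

-- BEGIN ta
/-- MODULE ta. `N = X - 1` maps `span (e_0 .. e_j)` to `span (e_0 .. e_(j-1))`, and `N^j e_j` is a nonzero multiple of `e_0`. -/
theorem ru_of_tri {n : ℕ} (hn : 0 < n) (e : Basis (Fin n) K V) (ee : ℕ → V)
    (hee : ∀ i : Fin n, e i = ee i) (X : Module.End K V) (h0 : X (ee 0) = ee 0)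
    (h : ∀ j, j + 1 < n → ∃ c : K, c ≠ 0 ∧
      X (ee (j + 1)) - ee (j + 1) - c • ee j ∈ Submodule.span K (ee '' {i | i < j})) : RU X := by
  have hfr : finrank K V = n := by
    rw [Module.finrank_eq_card_basis e, Fintype.card_fin]
  have hmono : ∀ {i j : ℕ}, i ≤ j → Submodule.span K (ee '' {l | l < i}) ≤
      Submodule.span K (ee '' {l | l < j}) := by
    intro i j hij
    apply Submodule.span_mono
    apply Set.image_mono
    intro l hl
    exact lt_of_lt_of_le hl hij
  have hmem : ∀ {i j : ℕ}, i < j → ee i ∈ Submodule.span K (ee '' {l | l < j}) := by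
    intro i j hij
    exact Submodule.subset_span ⟨i, hij, rfl⟩
  have hN : ∀ v, (X - 1) v = X v - v := fun v => rfl
  have hA : ∀ j, j < n → (X - 1) (ee j) ∈ Submodule.span K (ee '' {l | l < j}) := by
    intro j hj
    cases j with
    | zero =>
      rw [hN, h0, sub_self]
      exact Submodule.zero_mem _
    | succ j =>
      obtain ⟨c, -, hc⟩ := h j hj
      have : (X - 1) (ee (j + 1)) = (X (ee (j + 1)) - ee (j + 1) - c • ee j) + c • ee j := by
        rw [hN, sub_add_cancel]
      rw [this]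
      exact Submodule.add_mem _ (hmono (Nat.le_succ j) hc)
        (Submodule.smul_mem _ _ (hmem (Nat.lt_succ_self j)))
  have hB : ∀ j, j ≤ n → ∀ x ∈ Submodule.span K (ee '' {l | l < j}), ((X - 1) ^ j) x = 0 := by
    intro j
    induction j with
    | zero =>
      intro _ x hx
      have : (ee '' {l | l < 0}) = ∅ := by
        rw [Set.image_eq_empty]
        ext l
        simp
      rw [this, Submodule.span_empty, Submodule.mem_bot] at hx
      rw [hx, map_zero]
    | succ j ih =>
      intro hj x hx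
      have h1 : Submodule.span K (ee '' {l | l < j + 1}) ≤
          (Submodule.span K (ee '' {l | l < j})).comap (X - 1) := by
        rw [Submodule.span_le]
        rintro _ ⟨l, hl, rfl⟩
        exact hmono (Nat.lt_succ_iff.1 hl) (hA l (lt_of_lt_of_le hl hj))
      rw [pow_succ]
      exact ih (by omega) _ (h1 hx)
  have hC : ∀ j, j < n → ∃ d : K, d ≠ 0 ∧ ((X - 1) ^ j) (ee j) = d • ee 0 := by
    intro j
    induction j with
    | zero =>
      intro _
      exact ⟨1, one_ne_zero, by rw [pow_zero, one_smul]; rfl⟩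
    | succ j ih =>
      intro hj
      obtain ⟨d, hd, hd2⟩ := ih (by omega)
      obtain ⟨c, hc0, hc⟩ := h j hj
      refine ⟨c * d, mul_ne_zero hc0 hd, ?_⟩
      have h2 : (X - 1) (ee (j + 1)) = (X (ee (j + 1)) - ee (j + 1) - c • ee j) + c • ee j := by
        rw [hN, sub_add_cancel]
      rw [pow_succ]
      show ((X - 1) ^ j) ((X - 1) (ee (j + 1))) = _
      rw [h2, map_add, hB j (by omega) _ hc, zero_add, map_smul, hd2, smul_smul]
  refine ⟨?_, ?_⟩
  · rw [hfr]
    apply e.ext
    intro i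
    rw [hee i, hB n le_rfl _ (hmem i.2)]
    rfl
  · rw [hfr]
    intro h3
    obtain ⟨d, hd, hd2⟩ := hC (n - 1) (by omega)
    rw [h3] at hd2
    have h4 : ee 0 ≠ 0 := by
      have := e.ne_zero ⟨0, hn⟩
      rwa [hee] at this
    have h5 : d • ee 0 = 0 := by
      rw [← hd2]
      rfl
    rcases smul_eq_zero.1 h5 with h6 | h6
    · exact hd h6
    · exact h4 h6

/-- the same for a lower triangular matrix (reversed basis) -/
theorem ru_of_low {n : ℕ} (hn : 0 < n) (e : Basis (Fin n) K V) (ee : ℕ → V)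
    (hee : ∀ i : Fin n, e i = ee i) (X : Module.End K V) (h0 : X (ee (n - 1)) = ee (n - 1))
    (h : ∀ j, j + 1 < n → ∃ c : K, c ≠ 0 ∧
      X (ee j) - ee j - c • ee (j + 1) ∈ Submodule.span K (ee '' {i | j + 1 < i ∧ i < n})) : RU X := by
  refine ru_of_tri hn (e.reindex Fin.revPerm) (fun i => ee (n - 1 - i)) ?_ X ?_ ?_
  · intro i
    rw [Basis.reindex_apply, hee]
    have : ((Fin.revPerm.symm i : Fin n) : ℕ) = n - 1 - i := by
      rw [Fin.revPerm_symm, Fin.revPerm_apply, Fin.val_rev]
      omega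
    rw [this]
  · show X (ee (n - 1 - 0)) = ee (n - 1 - 0)
    rw [Nat.sub_zero]
    exact h0
  · intro j hj
    obtain ⟨c, hc, hc2⟩ := h (n - 1 - (j + 1)) (by omega)
    refine ⟨c, hc, ?_⟩
    have h1 : n - 1 - (j + 1) + 1 = n - 1 - j := by omega
    rw [h1] at hc2
    refine Submodule.span_mono ?_ hc2
    rintro _ ⟨i, ⟨hi1, hi2⟩, rfl⟩
    refine ⟨n - 1 - i, ?_, ?_⟩
    · show n - 1 - i < j
      omega
    · show ee (n - 1 - (n - 1 - i)) = ee i
      congr 1
      omega
-- END ta

-- BEGIN tb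
/-- MODULE tb. `U` with `U e_j = u_j` (`j + 1 < n`), `U e_(n-1) = L⁻¹ M e_(n-1)` (`L` is invertible): `M = L U`. `U e_(n-1) = Σ d_k e_k`, `d_(n-1) ≠ 0` (otherwise the
injective `U` maps into a proper subspace), so `d_(n-1) = 1` (`el2`), and `0 = e.repr (M e_(n-1)) (n-1) = d_(n-1) + d_(n-2)` by `hLc`, so `d_(n-2) = 1`
(`two2`). Now `ru_of_tri`. -/
theorem lu_good [FiniteDimensional K V] (hK : Nat.card K = 2) {n : ℕ} (hn : 2 ≤ n) (e : Basis (Fin n) K V) (ee : ℕ → V)
    (hee : ∀ i : Fin n, e i = ee i) (L M : Module.End K V) (hL : RU L) (hM : ∀ x, M x = 0 → x = 0)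
    (u : ℕ → V) (hu0 : u 0 = ee 0)
    (hu : ∀ j, j + 2 < n → u (j + 1) - ee (j + 1) - ee j ∈ Submodule.span K (ee '' {i | i < j}))
    (hLu : ∀ j, j + 1 < n → M (ee j) = L (u j))
    (hLc : ∀ x, e.repr (L x) ⟨n - 1, by omega⟩ =
      e.repr x ⟨n - 1, by omega⟩ + e.repr x ⟨n - 2, by omega⟩)
    (hc : e.repr (M (ee (n - 1))) ⟨n - 1, by omega⟩ = 0) : Good M := by
  have hee' : ∀ i (h : i < n), ee i = e ⟨i, h⟩ := fun i h => (hee ⟨i, h⟩).symm
  have hunit : IsUnit L := by
    have h1 : IsNilpotent (L - 1) := ⟨_, hL.1⟩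
    have h2 := h1.isUnit_one_add
    rwa [add_sub_cancel] at h2
  obtain ⟨L', hL'⟩ := hunit
  let U : Module.End K V := (↑L'⁻¹ : Module.End K V) * M
  have hLU : L * U = M := by
    show L * ((↑L'⁻¹ : Module.End K V) * M) = M
    rw [← mul_assoc, ← hL', Units.mul_inv, one_mul]
  have hUa : ∀ x y, M x = L y → U x = y := by
    intro x y hxy
    show (↑L'⁻¹ : Module.End K V) (M x) = y
    rw [hxy, ← hL', ← Module.End.mul_apply, Units.inv_mul, Module.End.one_apply]
  have hUj : ∀ j, j + 1 < n → U (ee j) = u j := fun j hj => hUa _ _ (hLu j hj)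
  have hLUa : ∀ x, L (U x) = M x := fun x => by
    rw [← Module.End.mul_apply, hLU]
  have hUinj : Function.Injective U := by
    rw [← LinearMap.ker_eq_bot, LinearMap.ker_eq_bot']
    intro x hx
    apply hM
    rw [← hLUa, hx, map_zero]
  have hUsur : Function.Surjective U := LinearMap.injective_iff_surjective.1 hUinj
  have hco : ∀ (i k : ℕ) (hi : i < n) (hk : k < n), e.repr (ee i) ⟨k, hk⟩ = if i = k then 1 else 0 := by
    intro i k hi hk
    rw [hee' i hi, Basis.repr_self, Finsupp.single_apply]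
    simp only [Fin.mk.injEq]
  have hsp : ∀ (k j : ℕ) (hk : k < n) (hj : j ≤ k) (w : V), w ∈ Submodule.span K (ee '' {i | i < j}) →
      e.repr w ⟨k, hk⟩ = 0 := by
    intro k j hk hj w hw
    have h1 : Submodule.span K (ee '' {i | i < j}) ≤ LinearMap.ker (e.coord ⟨k, hk⟩) := by
      rw [Submodule.span_le]
      rintro _ ⟨i, hi, rfl⟩
      have hi' : i < j := hi
      rw [SetLike.mem_coe, LinearMap.mem_ker, Basis.coord_apply, hco i k (by omega) hk, if_neg (by omega)]
    have h2 := h1 hw
    rwa [LinearMap.mem_ker, Basis.coord_apply] at h2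
  have hu1 : ∀ j, j + 1 < n → e.repr (u j) ⟨n - 1, by omega⟩ = 0 := by
    intro j hj
    rcases Nat.eq_zero_or_pos j with rfl | hj0
    · rw [hu0, hco 0 (n - 1) (by omega) (by omega), if_neg (by omega)]
    · obtain ⟨i, rfl⟩ : ∃ i, j = i + 1 := ⟨j - 1, by omega⟩
      have h1 := hsp (n - 1) i (by omega) (by omega) _ (hu i (by omega))
      rw [map_sub, map_sub, Finsupp.sub_apply, Finsupp.sub_apply, hco (i + 1) (n - 1) (by omega) (by omega),
        hco i (n - 1) (by omega) (by omega), if_neg (by omega), if_neg (by omega), sub_zero, sub_zero] at h1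
      exact h1
  have hd1 : e.repr (U (ee (n - 1))) ⟨n - 1, by omega⟩ = 1 := by
    rcases el2 hK (e.repr (U (ee (n - 1))) ⟨n - 1, by omega⟩) with h | h
    · exfalso
      have h1 : (e.coord ⟨n - 1, by omega⟩) ∘ₗ U = 0 := by
        apply e.ext
        intro i
        rw [LinearMap.comp_apply, Basis.coord_apply, LinearMap.zero_apply, hee i]
        by_cases hi : (i : ℕ) = n - 1
        · rw [hi]
          exact h
        · have hi2 := i.2
          rw [hUj i (by omega)]
          exact hu1 i (by omega)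
      obtain ⟨x, hx⟩ := hUsur (ee (n - 1))
      have h2 := LinearMap.congr_fun h1 x
      rw [LinearMap.comp_apply, hx, Basis.coord_apply, hco (n - 1) (n - 1) (by omega) (by omega), if_pos rfl,
        LinearMap.zero_apply] at h2
      exact one_ne_zero h2
    · exact h
  have hd2 : e.repr (U (ee (n - 1))) ⟨n - 2, by omega⟩ = 1 := by
    have h1 := hLc (U (ee (n - 1)))
    rw [hLUa, hc, hd1] at h1
    have h2 := two2 (K := K) hK
    linear_combination -h1 - h2
  refine ⟨L, U, hL, ?_, hLU.symm⟩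
  refine ru_of_tri (by omega) e ee hee U ?_ ?_
  · rw [hUj 0 (by omega), hu0]
  · intro j hj
    refine ⟨1, one_ne_zero, ?_⟩
    rw [one_smul]
    by_cases hj2 : j + 2 < n
    · rw [hUj (j + 1) (by omega)]
      exact hu j hj2
    · have hjn : j + 1 = n - 1 := by omega
      have hjn' : j = n - 2 := by omega
      rw [← e.sum_repr (U (ee (j + 1)) - ee (j + 1) - ee j)]
      apply Submodule.sum_mem
      intro i _
      have hi2 := i.2
      by_cases hi : (i : ℕ) < j
      · apply Submodule.smul_mem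
        rw [hee i]
        exact Submodule.subset_span ⟨i, hi, rfl⟩
      · have h0 : e.repr (U (ee (j + 1)) - ee (j + 1) - ee j) i = 0 := by
          rw [map_sub, map_sub, Finsupp.sub_apply, Finsupp.sub_apply]
          rcases (by omega : (i : ℕ) = n - 1 ∨ (i : ℕ) = n - 2) with h | h
          · have hi' : i = ⟨n - 1, by omega⟩ := Fin.ext h
            rw [hi', hjn, hd1, hco (n - 1) (n - 1) (by omega) (by omega), hco j (n - 1) (by omega) (by omega),
              if_pos rfl, if_neg (by omega)]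
            ring
          · have hi' : i = ⟨n - 2, by omega⟩ := Fin.ext h
            rw [hi', hjn, hd2, hco (n - 1) (n - 2) (by omega) (by omega), hco j (n - 2) (by omega) (by omega),
              if_neg (by omega), if_pos (by omega)]
            ring
        rw [h0, zero_smul]
        exact Submodule.zero_mem _
-- END tb

-- BEGIN tc
private theorem tc_repr {n : ℕ} (e : Basis (Fin n) K V) (ee : ℕ → V)
    (hee : ∀ i : Fin n, e i = ee i) (i : ℕ) (hi : i < n) (j : Fin n) :
    e.repr (ee i) j = if i = (j : ℕ) then 1 else 0 := by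
  have h := hee ⟨i, hi⟩
  have h' : ee i = e ⟨i, hi⟩ := h.symm
  rw [h', e.repr_self, Finsupp.single_apply]
  by_cases hij : i = (j : ℕ)
  · rw [if_pos hij, if_pos (Fin.ext hij)]
  · rw [if_neg hij, if_neg (fun hh => hij (by rw [← hh]))]

/-- MODULE tc. `L e_i = e_i + e_(i+1)` (`i + 1 < n`), `L e_(n-1) = e_(n-1)`; `u_0 = e_0`, `u_j = e_(j-1) + e_j`. The diagonal entries of `M` in the basis `e` are
`1, 0, .., 0, c`, so `trace M = 1` gives `c = 0` (`LinearMap.trace_eq_matrix_trace`, `LinearMap.toMatrix_apply`). `ru_of_low`, `lu_good`. -/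
theorem good_tr1 [FiniteDimensional K V] (hK : Nat.card K = 2) {n : ℕ} (hn : 2 ≤ n) (e : Basis (Fin n) K V) (ee : ℕ → V)
    (hee : ∀ i : Fin n, e i = ee i) (M : Module.End K V) (hM : ∀ x, M x = 0 → x = 0)
    (h0 : M (ee 0) = ee 0 + ee 1) (h : ∀ j, j + 2 < n → M (ee (j + 1)) = ee j + ee (j + 2))
    (ht : LinearMap.trace K V M = 1) : Good M := by
  classical
  have ht2 : (2 : K) = 0 := two2 hK
  have hxx : ∀ x : V, x + x = 0 := by
    intro x
    rw [← two_smul K x, ht2, zero_smul]
  have hr := tc_repr e ee hee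
  let l : ℕ → V := fun i => if i + 1 < n then ee i + ee (i + 1) else ee i
  let L : Module.End K V := e.constr K (fun i : Fin n => l i)
  have hLe : ∀ i, i < n → L (ee i) = l i := by
    intro i hi
    have h' : ee i = e ⟨i, hi⟩ := (hee ⟨i, hi⟩).symm
    rw [h']
    exact e.constr_basis K (fun i : Fin n => l i) ⟨i, hi⟩
  have hLm : ∀ i, i + 1 < n → L (ee i) = ee i + ee (i + 1) := by
    intro i h2'
    rw [hLe i (by omega)]
    exact if_pos h2'
  have hLl : L (ee (n - 1)) = ee (n - 1) := by
    rw [hLe (n - 1) (by omega)]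
    exact if_neg (by omega)
  have hRU : RU L := by
    refine ru_of_low (by omega) e ee hee L hLl ?_
    intro j hj
    refine ⟨1, one_ne_zero, ?_⟩
    have : L (ee j) - ee j - (1 : K) • ee (j + 1) = 0 := by
      rw [hLm j hj, one_smul]
      abel
    rw [this]
    exact Submodule.zero_mem _
  let u : ℕ → V := fun j => if j = 0 then ee 0 else ee (j - 1) + ee j
  have hu0 : u 0 = ee 0 := if_pos rfl
  have hu1 : ∀ j, u (j + 1) = ee j + ee (j + 1) := fun j => if_neg (by omega)
  refine lu_good hK (by omega) e ee hee L M hRU hM u hu0 ?_ ?_ ?_ ?_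
  · intro j hj
    have : u (j + 1) - ee (j + 1) - ee j = 0 := by
      rw [hu1]
      abel
    rw [this]
    exact Submodule.zero_mem _
  · intro j hj
    rcases j with _ | j
    · rw [hu0, h0, hLm 0 (by omega)]
    · rw [hu1, h j (by omega), map_add, hLm j (by omega), hLm (j + 1) (by omega)]
      have e3 := hxx (ee (j + 1))
      calc ee j + ee (j + 2) = ee j + 0 + ee (j + 2) := by abel
        _ = ee j + (ee (j + 1) + ee (j + 1)) + ee (j + 2) := by rw [e3]
        _ = ee j + ee (j + 1) + (ee (j + 1) + ee (j + 1 + 1)) := by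
          rw [show j + 1 + 1 = j + 2 from rfl]; abel
  · intro x
    have hlin : (e.coord ⟨n - 1, by omega⟩) ∘ₗ L =
        e.coord ⟨n - 1, by omega⟩ + e.coord ⟨n - 2, by omega⟩ := by
      refine e.ext ?_
      intro i
      have hi : (i : ℕ) < n := i.2
      rw [hee i]
      show e.repr (L (ee i)) ⟨n - 1, by omega⟩ = e.repr (ee i) ⟨n - 1, by omega⟩ +
        e.repr (ee i) ⟨n - 2, by omega⟩
      by_cases hl : (i : ℕ) + 1 < n
      · rw [hLm i hl, map_add, Finsupp.add_apply, hr i hi, hr (i + 1) hl, hr i hi]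
        rw [if_neg (by show ¬ (i : ℕ) = n - 1; omega)]
        by_cases hi2 : (i : ℕ) + 1 = n - 1
        · rw [if_pos (by show (i : ℕ) + 1 = n - 1; omega),
            if_pos (by show (i : ℕ) = n - 2; omega)]
        · rw [if_neg (by show ¬ (i : ℕ) + 1 = n - 1; omega),
            if_neg (by show ¬ (i : ℕ) = n - 2; omega)]
      · have hi1 : (i : ℕ) = n - 1 := by omega
        rw [hi1, hLl, hr (n - 1) (by omega), hr (n - 1) (by omega)]
        rw [if_pos (by show n - 1 = n - 1; rfl), if_neg (by show ¬ n - 1 = n - 2; omega),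
          add_zero]
    have := LinearMap.congr_fun hlin x
    exact this
  · have htr : LinearMap.trace K V M = ∑ i : Fin n, e.repr (M (ee i)) i := by
      rw [LinearMap.trace_eq_matrix_trace K e M]
      refine Finset.sum_congr rfl ?_
      intro i _
      rw [Matrix.diag_apply, LinearMap.toMatrix_apply, hee i]
    let d : ℕ → K := fun i => if i = 0 then 1 else
      if i = n - 1 then e.repr (M (ee (n - 1))) ⟨n - 1, by omega⟩ else 0
    have hd : ∀ i : Fin n, e.repr (M (ee i)) i = d i := by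
      intro i
      have hi : (i : ℕ) < n := i.2
      show _ = (if (i : ℕ) = 0 then (1 : K) else
        if (i : ℕ) = n - 1 then e.repr (M (ee (n - 1))) ⟨n - 1, by omega⟩ else 0)
      by_cases hz : (i : ℕ) = 0
      · rw [if_pos hz, hz, h0, map_add, Finsupp.add_apply,
          hr 0 (by omega), hr 1 (by omega), hz, if_pos rfl, if_neg (by omega), add_zero]
      rw [if_neg hz]
      by_cases hl : (i : ℕ) = n - 1
      · rw [if_pos hl]
        have hi' : i = ⟨n - 1, by omega⟩ := Fin.ext hl
        rw [hi']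
      rw [if_neg hl]
      obtain ⟨j, hj⟩ : ∃ j, (i : ℕ) = j + 1 := ⟨(i : ℕ) - 1, by omega⟩
      rw [hj, h j (by omega), map_add, Finsupp.add_apply, hr j (by omega),
        hr (j + 2) (by omega), if_neg (by omega), if_neg (by omega), add_zero]
    have hsum : ∑ i : Fin n, e.repr (M (ee i)) i = ∑ i ∈ Finset.range n, d i := by
      rw [Finset.sum_congr rfl (fun i _ => hd i)]
      exact Fin.sum_univ_eq_sum_range d n
    have hsplit : ∀ i ∈ Finset.range n, d i = (if i = 0 then (1 : K) else 0) +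
        (if i = n - 1 then e.repr (M (ee (n - 1))) ⟨n - 1, by omega⟩ else 0) := by
      intro i _
      show (if i = 0 then (1 : K) else
        if i = n - 1 then e.repr (M (ee (n - 1))) ⟨n - 1, by omega⟩ else 0) = _
      by_cases hz : i = 0
      · rw [if_pos hz, if_pos hz, if_neg (by omega), add_zero]
      · rw [if_neg hz, if_neg hz, zero_add]
    rw [hsum, Finset.sum_congr rfl hsplit, Finset.sum_add_distrib,
      Finset.sum_ite_eq', Finset.sum_ite_eq',
      if_pos (Finset.mem_range.2 (by omega)), if_pos (Finset.mem_range.2 (by omega)), ht] at htr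
    exact (add_left_cancel (a := (1 : K)) (by rw [add_zero]; exact htr)).symm
-- END tc

-- BEGIN td
private theorem td_repr {n : ℕ} (e : Basis (Fin n) K V) (ee : ℕ → V)
    (hee : ∀ i : Fin n, e i = ee i) (i : ℕ) (hi : i < n) (j : Fin n) :
    e.repr (ee i) j = if i = (j : ℕ) then 1 else 0 := by
  have h := hee ⟨i, hi⟩
  have h' : ee i = e ⟨i, hi⟩ := h.symm
  rw [h', e.repr_self, Finsupp.single_apply]
  by_cases hij : i = (j : ℕ)
  · rw [if_pos hij, if_pos (Fin.ext hij)]
  · rw [if_neg hij, if_neg (fun hh => hij (by rw [← hh]))]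

/-- MODULE td. `L e_0 = e_0 + e_1 + e_2`, `L e_i = e_i + e_(i+1)` (`1 ≤ i`, `i + 1 < n`), `L e_(n-1) = e_(n-1)`; `u_0 = e_0`, `u_1 = e_0 + e_1`, `u_2 = e_0 + e_1 + e_2`,
`u_j = e_(j-1) + e_j` (`3 ≤ j`). Diagonal of `M`: `1, 0, 1, 0, .., 0, c`. -/
theorem good_tr0 [FiniteDimensional K V] (hK : Nat.card K = 2) {n : ℕ} (hn : 4 ≤ n) (e : Basis (Fin n) K V) (ee : ℕ → V)
    (hee : ∀ i : Fin n, e i = ee i) (M : Module.End K V) (hM : ∀ x, M x = 0 → x = 0)
    (h1 : M (ee 1) = ee 0) (h0 : M (ee 0) = ee 0 + ee 1 + ee 2) (h2 : M (ee 2) = ee 0 + ee 2 + ee 3)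
    (h : ∀ j, j + 4 < n → M (ee (j + 3)) = ee (j + 2) + ee (j + 4))
    (ht : LinearMap.trace K V M = 0) : Good M := by
  classical
  have ht2 : (2 : K) = 0 := two2 hK
  have hxx : ∀ x : V, x + x = 0 := by
    intro x
    rw [← two_smul K x, ht2, zero_smul]
  have hr := td_repr e ee hee
  -- the lower triangular factor
  let l : ℕ → V := fun i => if i = 0 then ee 0 + ee 1 + ee 2 else
    if i + 1 < n then ee i + ee (i + 1) else ee i
  let L : Module.End K V := e.constr K (fun i : Fin n => l i)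
  have hLe : ∀ i, i < n → L (ee i) = l i := by
    intro i hi
    have h' : ee i = e ⟨i, hi⟩ := (hee ⟨i, hi⟩).symm
    rw [h']
    exact e.constr_basis K (fun i : Fin n => l i) ⟨i, hi⟩
  have hL0 : L (ee 0) = ee 0 + ee 1 + ee 2 := by
    rw [hLe 0 (by omega)]
    exact if_pos rfl
  have hLm : ∀ i, 1 ≤ i → i + 1 < n → L (ee i) = ee i + ee (i + 1) := by
    intro i h1' h2'
    rw [hLe i (by omega)]
    show (if i = 0 then ee 0 + ee 1 + ee 2 else
      if i + 1 < n then ee i + ee (i + 1) else ee i) = _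
    rw [if_neg (by omega), if_pos h2']
  have hLl : L (ee (n - 1)) = ee (n - 1) := by
    rw [hLe (n - 1) (by omega)]
    show (if n - 1 = 0 then ee 0 + ee 1 + ee 2 else
      if n - 1 + 1 < n then ee (n - 1) + ee (n - 1 + 1) else ee (n - 1)) = _
    rw [if_neg (by omega), if_neg (by omega)]
  have hRU : RU L := by
    refine ru_of_low (by omega) e ee hee L hLl ?_
    intro j hj
    refine ⟨1, one_ne_zero, ?_⟩
    rcases Nat.eq_zero_or_pos j with h0' | hp
    · subst h0'
      have : L (ee 0) - ee 0 - (1 : K) • ee (0 + 1) = ee 2 := by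
        rw [hL0, one_smul]
        abel
      rw [this]
      exact Submodule.subset_span ⟨2, ⟨by omega, by omega⟩, rfl⟩
    · have : L (ee j) - ee j - (1 : K) • ee (j + 1) = 0 := by
        rw [hLm j hp hj, one_smul]
        abel
      rw [this]
      exact Submodule.zero_mem _
  -- the upper triangular factor
  let u : ℕ → V := fun j => if j = 0 then ee 0 else if j = 1 then ee 0 + ee 1 else
    if j = 2 then ee 0 + ee 1 + ee 2 else ee (j - 1) + ee j
  have hu0 : u 0 = ee 0 := if_pos rfl
  have hu1 : u 1 = ee 0 + ee 1 := by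
    show (if (1 : ℕ) = 0 then ee 0 else if (1 : ℕ) = 1 then ee 0 + ee 1 else
      if (1 : ℕ) = 2 then ee 0 + ee 1 + ee 2 else ee (1 - 1) + ee 1) = _
    rw [if_neg (by omega), if_pos rfl]
  have hu2 : u 2 = ee 0 + ee 1 + ee 2 := by
    show (if (2 : ℕ) = 0 then ee 0 else if (2 : ℕ) = 1 then ee 0 + ee 1 else
      if (2 : ℕ) = 2 then ee 0 + ee 1 + ee 2 else ee (2 - 1) + ee 2) = _
    rw [if_neg (by omega), if_neg (by omega), if_pos rfl]
  have hu3 : ∀ j, u (j + 3) = ee (j + 2) + ee (j + 3) := by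
    intro j
    show (if j + 3 = 0 then ee 0 else if j + 3 = 1 then ee 0 + ee 1 else
      if j + 3 = 2 then ee 0 + ee 1 + ee 2 else ee (j + 3 - 1) + ee (j + 3)) = _
    rw [if_neg (by omega), if_neg (by omega), if_neg (by omega)]
    rfl
  refine lu_good hK (by omega) e ee hee L M hRU hM u hu0 ?_ ?_ ?_ ?_
  · -- `U` is upper triangular
    intro j hj
    rcases j with _ | _ | j
    · have : u (0 + 1) - ee (0 + 1) - ee 0 = 0 := by
        rw [show (0 + 1 : ℕ) = 1 from rfl, hu1]
        abel
      rw [this]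
      exact Submodule.zero_mem _
    · have : u (0 + 1 + 1) - ee (0 + 1 + 1) - ee (0 + 1) = ee 0 := by
        rw [show (0 + 1 + 1 : ℕ) = 2 from rfl, show (0 + 1 : ℕ) = 1 from rfl, hu2]
        abel
      rw [this]
      exact Submodule.subset_span ⟨0, by show (0 : ℕ) < 0 + 1; omega, rfl⟩
    · have : u (j + 1 + 1 + 1) - ee (j + 1 + 1 + 1) - ee (j + 1 + 1) = 0 := by
        rw [show j + 1 + 1 + 1 = j + 3 from rfl, show j + 1 + 1 = j + 2 from rfl, hu3]
        abel
      rw [this]
      exact Submodule.zero_mem _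
  · -- `M = L U`
    intro j hj
    rcases j with _ | _ | _ | j
    · rw [hu0, h0, hL0]
    · rw [show (0 + 1 : ℕ) = 1 from rfl, hu1, h1, map_add, hL0, hLm 1 (by omega) (by omega)]
      have e1 := hxx (ee 1)
      have e2 := hxx (ee 2)
      calc ee 0 = ee 0 + 0 + 0 := by abel
        _ = ee 0 + (ee 1 + ee 1) + (ee 2 + ee 2) := by rw [e1, e2]
        _ = ee 0 + ee 1 + ee 2 + (ee 1 + ee (1 + 1)) := by
          rw [show (1 + 1 : ℕ) = 2 from rfl]; abel
    · rw [show (0 + 1 + 1 : ℕ) = 2 from rfl, hu2, h2, map_add, map_add, hL0,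
        hLm 1 (by omega) (by omega), hLm 2 (by omega) (by omega)]
      have e1 := hxx (ee 1)
      have e2 := hxx (ee 2)
      calc ee 0 + ee 2 + ee 3 = ee 0 + 0 + 0 + ee 2 + ee 3 := by abel
        _ = ee 0 + (ee 1 + ee 1) + (ee 2 + ee 2) + ee 2 + ee 3 := by rw [e1, e2]
        _ = ee 0 + ee 1 + ee 2 + (ee 1 + ee (1 + 1)) + (ee 2 + ee (2 + 1)) := by
          rw [show (1 + 1 : ℕ) = 2 from rfl, show (2 + 1 : ℕ) = 3 from rfl]; abel
    · rw [show j + 1 + 1 + 1 = j + 3 from rfl, hu3, h j (by omega), map_add,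
        hLm (j + 2) (by omega) (by omega), hLm (j + 3) (by omega) (by omega)]
      have e3 := hxx (ee (j + 3))
      calc ee (j + 2) + ee (j + 4) = ee (j + 2) + 0 + ee (j + 4) := by abel
        _ = ee (j + 2) + (ee (j + 3) + ee (j + 3)) + ee (j + 4) := by rw [e3]
        _ = ee (j + 2) + ee (j + 2 + 1) + (ee (j + 3) + ee (j + 3 + 1)) := by
          rw [show j + 2 + 1 = j + 3 from rfl, show j + 3 + 1 = j + 4 from rfl]; abel
  · -- last coordinate of `L`
    intro x
    have hlin : (e.coord ⟨n - 1, by omega⟩) ∘ₗ L =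
        e.coord ⟨n - 1, by omega⟩ + e.coord ⟨n - 2, by omega⟩ := by
      refine e.ext ?_
      intro i
      have hi : (i : ℕ) < n := i.2
      rw [hee i]
      show e.repr (L (ee i)) ⟨n - 1, by omega⟩ = e.repr (ee i) ⟨n - 1, by omega⟩ +
        e.repr (ee i) ⟨n - 2, by omega⟩
      rcases Nat.eq_zero_or_pos (i : ℕ) with hz | hp
      · rw [hz, hL0, map_add, map_add, Finsupp.add_apply, Finsupp.add_apply,
          hr 0 (by omega), hr 1 (by omega), hr 2 (by omega), hr 0 (by omega)]
        rw [if_neg (by show ¬ 0 = n - 1; omega), if_neg (by show ¬ 1 = n - 1; omega),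
          if_neg (by show ¬ 2 = n - 1; omega), if_neg (by show ¬ 0 = n - 2; omega)]
        rw [add_zero, add_zero]
      · by_cases hl : (i : ℕ) + 1 < n
        · rw [hLm i hp hl, map_add, Finsupp.add_apply, hr i hi, hr (i + 1) hl, hr i hi]
          rw [if_neg (by show ¬ (i : ℕ) = n - 1; omega)]
          by_cases hi2 : (i : ℕ) + 1 = n - 1
          · rw [if_pos (by show (i : ℕ) + 1 = n - 1; omega),
              if_pos (by show (i : ℕ) = n - 2; omega)]
          · rw [if_neg (by show ¬ (i : ℕ) + 1 = n - 1; omega),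
              if_neg (by show ¬ (i : ℕ) = n - 2; omega)]
        · have hi1 : (i : ℕ) = n - 1 := by omega
          rw [hi1, hLl, hr (n - 1) (by omega), hr (n - 1) (by omega)]
          rw [if_pos (by show n - 1 = n - 1; rfl), if_neg (by show ¬ n - 1 = n - 2; omega),
            add_zero]
    have := LinearMap.congr_fun hlin x
    exact this
  · -- trace
    have htr : LinearMap.trace K V M = ∑ i : Fin n, e.repr (M (ee i)) i := by
      rw [LinearMap.trace_eq_matrix_trace K e M]
      refine Finset.sum_congr rfl ?_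
      intro i _
      rw [Matrix.diag_apply, LinearMap.toMatrix_apply, hee i]
    let d : ℕ → K := fun i => if i = 0 then 1 else if i = 2 then 1 else
      if i = n - 1 then e.repr (M (ee (n - 1))) ⟨n - 1, by omega⟩ else 0
    have hd : ∀ i : Fin n, e.repr (M (ee i)) i = d i := by
      intro i
      have hi : (i : ℕ) < n := i.2
      show _ = (if (i : ℕ) = 0 then (1 : K) else if (i : ℕ) = 2 then 1 else
        if (i : ℕ) = n - 1 then e.repr (M (ee (n - 1))) ⟨n - 1, by omega⟩ else 0)
      by_cases hz : (i : ℕ) = 0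
      · rw [if_pos hz, hz, h0, map_add, map_add, Finsupp.add_apply, Finsupp.add_apply,
          hr 0 (by omega), hr 1 (by omega), hr 2 (by omega), hz, if_pos rfl,
          if_neg (by omega), if_neg (by omega), add_zero, add_zero]
      rw [if_neg hz]
      by_cases hz2 : (i : ℕ) = 2
      · rw [if_pos hz2, hz2, h2, map_add, map_add, Finsupp.add_apply, Finsupp.add_apply,
          hr 0 (by omega), hr 2 (by omega), hr 3 (by omega), hz2, if_pos rfl,
          if_neg (by omega), if_neg (by omega), add_zero, zero_add]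
      rw [if_neg hz2]
      by_cases hl : (i : ℕ) = n - 1
      · rw [if_pos hl]
        have hi' : i = ⟨n - 1, by omega⟩ := Fin.ext hl
        rw [hi']
      rw [if_neg hl]
      by_cases hz1 : (i : ℕ) = 1
      · rw [hz1, h1, hr 0 (by omega), if_neg (by omega)]
      obtain ⟨j, hj⟩ : ∃ j, (i : ℕ) = j + 3 := ⟨(i : ℕ) - 3, by omega⟩
      rw [hj, h j (by omega), map_add, Finsupp.add_apply, hr (j + 2) (by omega),
        hr (j + 4) (by omega), if_neg (by omega), if_neg (by omega), add_zero]
    have hsum : ∑ i : Fin n, e.repr (M (ee i)) i = ∑ i ∈ Finset.range n, d i := by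
      rw [Finset.sum_congr rfl (fun i _ => hd i)]
      exact Fin.sum_univ_eq_sum_range d n
    have hsplit : ∀ i ∈ Finset.range n, d i = (if i = 0 then (1 : K) else 0) +
        (if i = 2 then (1 : K) else 0) +
        (if i = n - 1 then e.repr (M (ee (n - 1))) ⟨n - 1, by omega⟩ else 0) := by
      intro i _
      show (if i = 0 then (1 : K) else if i = 2 then 1 else
        if i = n - 1 then e.repr (M (ee (n - 1))) ⟨n - 1, by omega⟩ else 0) = _
      by_cases hz : i = 0
      · rw [if_pos hz, if_pos hz, if_neg (by omega), if_neg (by omega), add_zero, add_zero]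
      · rw [if_neg hz, if_neg hz]
        by_cases hz2 : i = 2
        · rw [if_pos hz2, if_pos hz2, if_neg (by omega), zero_add, add_zero]
        · rw [if_neg hz2, if_neg hz2, zero_add, zero_add]
    rw [hsum, Finset.sum_congr rfl hsplit, Finset.sum_add_distrib, Finset.sum_add_distrib,
      Finset.sum_ite_eq', Finset.sum_ite_eq', Finset.sum_ite_eq',
      if_pos (Finset.mem_range.2 (by omega)), if_pos (Finset.mem_range.2 (by omega)),
      if_pos (Finset.mem_range.2 (by omega)), ht] at htr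
    have h11 : (1 : K) + 1 = 0 := by
      rw [one_add_one_eq_two, ht2]
    rw [h11, zero_add] at htr
    exact htr.symm
-- END td

-- BEGIN te
private theorem te_mono {p q : K[X]} (hp : p.Monic) (hq : q.natDegree < p.natDegree + 1) :
    (X * p - q).Monic ∧ (X * p - q).natDegree = p.natDegree + 1 := by
  have h1 : (X * p).natDegree = p.natDegree + 1 := natDegree_X_mul hp.ne_zero
  have h2 : q.natDegree < (X * p).natDegree := by
    rw [h1]
    exact hq
  refine ⟨(monic_X.mul hp).sub_of_left (degree_lt_degree h2), ?_⟩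
  rw [natDegree_sub_eq_left_of_natDegree_lt h2, h1]

private theorem te_basis [FiniteDimensional K V] {M : Module.End K V} {v : V} {n : ℕ} (h : ThPL.Cyc M ⊥ v n)
    (g : ℕ → K[X]) (hg : ∀ k, (g k).Monic) (hlt : ∀ k, k < n → (g k).natDegree < n)
    (hinj : ∀ i j, (g i).natDegree = (g j).natDegree → i = j) :
    ∃ e : Basis (Fin n) K V, ∀ i : Fin n, e i = aeval M (g i) v := by
  obtain ⟨e, _, he⟩ := ThPL.cyc_basis h (Basis.empty (⊥ : Submodule K V) : Basis (Fin 0) K (⊥ : Submodule K V))
    (fun k : Fin n => g k) (fun k => hg k) (fun k => hlt k k.2) (fun i j hij => Fin.ext (hinj i j hij))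
    (Fintype.card_fin n)
  refine ⟨e.reindex (Equiv.emptySum (Fin 0) (Fin n)), fun i => ?_⟩
  rw [Basis.reindex_apply]
  exact he i

private noncomputable def te_g (K : Type*) [Field K] : ℕ → K[X]
  | 0 => 1
  | 1 => X - 1
  | k + 2 => X * te_g K (k + 1) - te_g K k

private theorem te_gdeg (k : ℕ) : ((te_g K k).Monic ∧ (te_g K k).natDegree = k) ∧
    ((te_g K (k + 1)).Monic ∧ (te_g K (k + 1)).natDegree = k + 1) := by
  induction k with
  | zero =>
    refine ⟨⟨monic_one, natDegree_one⟩, ?_⟩
    have h1 := te_mono (K := K) (p := 1) (q := 1) monic_one (by rw [natDegree_one]; omega)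
    rw [mul_one, natDegree_one] at h1
    exact h1
  | succ k ih =>
    refine ⟨ih.2, ?_⟩
    have h1 := te_mono (K := K) (p := te_g K (k + 1)) (q := te_g K k) ih.2.1 (by rw [ih.2.2, ih.1.2]; omega)
    rw [ih.2.2] at h1
    exact h1

private noncomputable def te_f (K : Type*) [Field K] : ℕ → K[X]
  | 0 => X
  | 1 => 1
  | 2 => X * X - (X + 1)
  | 3 => X * (X * X - (X + 1)) - (X + (X * X - (X + 1)))
  | k + 4 => X * te_f K (k + 3) - te_f K (k + 2)

private theorem te_fdeg (k : ℕ) : ((te_f K (k + 2)).Monic ∧ (te_f K (k + 2)).natDegree = k + 2) ∧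
    ((te_f K (k + 3)).Monic ∧ (te_f K (k + 3)).natDegree = k + 3) := by
  induction k with
  | zero =>
    have h1 := te_mono (K := K) (p := X) (q := X + 1) monic_X (by
      rw [natDegree_X]
      refine lt_of_le_of_lt (natDegree_add_le _ _) ?_
      rw [natDegree_X, natDegree_one]
      decide)
    rw [natDegree_X] at h1
    refine ⟨h1, ?_⟩
    have h2 := te_mono (K := K) (p := X * X - (X + 1)) (q := X + (X * X - (X + 1))) h1.1 (by
      rw [h1.2]
      refine lt_of_le_of_lt (natDegree_add_le _ _) ?_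
      rw [natDegree_X, h1.2]
      decide)
    rw [h1.2] at h2
    exact h2
  | succ k ih =>
    refine ⟨ih.2, ?_⟩
    have h1 := te_mono (K := K) (p := te_f K (k + 3)) (q := te_f K (k + 2)) ih.2.1 (by rw [ih.2.2, ih.1.2]; omega)
    rw [ih.2.2] at h1
    exact h1

/-- MODULE te. `ThPL.cyc_basis` with `ι = Fin 0` (basis of `⊥`) and the polynomials `g_0 = 1`, `g_1 = X - 1`, `g_(k+2) = X g_(k+1) - g_k` (monic of degree `k`). -/
theorem ex_bas1 [FiniteDimensional K V] {M : Module.End K V} {v : V} {n : ℕ} (h : ThPL.Cyc M ⊥ v n) (hn : 2 ≤ n) :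
    ∃ (e : Basis (Fin n) K V) (ee : ℕ → V), (∀ i : Fin n, e i = ee i) ∧ M (ee 0) = ee 0 + ee 1 ∧
      ∀ j, M (ee (j + 1)) = ee j + ee (j + 2) := by
  obtain ⟨e, he⟩ := te_basis h (te_g K) (fun k => (te_gdeg k).1.1) (fun k hk => by rw [(te_gdeg k).1.2]; exact hk)
    (fun i j hij => by rwa [(te_gdeg i).1.2, (te_gdeg j).1.2] at hij)
  have hm : ∀ p : K[X], M (aeval M p v) = aeval M (X * p) v := fun p => by
    rw [map_mul, aeval_X]
    rfl
  refine ⟨e, fun k => aeval M (te_g K k) v, he, ?_, fun j => ?_⟩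
  · show M (aeval M (te_g K 0) v) = aeval M (te_g K 0) v + aeval M (te_g K 1) v
    rw [hm, ← LinearMap.add_apply, ← map_add]
    have h1 : X * te_g K 0 = te_g K 0 + te_g K 1 := by
      show X * (1 : K[X]) = 1 + (X - 1)
      ring
    rw [h1]
  · show M (aeval M (te_g K (j + 1)) v) = aeval M (te_g K j) v + aeval M (te_g K (j + 2)) v
    rw [hm, ← LinearMap.add_apply, ← map_add]
    have h1 : X * te_g K (j + 1) = te_g K j + te_g K (j + 2) := by
      show X * te_g K (j + 1) = te_g K j + (X * te_g K (j + 1) - te_g K j)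
      ring
    rw [h1]

/-- polynomials `g_1 = 1`, `g_0 = X`, `g_2 = X g_0 - g_0 - g_1`, `g_3 = X g_2 - g_0 - g_2`, `g_(j+4) = X g_(j+3) - g_(j+2)`; degrees `1, 0, 2, 3, ..`. -/
theorem ex_bas0 [FiniteDimensional K V] {M : Module.End K V} {v : V} {n : ℕ} (h : ThPL.Cyc M ⊥ v n) (hn : 2 ≤ n) :
    ∃ (e : Basis (Fin n) K V) (ee : ℕ → V), (∀ i : Fin n, e i = ee i) ∧ M (ee 1) = ee 0 ∧
      M (ee 0) = ee 0 + ee 1 + ee 2 ∧ M (ee 2) = ee 0 + ee 2 + ee 3 ∧
      ∀ j, M (ee (j + 3)) = ee (j + 2) + ee (j + 4) := by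
  have hd : ∀ k, (te_f K k).Monic ∧ (te_f K k).natDegree = if k = 0 then 1 else if k = 1 then 0 else k := by
    intro k
    match k with
    | 0 => exact ⟨monic_X, natDegree_X⟩
    | 1 => exact ⟨monic_one, natDegree_one⟩
    | k + 2 =>
      refine ⟨(te_fdeg k).1.1, ?_⟩
      rw [(te_fdeg k).1.2, if_neg (by omega), if_neg (by omega)]
  obtain ⟨e, he⟩ := te_basis h (te_f K) (fun k => (hd k).1) (fun k hk => by
      rw [(hd k).2]
      split_ifs <;> omega)
    (fun i j hij => by
      rw [(hd i).2, (hd j).2] at hij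
      split_ifs at hij <;> omega)
  have hm : ∀ p : K[X], M (aeval M p v) = aeval M (X * p) v := fun p => by
    rw [map_mul, aeval_X]
    rfl
  refine ⟨e, fun k => aeval M (te_f K k) v, he, ?_, ?_, ?_, fun j => ?_⟩
  · show M (aeval M (te_f K 1) v) = aeval M (te_f K 0) v
    rw [hm]
    have h1 : X * te_f K 1 = te_f K 0 := by
      show X * (1 : K[X]) = X
      ring
    rw [h1]
  · show M (aeval M (te_f K 0) v) = aeval M (te_f K 0) v + aeval M (te_f K 1) v + aeval M (te_f K 2) v
    rw [hm, ← LinearMap.add_apply, ← map_add, ← LinearMap.add_apply, ← map_add]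
    have h1 : X * te_f K 0 = te_f K 0 + te_f K 1 + te_f K 2 := by
      show X * X = X + 1 + (X * X - (X + 1) : K[X])
      ring
    rw [h1]
  · show M (aeval M (te_f K 2) v) = aeval M (te_f K 0) v + aeval M (te_f K 2) v + aeval M (te_f K 3) v
    rw [hm, ← LinearMap.add_apply, ← map_add, ← LinearMap.add_apply, ← map_add]
    have h1 : X * te_f K 2 = te_f K 0 + te_f K 2 + te_f K 3 := by
      show X * (X * X - (X + 1)) = X + (X * X - (X + 1)) + (X * (X * X - (X + 1)) - (X + (X * X - (X + 1))) : K[X])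
      ring
    rw [h1]
  · show M (aeval M (te_f K (j + 3)) v) = aeval M (te_f K (j + 2)) v + aeval M (te_f K (j + 4)) v
    rw [hm, ← LinearMap.add_apply, ← map_add]
    have h1 : X * te_f K (j + 3) = te_f K (j + 2) + te_f K (j + 4) := by
      show X * te_f K (j + 3) = te_f K (j + 2) + (X * te_f K (j + 3) - te_f K (j + 2))
      ring
    rw [h1]
-- END te

end ThL
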