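import Pool.Agent.ThL.Blk
import Pool.Agent.ThL.Tri

/-! # Small cases -/

namespace ThL
open Module Polynomial

variable {K : Type*} [Field K] {V V1 V2 : Type*} [AddCommGroup V] [Module K V]
  [AddCommGroup V1] [Module K V1] [AddCommGroup V2] [Module K V2]

-- BEGIN sa
/-- MODULE sa. `n = 1`: `M` is a nonzero scalar, so `M = 1`, and `1` is regular unipotent. -/
theorem good_one [FiniteDimensional K V] (hK : Nat.card K = 2) (h1 : finrank K V = 1) (M : Module.End K V)
    (hM : ∀ x, M x = 0 → x = 0) : Good M := by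
  obtain ⟨v, hv, hs⟩ := finrank_eq_one_iff'.1 h1
  obtain ⟨c, hc⟩ := hs (M v)
  have hM1 : M = 1 := by
    have hc1 : c = 1 := by
      rcases el2 hK c with h | h
      · rw [h, zero_smul] at hc
        exact absurd (hM v hc.symm) hv
      · exact h
    rw [hc1, one_smul] at hc
    apply LinearMap.ext
    intro x
    obtain ⟨d, rfl⟩ := hs x
    rw [map_smul, ← hc]
    rfl
  have hR : RU (1 : Module.End K V) := by
    constructor
    · rw [h1, sub_self, pow_one]
    · rw [h1, Nat.sub_self, pow_zero]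
      intro h
      have h2 := congrArg (fun f : Module.End K V => f v) h
      exact hv h2
  exact ⟨1, 1, hR, hR, by rw [hM1, mul_one]⟩

/-- `n = 2`, trace `0`: the characteristic polynomial is `X ^ 2 + 1` (`M ^ 2 = tr M - det M`), so `M ^ 2 = 1`, `(M - 1) ^ 2 = 0`; `M ≠ 1` because `M` is cyclic. -/
theorem j2_of_tr [FiniteDimensional K V] (hK : Nat.card K = 2) {M : Module.End K V} {v : V}
    (h : ThPL.Cyc M ⊥ v 2) (hM : ∀ x, M x = 0 → x = 0) (ht : LinearMap.trace K V M = 0) : IsJ2 M := by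
  have hf : finrank K V = 2 := by
    have h1 := ThPL.cyc_finrank h
    rw [finrank_bot] at h1
    omega
  have li : LinearIndependent K ![v, M v] := by
    rw [LinearIndependent.pair_iff]
    intro s t hst
    have h1 : (C t * X + C s : K[X]).degree < (2 : ℕ) :=
      lt_of_le_of_lt degree_linear_le (by decide)
    have h2 := (h.uniq 0 (Submodule.zero_mem _) (C t * X + C s) h1 (by
      rw [zero_add, map_add, map_mul, aeval_C, aeval_C, aeval_X]
      show (algebraMap K (Module.End K V) t) (M v) + (algebraMap K (Module.End K V) s) v = 0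
      rw [Module.algebraMap_end_apply, Module.algebraMap_end_apply, add_comm]
      exact hst)).2
    constructor
    · have h3 := congrArg (fun p : K[X] => p.coeff 0) h2
      simpa using h3
    · have h3 := congrArg (fun p : K[X] => p.coeff 1) h2
      simpa using h3
  obtain ⟨b, hb⟩ : ∃ b : Basis (Fin 2) K V, ⇑b = ![v, M v] :=
    ⟨basisOfLinearIndependentOfCardEqFinrank li (by rw [Fintype.card_fin, hf]), by
      rw [coe_basisOfLinearIndependentOfCardEqFinrank]⟩
  have hb0 : b 0 = v := by rw [hb]; rfl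
  have hb1 : b 1 = M v := by rw [hb]; rfl
  obtain ⟨α, β, hM2⟩ : ∃ α β : K, M (M v) = α • v + β • M v := by
    obtain ⟨x, hx, g, hg, e⟩ := h.gen (M (M v))
    rw [Submodule.mem_bot] at hx
    have hg1 : g.degree ≤ 1 := by
      have h3 : g.degree < (2 : ℕ) := hg
      rcases eq_or_ne g 0 with h5 | h5
      · rw [h5, degree_zero]
        exact bot_le
      · rw [degree_eq_natDegree h5] at h3 ⊢
        have h6 : g.natDegree < 2 := by exact_mod_cast h3
        exact_mod_cast (by omega : g.natDegree ≤ 1)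
    refine ⟨g.coeff 0, g.coeff 1, ?_⟩
    rw [e, hx, zero_add]
    conv_lhs => rw [eq_X_add_C_of_degree_le_one hg1]
    rw [map_add, map_mul, aeval_C, aeval_C, aeval_X]
    show (algebraMap K (Module.End K V) (g.coeff 1)) (M v) + (algebraMap K (Module.End K V) (g.coeff 0)) v = _
    rw [Module.algebraMap_end_apply, Module.algebraMap_end_apply, add_comm]
  have hβ : β = 0 := by
    have h1 : LinearMap.trace K V M = β := by
      rw [LinearMap.trace_eq_matrix_trace K b, Matrix.trace_fin_two, LinearMap.toMatrix_apply,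
        LinearMap.toMatrix_apply, hb0, hb1, hM2, ← hb1, ← hb0, map_add, map_smul, map_smul,
        Basis.repr_self, Basis.repr_self]
      simp
    rw [← h1, ht]
  rw [hβ, zero_smul, add_zero] at hM2
  have hv : v ≠ 0 := by rw [← hb0]; exact b.ne_zero 0
  have hα : α = 1 := by
    rcases el2 hK α with h1 | h1
    · rw [h1, zero_smul] at hM2
      exact absurd (hM v (hM _ hM2)) hv
    · exact h1
  rw [hα, one_smul] at hM2
  have h22 : ∀ x : V, x + x = 0 := by
    intro x
    rw [← two_smul K x, two2 hK, zero_smul]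
  have hsq : ∀ x : V, ((M - 1) ^ 2 : Module.End K V) x = M (M x) + x - (M x + M x) := by
    intro x
    rw [pow_two]
    show M (M x - x) - (M x - x) = _
    rw [map_sub]
    abel
  refine ⟨hf, ?_, ?_⟩
  · intro h1
    have h2 : b 1 = b 0 := by
      rw [hb0, hb1, h1]
      rfl
    exact absurd (b.injective h2) (by decide)
  · refine b.ext fun i => ?_
    rw [hsq, h22, sub_zero, LinearMap.zero_apply]
    have hi : i = 0 ∨ i = 1 := by omega
    rcases hi with rfl | rfl
    · rw [hb0, hM2, h22]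
    · rw [hb1, hM2, h22]
-- END sa

-- BEGIN sb
private theorem sb_ru {n : ℕ} (e : Basis (Fin n) K V) (f : ZMod 2 →+* K) (A : Matrix (Fin n) (Fin n) (ZMod 2))
    (h1 : (A - 1) ^ n = 0) (h2 : (A - 1) ^ (n - 1) ≠ 0) :
    RU (Matrix.toLinAlgEquiv e (f.mapMatrix A)) := by
  have hn : finrank K V = n := by rw [finrank_eq_card_basis e, Fintype.card_fin]
  have key : ∀ k, (Matrix.toLinAlgEquiv e (f.mapMatrix A) - 1) ^ k =
      Matrix.toLinAlgEquiv e (f.mapMatrix ((A - 1) ^ k)) := by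
    intro k
    rw [map_pow, map_pow, map_sub, map_sub, map_one, map_one]
  refine ⟨?_, ?_⟩
  · rw [hn, key, h1, map_zero, map_zero]
  · rw [hn, key]
    intro h
    apply h2
    have h3 := (Matrix.toLinAlgEquiv e).injective (h.trans (map_zero _).symm)
    apply Matrix.map_injective f.injective
    exact h3.trans (map_zero f.mapMatrix).symm

private theorem sb_fin (e : Basis (Fin 3) K V) (f : ZMod 2 →+* K) (M : Module.End K V)
    (A B D : Matrix (Fin 3) (Fin 3) (ZMod 2)) (hA1 : (A - 1) ^ 3 = 0) (hA2 : (A - 1) ^ 2 ≠ 0)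
    (hB1 : (B - 1) ^ 3 = 0) (hB2 : (B - 1) ^ 2 ≠ 0) (hD : A * B = D)
    (hM : ∀ j, M (e j) = ∑ i, f (D i j) • e i) : Good M := by
  refine ⟨Matrix.toLinAlgEquiv e (f.mapMatrix A), Matrix.toLinAlgEquiv e (f.mapMatrix B),
    sb_ru e f A hA1 hA2, sb_ru e f B hB1 hB2, ?_⟩
  rw [← map_mul, ← map_mul, hD]
  apply e.ext
  intro j
  rw [hM, Matrix.toLinAlgEquiv_self]
  rfl

/-- MODULE sb. `n = 3`, trace `0`: in the basis `v, M v, M² v` the matrix of `M` is `[0,0,1; 1,0,a; 0,1,0]` with `a = 0` or `a = 1` (last column `(1, a, 0)`: the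
determinant is not zero, the trace is zero). Both are products `X Y` of two regular unipotent
matrices: `a = 0`: `X = [1,0,0; 0,0,1; 1,1,0]`, `Y = [0,0,1; 0,1,1; 1,0,0]`; `a = 1`: `X = [1,0,1; 1,1,0; 0,0,1]`, `Y = [0,1,1; 1,1,0; 0,1,0]`. -/
theorem good_three [FiniteDimensional K V] (hK : Nat.card K = 2) {M : Module.End K V} {v : V}
    (h : ThPL.Cyc M ⊥ v 3) (hM : ∀ x, M x = 0 → x = 0) (ht : LinearMap.trace K V M = 0) : Good M := by
  have : CharP K 2 := CharTwo.of_one_ne_zero_of_two_eq_zero one_ne_zero (two2 hK)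
  obtain ⟨e0, -, he0⟩ := ThPL.cyc_basis h (Module.Basis.empty (⊥ : Submodule K V) (ι := Fin 0))
    (fun i : Fin 3 => (X : K[X]) ^ (i : ℕ)) (fun k => monic_X_pow _)
    (fun k => by rw [natDegree_X_pow]; exact k.2)
    (fun i j hij => Fin.ext (by simpa only [natDegree_X_pow] using hij)) (Fintype.card_fin 3)
  set e : Basis (Fin 3) K V := e0.reindex (Equiv.emptySum (Fin 0) (Fin 3)) with he
  have he1 : ∀ k : Fin 3, e k = (M ^ (k : ℕ)) v := by
    intro k
    rw [he, Basis.reindex_apply]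
    show e0 (Sum.inr k) = _
    rw [he0, map_pow, aeval_X]
  have m0 : M (e 0) = e 1 := by
    rw [he1, he1]
    rfl
  have m1 : M (e 1) = e 2 := by
    rw [he1, he1]
    rfl
  have hs := e.sum_repr (M (e 2))
  rw [Fin.sum_univ_three] at hs
  have hc2 : e.repr (M (e 2)) 2 = 0 := by
    rw [LinearMap.trace_eq_matrix_trace K e, Matrix.trace, Fin.sum_univ_three] at ht
    simp only [Matrix.diag_apply, LinearMap.toMatrix_apply, m0, m1, Basis.repr_self,
      Finsupp.single_apply] at ht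
    simpa using ht
  rw [hc2, zero_smul, add_zero] at hs
  have hc0 : e.repr (M (e 2)) 0 = 1 := by
    rcases el2 hK (e.repr (M (e 2)) 0) with h0 | h0
    · exfalso
      rw [h0, zero_smul, zero_add, ← m0, ← map_smul] at hs
      have h1 : M (e 2 - e.repr (M (e 2)) 1 • e 0) = 0 := by
        rw [map_sub, hs, sub_self]
      have h2 := congrArg (fun x => e.repr x 2) (hM _ h1)
      simp at h2
    · exact h0
  rw [hc0, one_smul] at hs
  rcases el2 hK (e.repr (M (e 2)) 1) with h1 | h1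
  · rw [h1, zero_smul, add_zero] at hs
    refine sb_fin e (ZMod.castHom (dvd_refl 2) K) M !![1, 0, 0; 0, 0, 1; 1, 1, 0] !![0, 0, 1; 0, 1, 1; 1, 0, 0]
      !![0, 0, 1; 1, 0, 0; 0, 1, 0] (by decide) (by decide) (by decide) (by decide) (by decide) ?_
    intro j
    fin_cases j
    · show M (e 0) = _
      rw [Fin.sum_univ_three, m0]
      simp
    · show M (e 1) = _
      rw [Fin.sum_univ_three, m1]
      simp
    · show M (e 2) = _
      rw [Fin.sum_univ_three, ← hs]
      simp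
  · rw [h1, one_smul] at hs
    refine sb_fin e (ZMod.castHom (dvd_refl 2) K) M !![1, 0, 1; 1, 1, 0; 0, 0, 1] !![0, 1, 1; 1, 1, 0; 0, 1, 0]
      !![0, 0, 1; 1, 0, 1; 0, 1, 0] (by decide) (by decide) (by decide) (by decide) (by decide) ?_
    intro j
    fin_cases j
    · show M (e 0) = _
      rw [Fin.sum_univ_three, m0]
      simp
    · show M (e 1) = _
      rw [Fin.sum_univ_three, m1]
      simp
    · show M (e 2) = _
      rw [Fin.sum_univ_three, ← hs]
      simp
-- END sb

-- BEGIN sc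
private theorem sc_ru {n : ℕ} (e : Basis (Fin n) K V) (f : ZMod 2 →+* K) (A : Matrix (Fin n) (Fin n) (ZMod 2))
    (h1 : (A - 1) ^ n = 0) (h2 : (A - 1) ^ (n - 1) ≠ 0) :
    RU (Matrix.toLinAlgEquiv e (f.mapMatrix A)) := by
  have hn : finrank K V = n := by rw [finrank_eq_card_basis e, Fintype.card_fin]
  have key : ∀ k, (Matrix.toLinAlgEquiv e (f.mapMatrix A) - 1) ^ k =
      Matrix.toLinAlgEquiv e (f.mapMatrix ((A - 1) ^ k)) := by
    intro k
    rw [map_pow, map_pow, map_sub, map_sub, map_one, map_one]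
  refine ⟨?_, ?_⟩
  · rw [hn, key, h1, map_zero, map_zero]
  · rw [hn, key]
    intro h
    apply h2
    have h3 := (Matrix.toLinAlgEquiv e).injective (h.trans (map_zero _).symm)
    apply Matrix.map_injective f.injective
    exact h3.trans (map_zero f.mapMatrix).symm

/-- a basis `a1, a2` with `M a1 = a1`, `M a2 = a1 + a2` -/
private theorem sc_bas [FiniteDimensional K V] {M : Module.End K V} (h : IsJ2 M) :
    ∃ e : Basis (Fin 2) K V, M (e 0) = e 0 ∧ M (e 1) = e 0 + e 1 := by
  obtain ⟨h1, h2, h3⟩ := h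
  obtain ⟨y, hy⟩ : ∃ y, (M - 1) y ≠ 0 := by
    by_contra hc
    push Not at hc
    exact h2 (sub_eq_zero.1 (LinearMap.ext hc))
  have h4 : (M - 1) ((M - 1) y) = 0 := by
    have h5 := LinearMap.congr_fun h3 y
    rw [pow_two] at h5
    exact h5
  have li : LinearIndependent K ![(M - 1) y, y] := by
    rw [LinearIndependent.pair_iff]
    intro s t hst
    have h5 : (M - 1) (s • (M - 1) y + t • y) = (M - 1) 0 := by rw [hst]
    rw [map_add, map_smul, map_smul, h4, smul_zero, zero_add, map_zero] at h5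
    have ht : t = 0 := (smul_eq_zero.1 h5).resolve_right hy
    rw [ht, zero_smul, add_zero] at hst
    exact ⟨(smul_eq_zero.1 hst).resolve_right hy, ht⟩
  have hc : Fintype.card (Fin 2) = finrank K V := by rw [Fintype.card_fin, h1]
  refine ⟨basisOfLinearIndependentOfCardEqFinrank li hc, ?_, ?_⟩
  · rw [coe_basisOfLinearIndependentOfCardEqFinrank]
    show M ((M - 1) y) = (M - 1) y
    have h5 : M ((M - 1) y) - (M - 1) y = 0 := h4
    exact sub_eq_zero.1 h5
  · rw [coe_basisOfLinearIndependentOfCardEqFinrank]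
    show M y = (M - 1) y + y
    show M y = (M y - y) + y
    rw [sub_add_cancel]

/-- MODULE sc. Bases `a1, a2` of `V1` and `b1, b2` of `V2` with `M1 a1 = a1`, `M1 a2 = a1 + a2`, `M2 b1 = b1`, `M2 b2 = b1 + b2`; in the basis `a1, a2, b1, b2` the matrix
`[1,1,0,0; 0,1,0,0; 0,0,1,1; 0,0,0,1]` is `X Y` with `X = [0,0,0,1; 0,0,1,0; 1,0,0,0; 0,1,0,0]`, `Y = [0,0,1,1; 0,0,0,1; 0,1,0,0; 1,1,0,0]` (both regular unipotent, `2 = 0`). -/
theorem j2_j2 [FiniteDimensional K V1] [FiniteDimensional K V2] (hK : Nat.card K = 2) {M1 : Module.End K V1}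
    {M2 : Module.End K V2} (h1 : IsJ2 M1) (h2 : IsJ2 M2) : Good (blk M1 0 M2) := by
  have : CharP K 2 := CharTwo.of_one_ne_zero_of_two_eq_zero one_ne_zero (two2 hK)
  obtain ⟨a, a0, a1⟩ := sc_bas h1
  obtain ⟨b, b0, b1⟩ := sc_bas h2
  set e : Basis (Fin 4) K (V1 × V2) := (a.prod b).reindex finSumFinEquiv with he
  have e0 : e 0 = (a 0, 0) := by
    rw [he, Basis.reindex_apply]
    show a.prod b (Sum.inl 0) = _
    simp
  have e1 : e 1 = (a 1, 0) := by
    rw [he, Basis.reindex_apply]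
    show a.prod b (Sum.inl 1) = _
    simp
  have e2 : e 2 = (0, b 0) := by
    rw [he, Basis.reindex_apply]
    show a.prod b (Sum.inr 0) = _
    simp
  have e3 : e 3 = (0, b 1) := by
    rw [he, Basis.reindex_apply]
    show a.prod b (Sum.inr 1) = _
    simp
  have m0 : blk M1 0 M2 (e 0) = e 0 := by
    rw [e0, blk_apply]
    simp [a0]
  have m1 : blk M1 0 M2 (e 1) = e 0 + e 1 := by
    rw [e1, e0, blk_apply]
    simp [a1]
  have m2 : blk M1 0 M2 (e 2) = e 2 := by
    rw [e2, blk_apply]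
    simp [b0]
  have m3 : blk M1 0 M2 (e 3) = e 2 + e 3 := by
    rw [e2, e3, blk_apply]
    simp [b1]
  let f := ZMod.castHom (dvd_refl 2) K
  refine ⟨Matrix.toLinAlgEquiv e (f.mapMatrix !![0, 0, 0, 1; 0, 0, 1, 0; 1, 0, 0, 0; 0, 1, 0, 0]),
    Matrix.toLinAlgEquiv e (f.mapMatrix !![0, 0, 1, 1; 0, 0, 0, 1; 0, 1, 0, 0; 1, 1, 0, 0]),
    sc_ru e f _ (by decide) (by decide), sc_ru e f _ (by decide) (by decide), ?_⟩
  rw [← map_mul, ← map_mul, show (!![0, 0, 0, 1; 0, 0, 1, 0; 1, 0, 0, 0; 0, 1, 0, 0] *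
    !![0, 0, 1, 1; 0, 0, 0, 1; 0, 1, 0, 0; 1, 1, 0, 0] : Matrix (Fin 4) (Fin 4) (ZMod 2)) =
    !![1, 1, 0, 0; 0, 1, 0, 0; 0, 0, 1, 1; 0, 0, 0, 1] by decide]
  apply e.ext
  intro j
  rw [Matrix.toLinAlgEquiv_self, Fin.sum_univ_four]
  fin_cases j
  · show blk M1 0 M2 (e 0) = _
    rw [m0]
    simp
  · show blk M1 0 M2 (e 1) = _
    rw [m1]
    simp
  · show blk M1 0 M2 (e 2) = _
    rw [m2]
    simp
  · show blk M1 0 M2 (e 3) = _
    rw [m3]
    simp
-- END sc

-- BEGIN sd
/-- MODULE sd. Basis `a1, a2` of `V1` with `M1 a1 = a1`, `M1 a2 = a1 + a2`: `(x, (v, y)) ↦ (x a1 + y a2, v)` is an equivalence `K × (V2 × K) ≃ V1 × V2` which carries the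
endomorphism of `good_snd` (`(x, (v, y)) ↦ (x + y, (G v, y))`) to `blk M1 0 G`; `Good.map`. -/
theorem j2_good [FiniteDimensional K V1] [FiniteDimensional K V2] {M1 : Module.End K V1}
    {G : Module.End K V2} (h1 : IsJ2 M1) (h2 : Good G) : Good (blk M1 0 G) := by
  obtain ⟨hd, hne, hsq⟩ := h1
  have hN0 : M1 - 1 ≠ 0 := sub_ne_zero.mpr hne
  obtain ⟨a2, ha2⟩ : ∃ a2 : V1, (M1 - 1) a2 ≠ 0 := by
    by_contra h
    push Not at h
    exact hN0 (LinearMap.ext fun w => h w)
  have hNN : (M1 - 1) ((M1 - 1) a2) = 0 := by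
    have h3 := LinearMap.congr_fun hsq a2
    rw [pow_two] at h3
    exact h3
  have hMa1 : M1 ((M1 - 1) a2) = (M1 - 1) a2 := by
    have h3 : M1 ((M1 - 1) a2) - (M1 - 1) a2 = 0 := hNN
    exact sub_eq_zero.mp h3
  have hMa2 : M1 a2 = (M1 - 1) a2 + a2 := by
    show M1 a2 = (M1 a2 - a2) + a2
    rw [sub_add_cancel]
  let f1 : (K × (V2 × K)) →ₗ[K] V1 :=
    (LinearMap.toSpanSingleton K V1 ((M1 - 1) a2)) ∘ₗ LinearMap.fst K K (V2 × K) +
      (LinearMap.toSpanSingleton K V1 a2) ∘ₗ LinearMap.snd K V2 K ∘ₗ LinearMap.snd K K (V2 × K)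
  let f : (K × (V2 × K)) →ₗ[K] (V1 × V2) :=
    LinearMap.prod f1 (LinearMap.fst K V2 K ∘ₗ LinearMap.snd K K (V2 × K))
  have hf : ∀ x : K, ∀ v : V2, ∀ y : K, f (x, (v, y)) = (x • ((M1 - 1) a2) + y • a2, v) := fun x v y => rfl
  have hinj : Function.Injective f := by
    rw [← LinearMap.ker_eq_bot, LinearMap.ker_eq_bot']
    rintro ⟨x, v, y⟩ hx
    rw [hf] at hx
    have hv : v = 0 := congrArg Prod.snd hx
    have he : x • ((M1 - 1) a2) + y • a2 = 0 := congrArg Prod.fst hx
    have h4 : (M1 - 1) (x • ((M1 - 1) a2) + y • a2) = (M1 - 1) 0 := by rw [he]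
    rw [map_add, map_smul, map_smul, hNN, smul_zero, zero_add, map_zero] at h4
    have hy : y = 0 := (smul_eq_zero.mp h4).resolve_right ha2
    rw [hy, zero_smul, add_zero] at he
    have hx0 : x = 0 := (smul_eq_zero.mp he).resolve_right ha2
    rw [hx0, hv, hy]
    rfl
  have hdim : finrank K (K × (V2 × K)) = finrank K (V1 × V2) := by
    rw [finrank_prod, finrank_prod, finrank_prod, hd, finrank_self]
    omega
  have hgs := good_snd h2
  refine Good.map (LinearEquiv.ofInjectiveOfFinrankEq f hinj hdim) ?_ hgs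
  rintro ⟨x, v, y⟩
  show f (x + y, (G v + 0, y)) = blk M1 0 G (f (x, (v, y)))
  rw [hf, hf, blk_apply]
  show ((x + y) • ((M1 - 1) a2) + y • a2, G v + 0) =
    (M1 (x • ((M1 - 1) a2) + y • a2) + 0, G v)
  rw [map_add, map_smul, map_smul, hMa1, hMa2, add_zero, add_zero, add_smul, smul_add, add_assoc]
-- END sd

end ThL
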