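import Pool.Agent.ThPL.Main
import Pool.Agent.ThC.Grp

/-! # Fields with at least three elements: one class with squarefree characteristic polynomial -/

namespace ThL
open Polynomial Module Matrix

variable {K : Type*} [Field K]

-- BEGIN xa
private theorem xa_root {F : Type*} [Field F] {n : ℕ} (Z : Matrix (Fin n) (Fin n) F) {l : F}
    (h : Z.charpoly.IsRoot l) : (minpoly F Z).IsRoot l := by
  have h1 : l ∈ spectrum F Z := Matrix.mem_spectrum_iff_isRoot_charpoly.2 h
  have h2 : l ∈ spectrum F (Matrix.toLin' Z) := by rwa [Matrix.spectrum_toLin']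
  have h3 := Module.End.hasEigenvalue_iff_mem_spectrum.2 h2
  have h4 := Module.End.hasEigenvalue_iff_isRoot.1 h3
  rwa [Matrix.minpoly_toLin'] at h4

private theorem xa_irr {n : ℕ} (Z : Matrix (Fin n) (Fin n) K) {p : K[X]} (hp : Irreducible p)
    (h : p ∣ Z.charpoly) : p ∣ minpoly K Z := by
  obtain ⟨x, hx⟩ := IsAlgClosed.exists_aeval_eq_zero (AlgebraicClosure K) p
    (Polynomial.degree_pos_of_irreducible hp).ne'
  have h1 : (Z.map (algebraMap K (AlgebraicClosure K))).charpoly.IsRoot x := by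
    rw [Matrix.charpoly_map, Polynomial.IsRoot, Polynomial.eval_map, ← Polynomial.aeval_def]
    obtain ⟨q, hq⟩ := h
    rw [hq, map_mul, hx, zero_mul]
  have h2 := xa_root _ h1
  have h3 : aeval (Z.map (algebraMap K (AlgebraicClosure K)))
      ((minpoly K Z).map (algebraMap K (AlgebraicClosure K))) = 0 := by
    rw [Polynomial.aeval_map_algebraMap]
    have h4 := Polynomial.aeval_algHom_apply
      ((Algebra.ofId K (AlgebraicClosure K)).mapMatrix (m := Fin n)) Z (minpoly K Z)
    rw [minpoly.aeval, map_zero] at h4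
    exact h4
  have h4 := minpoly.dvd (AlgebraicClosure K) _ h3
  have h5 : aeval x (minpoly K Z) = 0 := by
    have h6 := h2.dvd h4
    rwa [Polynomial.IsRoot, Polynomial.eval_map, ← Polynomial.aeval_def] at h6
  have h6 := minpoly.eq_of_irreducible hp hx
  exact (Dvd.intro _ h6).trans (minpoly.dvd K x h5)

/-- MODULE xa. Every root of the characteristic polynomial (in an algebraic closure) is a root of the minimal polynomial; or: every irreducible factor of
`Z.charpoly` divides `minpoly K Z` (for instance from `Matrix.charpoly` of the Frobenius form, or: `p ∣ charpoly` irreducible, if `p ∤ minpoly` then `p(Z)` is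
invertible, ...); `Z.charpoly` is squarefree and monic, so it divides the minimal polynomial. -/
theorem minpoly_sqf {n : ℕ} (Z : Matrix (Fin n) (Fin n) K) (hs : Squarefree Z.charpoly) :
    minpoly K Z = Z.charpoly := by
  classical
  have hc0 : Z.charpoly ≠ 0 := Z.charpoly_monic.ne_zero
  have hm : (minpoly K Z).Monic := minpoly.monic (Matrix.isIntegral Z)
  have hdvd : Z.charpoly ∣ minpoly K Z := by
    rw [UniqueFactorizationMonoid.dvd_iff_normalizedFactors_le_normalizedFactors hc0 hm.ne_zero,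
      Multiset.le_iff_subset
        ((UniqueFactorizationMonoid.squarefree_iff_nodup_normalizedFactors hc0).1 hs)]
    intro p hp
    have h1 := UniqueFactorizationMonoid.irreducible_of_normalized_factor p hp
    have h2 := xa_irr Z h1 (UniqueFactorizationMonoid.dvd_of_mem_normalizedFactors hp)
    obtain ⟨q, hq, hpq⟩ := UniqueFactorizationMonoid.exists_mem_normalizedFactors_of_dvd
      hm.ne_zero h1 h2
    have h3 := UniqueFactorizationMonoid.normalize_normalized_factor p hp
    have h4 := UniqueFactorizationMonoid.normalize_normalized_factor q hq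
    have h5 : p = q := by
      rw [← h3, ← h4]
      exact normalize_eq_normalize hpq.dvd hpq.symm.dvd
    rw [h5]
    exact hq
  exact Polynomial.eq_of_monic_of_associated hm Z.charpoly_monic
    (associated_of_dvd_dvd (Matrix.minpoly_dvd_charpoly Z) hdvd)
-- END xa

-- BEGIN xb
/-- MODULE xb. As `ThPL.conj_GL` (with `ThPL.mg_ex`). -/
theorem conj_sqf {n : ℕ} (Z Z' : Matrix (Fin n) (Fin n) K) (h : Z'.charpoly = Z.charpoly)
    (hs : Squarefree Z.charpoly) : ∃ P : Matrix (Fin n) (Fin n) K, P.det ≠ 0 ∧ Z' * P = P * Z := by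
  obtain ⟨A, hA, h1⟩ := ThPL.mg_ex Z (minpoly_sqf Z hs)
  obtain ⟨B, hB, h2⟩ := ThPL.mg_ex Z' (minpoly_sqf Z' (by rw [h]; exact hs))
  rw [h] at h2
  have hu : IsUnit A.det := isUnit_iff_ne_zero.mpr hA
  refine ⟨B * A⁻¹, ?_, ?_⟩
  · rw [Matrix.det_mul]
    refine mul_ne_zero hB ?_
    intro h0
    have := congrArg Matrix.det (Matrix.mul_nonsing_inv A hu)
    rw [Matrix.det_mul, h0, mul_zero, Matrix.det_one] at this
    exact zero_ne_one this
  · have h3 : A⁻¹ * Z = ThPL.mg_cmp n Z.charpoly * A⁻¹ := by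
      calc A⁻¹ * Z = A⁻¹ * (Z * (A * A⁻¹)) := by rw [Matrix.mul_nonsing_inv A hu, Matrix.mul_one]
        _ = A⁻¹ * ((Z * A) * A⁻¹) := by rw [Matrix.mul_assoc]
        _ = (A⁻¹ * A) * (ThPL.mg_cmp n Z.charpoly * A⁻¹) := by rw [h1, Matrix.mul_assoc, Matrix.mul_assoc]
        _ = ThPL.mg_cmp n Z.charpoly * A⁻¹ := by rw [Matrix.nonsing_inv_mul A hu, Matrix.one_mul]
    rw [Matrix.mul_assoc, h3, ← Matrix.mul_assoc, ← Matrix.mul_assoc, h2]

/-- As `ThPL.cent_det`. -/
theorem cent_sqf {n : ℕ} (Z : Matrix (Fin n) (Fin n) K) {f : K[X]} {l : K} (hm : f.Monic)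
    (h : Z.charpoly = (X - C l) * f) (hs : Squarefree Z.charpoly) (c : K) :
    ∃ D : Matrix (Fin n) (Fin n) K, D.det = c ∧ Z * D = D * Z := by
  classical
  have hn : n = 1 + f.natDegree := by
    have h1 := congrArg natDegree h
    rw [Matrix.charpoly_natDegree_eq_dim, (monic_X_sub_C l).natDegree_mul hm, natDegree_X_sub_C, Fintype.card_fin] at h1
    exact h1
  let e : Unit ⊕ Fin f.natDegree ≃ Fin n := Fintype.equivOfCardEq (by simp [hn])
  let Z0 : Matrix (Unit ⊕ Fin f.natDegree) (Unit ⊕ Fin f.natDegree) K := fromBlocks (l • (1 : Matrix Unit Unit K)) 0 0 (ThPL.cpm f.natDegree f)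
  let D0 : Matrix (Unit ⊕ Fin f.natDegree) (Unit ⊕ Fin f.natDegree) K := fromBlocks (c • (1 : Matrix Unit Unit K)) 0 0 1
  have hcomm : Z0 * D0 = D0 * Z0 := by
    have h5 : (l • (1 : Matrix Unit Unit K)) * (c • 1) = (c • 1) * (l • (1 : Matrix Unit Unit K)) := by
      rw [smul_mul_smul_comm, smul_mul_smul_comm, mul_comm l c]
    simp only [Z0, D0, fromBlocks_multiply, h5]
    simp
  have hdet0 : D0.det = c := by
    simp [D0]
  have hch0 : Z0.charpoly = (X - C l) * f := by
    have h2 : (l • (1 : Matrix Unit Unit K)).charpoly = X - C l := by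
      simp [Matrix.charpoly, Matrix.charmatrix, Matrix.det_unique]
    have h3 : Z0.charpoly = (l • (1 : Matrix Unit Unit K)).charpoly * (ThPL.cpm f.natDegree f).charpoly :=
      Matrix.charpoly_fromBlocks_zero₂₁ _ _ _
    rw [h3, h2, ThPL.cpm_charpoly hm rfl]
  have hch : (reindex e e Z0).charpoly = (X - C l) * f := by
    rw [Matrix.charpoly_reindex, hch0]
  obtain ⟨P, hP, hZP⟩ := conj_sqf (reindex e e Z0) Z (h.trans hch.symm)
    (by rw [hch, ← h]; exact hs)
  have hPu : IsUnit P.det := isUnit_iff_ne_zero.mpr hP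
  have hcomm' : reindex e e Z0 * reindex e e D0 = reindex e e D0 * reindex e e Z0 := by
    simp only [reindex_apply, submatrix_mul_equiv]
    rw [hcomm]
  have hZ : Z = P * reindex e e Z0 * P⁻¹ := by
    rw [← hZP, Matrix.mul_assoc, Matrix.mul_nonsing_inv _ hPu, Matrix.mul_one]
  refine ⟨P * reindex e e D0 * P⁻¹, ?_, ?_⟩
  · rw [det_mul, det_mul, mul_right_comm, ← det_mul, Matrix.mul_nonsing_inv _ hPu, det_one, one_mul, det_reindex_self, hdet0]
  · have hl : Z * (P * reindex e e D0 * P⁻¹) = P * (reindex e e Z0 * reindex e e D0) * P⁻¹ := by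
      rw [← Matrix.mul_assoc, ← Matrix.mul_assoc, hZP]
      simp only [Matrix.mul_assoc]
    have hr : (P * reindex e e D0 * P⁻¹) * Z = P * (reindex e e D0 * reindex e e Z0) * P⁻¹ := by
      have h4 : P⁻¹ * Z = reindex e e Z0 * P⁻¹ := by
        rw [hZ, ← Matrix.mul_assoc, ← Matrix.mul_assoc, Matrix.nonsing_inv_mul _ hPu, Matrix.one_mul]
      rw [Matrix.mul_assoc, h4]
      simp only [Matrix.mul_assoc]
    rw [hl, hr, hcomm']

/-- As `ThPL.conj_SL`. -/
theorem conjSL_sqf {n : ℕ} (w : SpecialLinearGroup (Fin n) K) (Z : Matrix (Fin n) (Fin n) K) {f : K[X]}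
    {l : K} (hm : f.Monic) (h : w.1.charpoly = (X - C l) * f) (hs : Squarefree w.1.charpoly)
    (h' : Z.charpoly = w.1.charpoly) :
    ∃ P : SpecialLinearGroup (Fin n) K, Z = (P * w * P⁻¹ : SpecialLinearGroup (Fin n) K).1 := by
  obtain ⟨P, hP0, hP⟩ := conj_sqf w.1 Z h' hs
  obtain ⟨D, hD, hwD⟩ := cent_sqf w.1 hm h hs (P.det)⁻¹
  have hdet : (P * D).det = 1 := by
    rw [Matrix.det_mul, hD, mul_inv_cancel₀ hP0]
  let Q : SpecialLinearGroup (Fin n) K := ⟨P * D, hdet⟩
  refine ⟨Q, ?_⟩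
  have h1 : Z * Q.1 = Q.1 * w.1 := by
    have h2 : Q.1 = P * D := rfl
    rw [h2, ← Matrix.mul_assoc, hP, Matrix.mul_assoc, hwD, ← Matrix.mul_assoc]
  have h3 : Q.1 * (Q⁻¹).1 = 1 := by
    have h4 : (Q * Q⁻¹).1 = (1 : SpecialLinearGroup (Fin n) K).1 := by
      rw [mul_inv_cancel]
    exact h4
  have h5 : (Q * w * Q⁻¹ : SpecialLinearGroup (Fin n) K).1 = Q.1 * w.1 * (Q⁻¹).1 := rfl
  rw [h5, ← h1, Matrix.mul_assoc, h3, Matrix.mul_one]
-- END xb

/-- `W` is similar to `c W⁻¹` -/
def Rv {ι : Type*} [Fintype ι] [DecidableEq ι] (c : K) (W : Matrix ι ι K) : Prop :=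
  ∃ P : Matrix ι ι K, P.det ≠ 0 ∧ W * P * W = c • P

/-- the conditions on the representative -/
def WOK {n : ℕ} (w : SpecialLinearGroup (Fin n) K) (l : K) (f : K[X]) : Prop :=
  f.Monic ∧ w.1.charpoly = (X - C l) * f ∧ Squarefree w.1.charpoly ∧ ∃ c : K, Rv c w.1

-- BEGIN xc
private theorem xc_center {n : ℕ} (M : SpecialLinearGroup (Fin n) K) {a : K}
    (h : M.1 = a • (1 : Matrix (Fin n) (Fin n) K)) :
    M ∈ Subgroup.center (SpecialLinearGroup (Fin n) K) := by
  rw [Subgroup.mem_center_iff]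
  intro g
  apply Subtype.ext
  show g.1 * M.1 = M.1 * g.1
  rw [h, Matrix.mul_smul, Matrix.smul_mul, Matrix.mul_one, Matrix.one_mul]

private theorem xc_conj {G : Type*} [Group G] (N : Subgroup G) [N.Normal] (w P : G) :
    IsConj (QuotientGroup.mk w : G ⧸ N) (QuotientGroup.mk (P * w * P⁻¹)) :=
  isConj_iff.2 ⟨QuotientGroup.mk P, rfl⟩

/-- MODULE xc. `z ∈ SL_n(K)`. Not scalar: `hp` and `conjSL_sqf`. Scalar: `z = 1` in the quotient; `w P w = c P` gives `w (P w P⁻¹) = c` with `P w P⁻¹` of the same characteristic polynomial,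
so `P w P⁻¹ = Q w Q⁻¹` with `Q ∈ SL_n(K)` and `w (Q w Q⁻¹)` is the scalar matrix `c`, which is in the centre (`Matrix.SpecialLinearGroup.mem_center_iff`). -/
theorem csq_of {n : ℕ} {w : SpecialLinearGroup (Fin n) K} {l : K} {f : K[X]} (hw : WOK w l f)
    (hp : ∀ M : Matrix (Fin n) (Fin n) K, M.det = 1 → (∀ a : K, M ≠ a • 1) →
      ∃ Z1 Z2 : Matrix (Fin n) (Fin n) K, Z1.charpoly = w.1.charpoly ∧ Z2.charpoly = w.1.charpoly ∧ M = Z1 * Z2) :
    ThC.CSq (SpecialLinearGroup (Fin n) K ⧸ Subgroup.center (SpecialLinearGroup (Fin n) K)) := by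
  obtain ⟨hfm, hch, hsq, c, P, hP, hPw⟩ := hw
  refine ⟨QuotientGroup.mk w, fun z => ?_⟩
  induction z using QuotientGroup.induction_on with
  | H M =>
    by_cases hM : ∃ a : K, M.1 = a • 1
    · obtain ⟨a, ha⟩ := hM
      have hPu : IsUnit P.det := hP.isUnit
      have hc : (P * w.1 * P⁻¹).charpoly = w.1.charpoly := by
        rw [Matrix.charpoly_mul_comm, ← Matrix.mul_assoc, Matrix.nonsing_inv_mul P hPu,
          Matrix.one_mul]
      obtain ⟨Q, hQ⟩ := conjSL_sqf w (P * w.1 * P⁻¹) hfm hch hsq hc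
      refine ⟨QuotientGroup.mk w, QuotientGroup.mk (Q * w * Q⁻¹), IsConj.refl _,
        xc_conj _ w Q, ?_⟩
      have h1 : (w * (Q * w * Q⁻¹)).1 = c • (1 : Matrix (Fin n) (Fin n) K) := by
        show w.1 * (Q * w * Q⁻¹).1 = _
        rw [← hQ, ← Matrix.mul_assoc, ← Matrix.mul_assoc, hPw, Matrix.smul_mul,
          Matrix.mul_nonsing_inv P hPu]
      have h2 : (QuotientGroup.mk (w * (Q * w * Q⁻¹)) :
          SpecialLinearGroup (Fin n) K ⧸ Subgroup.center (SpecialLinearGroup (Fin n) K)) = 1 :=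
        (QuotientGroup.eq_one_iff _).2 (xc_center _ h1)
      have h3 : (QuotientGroup.mk M :
          SpecialLinearGroup (Fin n) K ⧸ Subgroup.center (SpecialLinearGroup (Fin n) K)) = 1 :=
        (QuotientGroup.eq_one_iff _).2 (xc_center _ ha)
      rw [h3]
      exact h2
    · push Not at hM
      obtain ⟨Z1, Z2, h1, h2, hZ⟩ := hp M.1 M.2 hM
      obtain ⟨P1, hP1⟩ := conjSL_sqf w Z1 hfm hch hsq h1
      obtain ⟨P2, hP2⟩ := conjSL_sqf w Z2 hfm hch hsq h2
      refine ⟨QuotientGroup.mk (P1 * w * P1⁻¹), QuotientGroup.mk (P2 * w * P2⁻¹),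
        xc_conj _ w P1, xc_conj _ w P2, ?_⟩
      have h3 : M = P1 * w * P1⁻¹ * (P2 * w * P2⁻¹) := by
        apply Subtype.ext
        rw [hZ, hP1, hP2]
        rfl
      rw [h3]
      rfl
-- END xc

-- BEGIN xd
private theorem xd_rev {n : ℕ} {M N : Matrix (Fin n) (Fin n) K} (h : M * N = 1) (p : K[X]) (d : ℕ)
    (hd : p.natDegree ≤ d) :
    aeval M (∑ i ∈ Finset.range (d + 1), C (p.coeff i) * X ^ (d - i)) = M ^ d * aeval N p := by
  have h' : N * M = 1 := mul_eq_one_comm.1 h
  have hc : Commute M N := by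
    change M * N = N * M
    rw [h, h']
  rw [Polynomial.aeval_eq_sum_range' (Nat.lt_succ_of_le hd) N, Finset.mul_sum, map_sum]
  refine Finset.sum_congr rfl (fun i hi => ?_)
  have hi' : i ≤ d := Nat.lt_succ_iff.1 (Finset.mem_range.1 hi)
  have h1 : M ^ d * N ^ i = M ^ (d - i) := by
    have h2 : M ^ d = M ^ (d - i) * M ^ i := by
      rw [← pow_add, Nat.sub_add_cancel hi']
    rw [h2, mul_assoc, ← hc.mul_pow, h, one_pow, mul_one]
  rw [map_mul, aeval_C, map_pow, aeval_X, mul_smul_comm, h1, Algebra.smul_def]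

private theorem xd_coeff (p : K[X]) (d j : ℕ) (hj : j ≤ d) :
    (∑ i ∈ Finset.range (d + 1), C (p.coeff i) * X ^ (d - i)).coeff (d - j) = p.coeff j := by
  rw [Polynomial.finsetSum_coeff, Finset.sum_eq_single j]
  · rw [Polynomial.coeff_C_mul, Polynomial.coeff_X_pow, if_pos rfl, mul_one]
  · intro i hi hij
    have hi' : i ≤ d := Nat.lt_succ_iff.1 (Finset.mem_range.1 hi)
    rw [Polynomial.coeff_C_mul, Polynomial.coeff_X_pow, if_neg (by omega), mul_zero]
  · intro h
    exact absurd (Finset.mem_range.2 (Nat.lt_succ_of_le hj)) h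

private theorem xd_deg (p : K[X]) (d : ℕ) :
    (∑ i ∈ Finset.range (d + 1), C (p.coeff i) * X ^ (d - i)).natDegree ≤ d := by
  refine Polynomial.natDegree_sum_le_of_forall_le _ _ (fun i _ => ?_)
  refine le_trans (Polynomial.natDegree_C_mul_X_pow_le _ _) (Nat.sub_le _ _)

private theorem xd_eval {n : ℕ} {N G : Matrix (Fin n) (Fin n) K} {b : K} (h : N * G = b • G)
    (p : K[X]) : aeval N p * G = p.eval b • G := by
  induction p using Polynomial.induction_on' with
  | add p q hp hq => rw [map_add, add_mul, hp, hq, Polynomial.eval_add, add_smul]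
  | monomial k a =>
    have h1 : ∀ k : ℕ, N ^ k * G = b ^ k • G := by
      intro k
      induction k with
      | zero => rw [pow_zero, pow_zero, one_mul, one_smul]
      | succ k ih => rw [pow_succ, mul_assoc, h, mul_smul_comm, ih, smul_smul, pow_succ, mul_comm b]
    rw [Polynomial.aeval_monomial, mul_assoc, h1, Polynomial.eval_monomial, ← Algebra.smul_def,
      smul_smul]

/-- MODULE xd. `N = M⁻¹`. With `μ = minpoly K N` (irreducible of degree 3, `μ(0) ≠ 0`): the reverse of `μ` kills `M`, and the reverse of a polynomial which kills `M` kills `N`, so the minimal polynomial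
of `M` has degree 3; it has no root in `K` (an eigenvector of `M` is an eigenvector of `N`), so it is irreducible. -/
theorem min_inv {n : ℕ} {M N : Matrix (Fin n) (Fin n) K} (h : M * N = 1) (hi : Irreducible (minpoly K N))
    (hd : (minpoly K N).natDegree = 3) : Irreducible (minpoly K M) ∧ (minpoly K M).natDegree = 3 := by
  have h' : N * M = 1 := mul_eq_one_comm.1 h
  have hMi : IsIntegral K M := Algebra.IsIntegral.isIntegral M
  have hmon := minpoly.monic hMi
  have hroot : ∀ x : K, ¬ (minpoly K N).IsRoot x := by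
    intro x hx
    have h1 := Polynomial.degree_eq_one_of_irreducible_of_root hi hx
    have h2 : (minpoly K N).natDegree = 1 := Polynomial.natDegree_eq_of_degree_eq_some (by rw [h1]; rfl)
    omega
  have hm0 : (minpoly K N).coeff 0 ≠ 0 := by
    intro h0
    apply hroot 0
    rw [Polynomial.IsRoot.def, ← Polynomial.coeff_zero_eq_eval_zero]
    exact h0
  have hle : (minpoly K M).natDegree ≤ 3 := by
    have h1 := xd_rev h (minpoly K N) 3 hd.le
    rw [minpoly.aeval, mul_zero] at h1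
    have h2 : (∑ i ∈ Finset.range (3 + 1), C ((minpoly K N).coeff i) * X ^ (3 - i)) ≠ 0 := by
      intro h3
      have h4 := xd_coeff (minpoly K N) 3 0 (by omega)
      rw [h3, Polynomial.coeff_zero] at h4
      exact hm0 h4.symm
    have h3 := minpoly.degree_le_of_ne_zero K M h2 h1
    exact le_trans (Polynomial.natDegree_le_natDegree h3) (xd_deg _ 3)
  have hge : 3 ≤ (minpoly K M).natDegree := by
    have h1 := xd_rev h' (minpoly K M) (minpoly K M).natDegree le_rfl
    rw [minpoly.aeval, mul_zero] at h1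
    have h2 : (∑ i ∈ Finset.range ((minpoly K M).natDegree + 1), C ((minpoly K M).coeff i) *
        X ^ ((minpoly K M).natDegree - i)) ≠ 0 := by
      intro h3
      have h4 := xd_coeff (minpoly K M) (minpoly K M).natDegree (minpoly K M).natDegree le_rfl
      rw [h3, Polynomial.coeff_zero] at h4
      have h5 : (minpoly K M).coeff (minpoly K M).natDegree = 1 := hmon.coeff_natDegree
      rw [h5] at h4
      exact one_ne_zero h4.symm
    have h3 := minpoly.degree_le_of_ne_zero K N h2 h1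
    have h4 := Polynomial.natDegree_le_natDegree h3
    rw [hd] at h4
    exact le_trans h4 (xd_deg _ _)
  have h3 : (minpoly K M).natDegree = 3 := le_antisymm hle hge
  refine ⟨?_, h3⟩
  rw [hmon.irreducible_iff_roots_eq_zero_of_degree_le_three (by omega) (by omega)]
  by_contra hne
  obtain ⟨a, ha⟩ := Multiset.exists_mem_of_ne_zero hne
  have ha' := Polynomial.isRoot_of_mem_roots ha
  obtain ⟨g, hg⟩ := Polynomial.dvd_iff_isRoot.2 ha'
  have hg0 : g ≠ 0 := by
    rintro rfl
    rw [mul_zero] at hg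
    exact hmon.ne_zero hg
  have hgd : g.natDegree = 2 := by
    have h4 := Polynomial.natDegree_mul (Polynomial.X_sub_C_ne_zero a) hg0
    rw [← hg, h3, Polynomial.natDegree_X_sub_C] at h4
    omega
  have hG : aeval M g ≠ 0 := by
    intro h4
    have h5 := Polynomial.natDegree_le_natDegree (minpoly.degree_le_of_ne_zero K M hg0 h4)
    omega
  have hMG : M * aeval M g = a • aeval M g := by
    have h4 := minpoly.aeval K M
    rw [hg, map_mul, map_sub, aeval_X, aeval_C, sub_mul, sub_eq_zero, ← Algebra.smul_def] at h4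
    exact h4
  have hNG : aeval M g = a • (N * aeval M g) := by
    rw [← mul_smul_comm, ← hMG, ← mul_assoc, h', one_mul]
  have ha0 : a ≠ 0 := by
    rintro rfl
    rw [zero_smul] at hNG
    exact hG hNG
  have hNG' : N * aeval M g = a⁻¹ • aeval M g := by
    rw [eq_comm, inv_smul_eq_iff₀ ha0]
    exact hNG
  have h4 := xd_eval hNG' (minpoly K N)
  rw [minpoly.aeval, zero_mul] at h4
  rcases smul_eq_zero.1 h4.symm with h5 | h5
  · exact hroot a⁻¹ h5
  · exact hG h5
-- END xd

-- BEGIN xe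
private theorem xe_irr {p : K[X]} (hp : p.Monic) (hd : p.natDegree = 3)
    (h : ∀ r : K[X], r.Monic → r.natDegree = 2 → ¬ r ∣ p) : Irreducible p := by
  rw [hp.irreducible_iff_natDegree']
  refine ⟨?_, ?_⟩
  · rintro rfl
    rw [Polynomial.natDegree_one] at hd
    omega
  · intro f g hf hg hfg hgd
    have h1 : f.natDegree + g.natDegree = 3 := by
      rw [← hf.natDegree_mul hg, hfg, hd]
    rw [hd] at hgd
    simp only [Finset.mem_Ioc] at hgd
    exact h f hf (by omega) ⟨g, hfg.symm⟩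

private theorem xe_prodV {V : Type*} [AddCommGroup V] [Module K V] [FiniteDimensional K V]
    (hK : ∃ d : K, d ≠ 0 ∧ d ≠ 1) (N : Module.End K V)
    (hx : ¬ (Irreducible (minpoly K N) ∧ (minpoly K N).natDegree = 3)) (hN : ∀ c : K, N ≠ c • 1)
    {f1 f2 : K[X]} (h1 : f1.Monic) (h2 : f2.Monic)
    (d1 : f1.natDegree + 1 = finrank K V) (d2 : f2.natDegree + 1 = finrank K V) {l1 l2 : K}
    (hdet : l1 * l2 * (f1.coeff 0 * f2.coeff 0) * LinearMap.det N = 1) :
    ThPL.Fac N ((X - C l1) * f1) ((X - C l2) * f2) := by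
  by_cases h : ∃ r : K[X], r.Monic ∧ r.natDegree = 2 ∧ r ∣ minpoly K N
  · obtain ⟨r, hr, hr2, hrd⟩ := h
    obtain ⟨φ, c0, c1, hφ, w, hw, hw'⟩ := ThPL.exists_phi N hr hr2 hrd
    exact ThPL.case_a hK N h1 h2 d1 d2 hdet φ c0 c1 hφ hw hw'
  · have h' : ∀ r : K[X], r.Monic → r.natDegree = 2 → ¬ r ∣ minpoly K N := fun r a b c => h ⟨r, a, b, c⟩
    have h3' := ThPL.three_le N h' hN
    have h4 : ThPL.Chs K ((minpoly K N).natDegree - 2) := by
      by_cases h5 : (minpoly K N).natDegree = 3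
      · exact absurd ⟨xe_irr (minpoly.monic (Algebra.IsIntegral.isIntegral N)) h5 h', h5⟩ hx
      · exact ThPL.chs_of_le hK (by omega)
    obtain ⟨v, hv⟩ := ThPL.max_vec N
    obtain ⟨V', hV'⟩ := ThPL.cyc_of_max N hv
    obtain ⟨s, hs⟩ := ThPL.one_root N h'
    exact ThPL.case_b_gen hK N h1 h2 d1 d2 hdet hV' h3' h4 hs

/-- MODULE xe. The proof of `ThPL.prodM` and `ThPL.prodV` (file ThPL/Main.lean) with `N = M⁻¹`; the hypothesis `h3` is used there only if the minimal polynomial of `N` has degree `3` and no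
monic divisor of degree `2`: then it is irreducible (`md_irr`) and `min_inv` contradicts `hx`. -/
theorem prodM_exc {n : ℕ} (hK : ∃ d : K, d ≠ 0 ∧ d ≠ 1) (M : Matrix (Fin n) (Fin n) K)
    (hx : ¬ (Irreducible (minpoly K M) ∧ (minpoly K M).natDegree = 3)) (hM : ∀ c : K, M ≠ c • 1)
    {f1 f2 : K[X]} (h1 : f1.Monic) (h2 : f2.Monic)
    (d1 : f1.natDegree + 1 = n) (d2 : f2.natDegree + 1 = n) {l1 l2 : K}
    (hdet : l1 * l2 * (f1.coeff 0 * f2.coeff 0) = M.det) (h0 : M.det ≠ 0) :
    ∃ Z1 Z2 : Matrix (Fin n) (Fin n) K, Z1.charpoly = (X - C l1) * f1 ∧ Z2.charpoly = (X - C l2) * f2 ∧ M = Z1 * Z2 := by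
  have hu : IsUnit M.det := isUnit_iff_ne_zero.2 h0
  have hfr : finrank K (Fin n → K) = n := by simp
  have hMi : M * M⁻¹ = 1 := Matrix.mul_nonsing_inv M hu
  have hiM : M⁻¹ * M = 1 := Matrix.nonsing_inv_mul M hu
  have hfac : ThPL.Fac (Matrix.toLin' M⁻¹) ((X - C l1) * f1) ((X - C l2) * f2) := by
    refine xe_prodV hK _ ?_ ?_ h1 h2 (by rw [hfr, d1]) (by rw [hfr, d2]) ?_
    · rw [Matrix.minpoly_toLin']
      exact fun h => hx (min_inv hMi h.1 h.2)
    · intro c hc
      have hc1 : Matrix.toLin' M⁻¹ = Matrix.toLin' (c • (1 : Matrix (Fin n) (Fin n) K)) := by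
        rw [hc, map_smul, Matrix.toLin'_one]; rfl
      have hc2 : M⁻¹ = c • (1 : Matrix (Fin n) (Fin n) K) := Matrix.toLin'.injective hc1
      rw [hc2, Matrix.mul_smul, Matrix.mul_one] at hMi
      have hc0 : c ≠ 0 := by
        rintro rfl
        rw [zero_smul] at hMi
        have : M = 0 := by
          rw [← Matrix.mul_one M, ← hMi, Matrix.mul_zero]
        exact hM 0 (by rw [this, zero_smul])
      apply hM c⁻¹
      rw [← hMi, smul_smul, inv_mul_cancel₀ hc0, one_smul]
    · rw [LinearMap.det_toLin', hdet, ← Matrix.det_mul, hMi, Matrix.det_one]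
  obtain ⟨Z1, Z2, e1, e2, e3⟩ := hfac
  refine ⟨LinearMap.toMatrix' Z1, LinearMap.toMatrix' Z2, ?_, ?_, ?_⟩
  · rw [← Matrix.charpoly_toLin', Matrix.toLin'_toMatrix', e1]
  · rw [← Matrix.charpoly_toLin', Matrix.toLin'_toMatrix', e2]
  · have h5 : M⁻¹ * (LinearMap.toMatrix' Z1 * LinearMap.toMatrix' Z2) = 1 := by
      have h6 := congrArg LinearMap.toMatrix' e3
      rw [LinearMap.toMatrix'_mul, LinearMap.toMatrix'_toLin', LinearMap.toMatrix'_mul] at h6
      rw [h6]
      exact LinearMap.toMatrix'_one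
    calc M = M * (M⁻¹ * (LinearMap.toMatrix' Z1 * LinearMap.toMatrix' Z2)) := by rw [h5, Matrix.mul_one]
      _ = _ := by rw [← Matrix.mul_assoc, hMi, Matrix.one_mul]
-- END xe

end ThL
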